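import Pool.Agent.Lib_MP_a23b08_n.N3Om
import Pool.Agent.Lib_MP_a23b08_t.T2Back

/-!
# N3: the trace condition `PD` is preserved by forward and backward tilts
-/

set_option backward.defeqAttrib.useBackward true
set_option backward.isDefEq.respectTransparency false
set_option linter.unusedSectionVars false
set_option linter.unusedVariables false

open CategoryTheory CategoryTheory.Limits CategoryTheory.Triangulated CategoryTheory.Pretriangulated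

universe v u

namespace EGr

namespace N3

open N1

section
variable {k : Type} [Field k] {D : Type u} [Category.{v} D] [Preadditive D] [HasZeroObject D]
  [HasShift D ℤ] [∀ n : ℤ, (shiftFunctor D n).Additive] [Pretriangulated D] [IsTriangulated D]
  [Linear k D] {t t' : TStructure D} {ι : Type} {X X' Y : ι → D}

/-- The functionals on the old objects. -/
noncomputable def oldTr {κ : ι} {V : D} (σ : ∀ o, (newY Y κ V o ⟶ newY Y κ V o) →ₗ[k] k) :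
    ∀ i, (Y i ⟶ Y i) →ₗ[k] k := by
  classical
  exact fun i => if h : i = κ then 0 else σ (some ⟨i, h⟩)

theorem oldTr_apply {κ : ι} {V : D} (σ : ∀ o, (newY Y κ V o ⟶ newY Y κ V o) →ₗ[k] k) {i : ι}
    (h : i ≠ κ) : oldTr σ i = σ (some ⟨i, h⟩) := by
  classical
  exact dif_neg h

theorem isTrAt_old {κ : ι} {V : D} {σ : ∀ o, (newY Y κ V o ⟶ newY Y κ V o) →ₗ[k] k}
    (hσ : IsTr k (newY Y κ V) σ) : IsTrAt k Y κ V (oldTr σ) (σ none) := by
  refine ⟨fun i hi => ?_, hσ.1 none, fun i j hi hj f g => ?_, fun i hi f g => ?_,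
    fun f g => hσ.2 none none f g⟩
  · rw [oldTr_apply σ hi]
    exact hσ.1 (some ⟨i, hi⟩)
  · rw [oldTr_apply σ hi, oldTr_apply σ hj]
    exact hσ.2 (some ⟨i, hi⟩) (some ⟨j, hj⟩) f g
  · rw [oldTr_apply σ hi]
    exact hσ.2 (some ⟨i, hi⟩) none f g

/-- The trace on the family `Y` from a trace on the `Y j`, `j ≠ κ`, and `Y κ`. -/
theorem isTr_update [DecidableEq ι] {κ : ι} {τ₀ : ∀ i, (Y i ⟶ Y i) →ₗ[k] k}
    {τ : (Y κ ⟶ Y κ) →ₗ[k] k} (h : IsTrAt k Y κ (Y κ) τ₀ τ) :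
    IsTr k Y (Function.update τ₀ κ τ) := by
  have e1 : Function.update τ₀ κ τ κ = τ := Function.update_self _ _ _
  have e2 : ∀ j, j ≠ κ → Function.update τ₀ κ τ j = τ₀ j := fun j hj => Function.update_of_ne hj _ _
  refine ⟨fun i => ?_, fun i j f g => ?_⟩
  · by_cases hi : i = κ
    · subst hi
      rw [e1]
      exact h.one
    · rw [e2 i hi]
      exact h.one₀ i hi
  · by_cases hi : i = κ
    · subst hi
      rw [e1]
      by_cases hj : j = i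
      · subst hj
        rw [e1]
        exact h.uu f g
      · rw [e2 j hj]
        exact (h.yu j hj g f).symm
    · rw [e2 i hi]
      by_cases hj : j = κ
      · subst hj
        rw [e1]
        exact h.yu i hi f g
      · rw [e2 j hj]
        exact h.yy i j hi hj f g

/-- `PD` for the new family from the vanishing of the old functionals. -/
theorem new_zero_V {κ : ι} {U V E : D} {a : U ⟶ E} {b : E ⟶ V} {δ : V ⟶ U⟦(1 : ℤ)⟧}
    (hE : Exch k Y κ U V a b δ) {σ : ∀ o, (newY Y κ V o ⟶ newY Y κ V o) →ₗ[k] k}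
    (hσ : IsTr k (newY Y κ V) σ) (h0 : ∀ i, i ≠ κ → ∀ f, oldTr σ i f = 0) (o) (f) : σ o f = 0 := by
  rcases o with _ | ⟨j, hj⟩
  · exact uniq_V hE (isTrAt_old hσ) h0 f
  · have := h0 j hj f
    rwa [oldTr_apply σ hj] at this

theorem new_zero_U {κ : ι} {U V E : D} {a : U ⟶ E} {b : E ⟶ V} {δ : V ⟶ U⟦(1 : ℤ)⟧}
    (hE : Exch k Y κ U V a b δ) {σ : ∀ o, (newY Y κ U o ⟶ newY Y κ U o) →ₗ[k] k}
    (hσ : IsTr k (newY Y κ U) σ) (h0 : ∀ i, i ≠ κ → ∀ f, oldTr σ i f = 0) (o) (f) : σ o f = 0 := by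
  rcases o with _ | ⟨j, hj⟩
  · exact uniq_U hE (isTrAt_old hσ) h0 f
  · have := h0 j hj f
    rwa [oldTr_apply σ hj] at this

/-- Maps to the third term of the triangle of `MutData` lift. -/
theorem mut_lift {κ : ι} (hM : MutData X X' κ) {j : ι} (hj : j ≠ κ) {W : D}
    (hW : ∀ f : W ⟶ (X κ)⟦(1 : ℤ)⟧, f = 0) :
    ∃ b : X' j ⟶ X j, ∀ p : W ⟶ X j, ∃ p' : W ⟶ X' j, p' ≫ b = p := by
  obtain ⟨E, a, b, c, hT, hE⟩ := hM.tri j hj
  refine ⟨b, fun p => ?_⟩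
  have h0 : p ≫ c = 0 := hom_filt_isoTo (filt_isoTo_shift 1 hE) hW _
  obtain ⟨p', hp'⟩ : ∃ p' : W ⟶ X' j, p = p' ≫ b := Triangle.coyoneda_exact₃ _ hT p h0
  exact ⟨p', hp'.symm⟩

theorem mut_ext {κ : ι} (hM : MutData X X' κ) {j : ι} (hj : j ≠ κ) {W : D}
    (hW : ∀ f : X κ ⟶ W, f = 0) :
    ∃ b : X' j ⟶ X j, ∀ q : X' j ⟶ W, ∃ q' : X j ⟶ W, b ≫ q' = q := by
  obtain ⟨E, a, b, c, hT, hE⟩ := hM.tri j hj
  refine ⟨b, fun q => ?_⟩
  have h0 : a ≫ q = 0 := filt_isoTo_hom hE hW _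
  obtain ⟨q', hq'⟩ : ∃ q' : X j ⟶ W, q = b ≫ q' := Triangle.yoneda_exact₂ _ hT q h0
  exact ⟨q', hq'.symm⟩

/-- A simple object without maps to shifted simples is projective in the heart. -/
theorem proj_of_simples {I : Type} {X : I → D} (hX : SMList t X) {S : D}
    (h : ∀ j, ∀ f : S ⟶ (X j)⟦(1 : ℤ)⟧, f = 0) (Z : D) (hZ : t.heart Z) (f : S ⟶ Z⟦(1 : ℤ)⟧) :
    f = 0 := by
  have hS := hX.isSMC
  rw [hX.eq_tstr, hS.tstr_heart] at hZ
  have h1 : cl X {1} (Z⟦(1 : ℤ)⟧) := cl_shift_single (by norm_num) hZ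
  refine Filt.zero_hom ?_ h1 f
  rintro W ⟨j, m, hm, ⟨e⟩⟩ g
  rw [Set.mem_singleton_iff] at hm
  subst hm
  rw [← cancel_mono e.hom, h j (g ≫ e.hom), zero_comp]

theorem inj_of_simples {I : Type} {X : I → D} (hX : SMList t X) {S : D}
    (h : ∀ j, ∀ f : X j ⟶ S⟦(1 : ℤ)⟧, f = 0) (Z : D) (hZ : t.heart Z) (f : Z ⟶ S⟦(1 : ℤ)⟧) :
    f = 0 := by
  have hS := hX.isSMC
  rw [hX.eq_tstr, hS.tstr_heart] at hZ
  refine Filt.hom_zero ?_ hZ f
  rintro W ⟨j, m, hm, ⟨e'⟩⟩ g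
  rw [Set.mem_singleton_iff] at hm
  subst hm
  let e0 : (X j)⟦(0 : ℤ)⟧ ≅ X j := (shiftFunctorZero D ℤ).app (X j)
  rw [← cancel_epi e'.inv, ← cancel_epi e0.inv, h j (e0.inv ≫ e'.inv ≫ g), comp_zero, comp_zero]

/-- rigidity is invariant under isomorphisms and shifts -/
theorem rigid_iso {S T : D} (e : S ≅ T) (h : ∀ f : S ⟶ S⟦(1 : ℤ)⟧, f = 0) (f : T ⟶ T⟦(1 : ℤ)⟧) :
    f = 0 := by
  have h1 := h (e.hom ≫ f ≫ e.inv⟦(1 : ℤ)⟧')
  rw [← cancel_epi e.hom, ← cancel_mono (e.inv⟦(1 : ℤ)⟧'), Category.assoc, h1]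
  simp

theorem rigid_shift {S : D} (h : ∀ f : S ⟶ S⟦(1 : ℤ)⟧, f = 0)
    (f : S⟦(1 : ℤ)⟧ ⟶ S⟦(1 : ℤ)⟧⟦(1 : ℤ)⟧) : f = 0 := by
  obtain ⟨g, rfl⟩ := (shiftFunctor D (1 : ℤ)).map_surjective f
  rw [h g, Functor.map_zero]

theorem rigid_of_shift {S : D} (h : ∀ f : S⟦(1 : ℤ)⟧ ⟶ S⟦(1 : ℤ)⟧⟦(1 : ℤ)⟧, f = 0)
    (f : S ⟶ S⟦(1 : ℤ)⟧) : f = 0 :=
  (shiftFunctor D (1 : ℤ)).map_injective (by rw [h (f⟦(1 : ℤ)⟧'), Functor.map_zero])

/-- The arrows at `κ` before and after the tilt. -/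
theorem arrow_iff [IsAlgClosed k] (hC : CY3 k D) {κ : ι} (hX : SMList t X) (hM : MutData X X' κ)
    (hi : ∀ f : X κ ⟶ (X κ)⟦(1 : ℤ)⟧, f = 0) {j : ι} (hj : j ≠ κ) :
    (∀ f : X' κ ⟶ (X' j)⟦(1 : ℤ)⟧, f = 0) ↔ ∀ f : X j ⟶ (X κ)⟦(1 : ℤ)⟧, f = 0 := by
  have h1 := hM.hd_eq hC hX.isSMC hi j hj
  constructor
  · intro h
    exact zero_of_hd (k := k) hC.fin (by rw [← h1]; exact hd_eq_zero h)
  · intro h
    exact zero_of_hd (k := k) hC.fin (by rw [h1]; exact hd_eq_zero h)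

end

end N3

open N1 N3

section
variable {k : Type} [Field k] {D : Type u} [Category.{v} D] [Preadditive D] [HasZeroObject D]
  [HasShift D ℤ] [∀ n : ℤ, (shiftFunctor D n).Additive] [Pretriangulated D] [IsTriangulated D]
  [Linear k D] {t t' : TStructure D} {ι : Type} {X X' Y : ι → D}

/-- N3, forward. -/
theorem pd_fwd [IsAlgClosed k] (hN : NHyp k D) (hX : SMList t X) (hX' : SMList t' X') (κ : ι)
    (hM : MutData X X' κ) (hnd : NonDeg t) (hY : YD k X Y) (hP : PD k X Y)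
    {V E : D} {a : Y κ ⟶ E} {b : E ⟶ V} {δ : V ⟶ (Y κ)⟦(1 : ℤ)⟧} (hE : Exch k Y κ (Y κ) V a b δ)
    (hY' : YD k (newX X' κ) (newY Y κ V)) : PD k (newX X' κ) (newY Y κ V) := by
  classical
  have hC := hN.toCY3
  have hi : ∀ f : X κ ⟶ (X κ)⟦(1 : ℤ)⟧, f = 0 := hnd.1 _ (hX.simple κ)
  have hi' : ∀ f : X' κ ⟶ (X' κ)⟦(1 : ℤ)⟧, f = 0 := by
    obtain ⟨e⟩ := hM.iso
    exact rigid_iso e.symm (rigid_shift hi)
  obtain ⟨π, hπ⟩ := exists_cov k hC hX hY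
  obtain ⟨s, hs⟩ := exists_soc k hC hX hY
  have hXn := smlist_newX hX' κ
  obtain ⟨π', hπ'⟩ := exists_cov k hC hXn hY'
  obtain ⟨s', hs'⟩ := exists_soc k hC hXn hY'
  intro σ hσ o ho
  obtain ⟨τU, hU⟩ := extend_U hE (isTrAt_old hσ)
  have hτ := isTr_update hU
  set τ := Function.update (oldTr σ) κ τU with hτdef
  have e1 : τ κ = τU := Function.update_self _ _ _
  have e2 : ∀ j, j ≠ κ → τ j = oldTr σ j := fun j hj => Function.update_of_ne hj _ _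
  -- it is enough to show that `τ` vanishes
  have hfin : (∀ i f, τ i f = 0) → ∀ (j) (f : newY Y κ V j ⟶ newY Y κ V j), σ j f = 0 := by
    intro h
    refine new_zero_V hE hσ fun i hi f => ?_
    rw [← e2 i hi]
    exact h i f
  refine hfin ?_
  -- the case of an old vertex
  have hsome : ∀ j : {j : ι // j ≠ κ}, (∀ (p : Y j.1 ⟶ X' j.1) (q : X' j.1 ⟶ Y j.1),
      σ (some j) (p ≫ q) = 0) → ∀ i f, τ i f = 0 := by
    intro j hj
    refine hP τ hτ j.1 fun p q => ?_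
    rw [e2 j.1 j.2, oldTr_apply σ j.2]
    obtain ⟨b', hb'⟩ := mut_lift hM j.2 (W := Y j.1)
      (fun f => yd_zero k hC hY (i := j.1) (j := κ) (m := 1) (Or.inl j.2) f)
    obtain ⟨p', hp'⟩ := hb' p
    rw [← hp', Category.assoc]
    exact hj p' (b' ≫ q)
  rcases o with _ | j
  · -- the new vertex
    by_cases harr : ∀ j, j ≠ κ → ∀ f : X' κ ⟶ (X' j)⟦(1 : ℤ)⟧, f = 0
    · -- no arrow: `X κ` is injective
      have hinj : ∀ j, ∀ f : X j ⟶ (X κ)⟦(1 : ℤ)⟧, f = 0 := by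
        intro j
        by_cases hj : j = κ
        · subst hj
          exact hi
        · exact (arrow_iff hC hX hM hi hj).1 (harr j hj)
      refine hP τ hτ κ ((vanish_iff hπ hs κ _).2 ?_)
      exact inj_iso hX hπ hs (inj_of_simples hX hinj) _ (hτ.1 κ)
    · push Not at harr
      obtain ⟨j, hj, e, he⟩ := harr
      have h1 : σ none (π' none ≫ s' none) = 0 := ho _ _
      have h2 := (omega_iff hXn hπ' hs' (i := none) (j := some ⟨j, hj⟩) (by simp) e he hσ).1 h1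
      exact hsome ⟨j, hj⟩ ((vanish_iff hπ' hs' (some ⟨j, hj⟩) _).2 h2)
  · exact hsome j ho

/-- N3, backward. -/
theorem pd_bwd [IsAlgClosed k] (hN : NHyp k D) (hX : SMList t X) (hX' : SMList t' X') (κ : ι)
    (hM : MutData X X' κ) (hnd : NonDeg t') (hY : YD k X' Y) (hP : PD k X' Y)
    {U E : D} {a : U ⟶ E} {b : E ⟶ Y κ} {δ : Y κ ⟶ U⟦(1 : ℤ)⟧} (hE : Exch k Y κ U (Y κ) a b δ)
    (hY' : YD k (newX X κ) (newY Y κ U)) : PD k (newX X κ) (newY Y κ U) := by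
  classical
  have hC := hN.toCY3
  have hi' : ∀ f : X' κ ⟶ (X' κ)⟦(1 : ℤ)⟧, f = 0 := hnd.1 _ (hX'.simple κ)
  have hi : ∀ f : X κ ⟶ (X κ)⟦(1 : ℤ)⟧, f = 0 := by
    obtain ⟨e⟩ := hM.iso
    exact rigid_of_shift (rigid_iso e hi')
  obtain ⟨π, hπ⟩ := exists_cov k hC hX' hY
  obtain ⟨s, hs⟩ := exists_soc k hC hX' hY
  have hXn := smlist_newX hX κ
  obtain ⟨π', hπ'⟩ := exists_cov k hC hXn hY'
  obtain ⟨s', hs'⟩ := exists_soc k hC hXn hY'
  intro σ hσ o ho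
  obtain ⟨τV, hV⟩ := extend_V hE (isTrAt_old hσ)
  have hτ := isTr_update hV
  set τ := Function.update (oldTr σ) κ τV with hτdef
  have e1 : τ κ = τV := Function.update_self _ _ _
  have e2 : ∀ j, j ≠ κ → τ j = oldTr σ j := fun j hj => Function.update_of_ne hj _ _
  have hfin : (∀ i f, τ i f = 0) → ∀ (j) (f : newY Y κ U j ⟶ newY Y κ U j), σ j f = 0 := by
    intro h
    refine new_zero_U hE hσ fun i hi f => ?_
    rw [← e2 i hi]
    exact h i f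
  refine hfin ?_
  have hsome : ∀ j : {j : ι // j ≠ κ}, (∀ (p : Y j.1 ⟶ X j.1) (q : X j.1 ⟶ Y j.1),
      σ (some j) (p ≫ q) = 0) → ∀ i f, τ i f = 0 := by
    intro j hj
    refine hP τ hτ j.1 fun p q => ?_
    rw [e2 j.1 j.2, oldTr_apply σ j.2]
    obtain ⟨b', hb'⟩ := mut_ext hM j.2 (W := Y j.1) (fun f => by
      obtain ⟨e⟩ := hM.iso
      have h1 := yd_zero' k hC hY (i := j.1) (j := κ) (m := 1) (Or.inl j.2)
        (e.hom ≫ f⟦(1 : ℤ)⟧')
      apply (shiftFunctor D (1 : ℤ)).map_injective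
      rw [← cancel_epi e.hom, h1, Functor.map_zero, comp_zero])
    obtain ⟨q', hq'⟩ := hb' q
    rw [← hq', ← Category.assoc]
    exact hj (p ≫ b') q'
  rcases o with _ | j
  · by_cases harr : ∀ j, j ≠ κ → ∀ f : X j ⟶ (X κ)⟦(1 : ℤ)⟧, f = 0
    · have hproj : ∀ j, ∀ f : X' κ ⟶ (X' j)⟦(1 : ℤ)⟧, f = 0 := by
        intro j
        by_cases hj : j = κ
        · subst hj
          exact hi'
        · exact (arrow_iff hC hX hM hi hj).2 (harr j hj)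
      refine hP τ hτ κ ((vanish_iff hπ hs κ _).2 ?_)
      exact proj_iso hX' hπ hs (proj_of_simples hX' hproj) _ (hτ.1 κ)
    · push Not at harr
      obtain ⟨j, hj, e, he⟩ := harr
      have h1 : σ none (π' none ≫ s' none) = 0 := ho _ _
      have h2 := (omega_iff hXn hπ' hs' (i := some ⟨j, hj⟩) (j := none) (by simp) e he hσ).2 h1
      exact hsome ⟨j, hj⟩ ((vanish_iff hπ' hs' (some ⟨j, hj⟩) _).2 h2)
  · exact hsome j ho

end

end EGr
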