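import Pool.Agent.Lib_MP_a23b08_n.N1
import Pool.Agent.Lib_MP_a23b08_n.N3
import Pool.Agent.Lib_MP_a23b08_n2.ExchFwd
import Pool.Agent.Lib_MP_a23b08_n2.BBwd
import Pool.Agent.Lib_MP_a23b08_t.T2Joint

/-!
# N5: assembly of part N

A good t-structure stays good along forward and backward tilts; together with `theoremT_joint` this gives
the final abstract theorem `theoremTN`: theorem T with `NonDeg` for all hearts of the component replaced by
`Good` for the initial one.
-/

set_option linter.unusedSectionVars false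
set_option linter.unusedVariables false

open CategoryTheory CategoryTheory.Limits CategoryTheory.Triangulated CategoryTheory.Pretriangulated

universe v u

namespace EGr

section
variable {D : Type u} [Category.{v} D] [Preadditive D] [HasZeroObject D] [HasShift D ℤ]
  [∀ n : ℤ, (shiftFunctor D n).Additive] [Pretriangulated D] [IsTriangulated D]

/-- A forward tilt at `S` is a forward tilt at every object isomorphic to `S`. -/
theorem IsFwdTilt.congr {t t' : TStructure D} {S S' : D} (h : IsFwdTilt t S t') (e : S ≅ S') :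
    IsFwdTilt t S' t' := by
  refine ⟨SimpleIn.of_iso e h.1, fun X => ?_⟩
  rw [h.2 X]
  have hP : (fun Y : D => Nonempty (Y ≅ S)) = fun Y => Nonempty (Y ≅ S') := by
    funext Y
    exact propext ⟨fun ⟨f⟩ => ⟨f ≪≫ e⟩, fun ⟨f⟩ => ⟨f ≪≫ e.symm⟩⟩
  rw [hP]
  constructor
  · rintro ⟨A, B, f, g, q, hT, hA, hB, h0⟩
    exact ⟨A, B, f, g, q, hT, hA, hB, fun φ => by
      rw [← cancel_mono e.inv, h0 (φ ≫ e.inv), zero_comp]⟩
  · rintro ⟨A, B, f, g, q, hT, hA, hB, h0⟩
    exact ⟨A, B, f, g, q, hT, hA, hB, fun φ => by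
      rw [← cancel_mono e.hom, h0 (φ ≫ e.hom), zero_comp]⟩

end

section
variable {k : Type} [Field k] {D : Type u} [Category.{v} D] [Preadditive D] [HasZeroObject D]
  [HasShift D ℤ] [∀ n : ℤ, (shiftFunctor D n).Additive] [Pretriangulated D] [Linear k D]

namespace N5

theorem tr_cast {ι : Type} {Y : ι → D} (τ : ∀ i, (Y i ⟶ Y i) →ₗ[k] k) {a i : ι} (h : a = i)
    (g : Y i ⟶ Y i) (h1 : Y a = Y i) (h2 : Y i = Y a) :
    τ a (eqToHom h1 ≫ g ≫ eqToHom h2) = τ i g := by
  subst h
  simp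

/-- `PD` for a reindexed family with isomorphic simple objects. -/
theorem PD.reindex {ι κ : Type} {X Y : ι → D} {X' : κ → D} (e : κ ≃ ι) (h : PD k X Y)
    (i : ∀ a, X' a ≅ X (e a)) : PD k X' (fun a => Y (e a)) := by
  intro τ hτ a ha
  -- the trace on `Y`
  let F : ∀ i0 : ι, (Y i0 ⟶ Y i0) →ₗ[k] (Y (e (e.symm i0)) ⟶ Y (e (e.symm i0))) := fun i0 =>
    { toFun := fun f => eqToHom (by simp) ≫ f ≫ eqToHom (by simp)
      map_add' := fun f g => by simp
      map_smul' := fun c f => by simp }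
  let τ0 : ∀ i0 : ι, (Y i0 ⟶ Y i0) →ₗ[k] k := fun i0 => (τ (e.symm i0)).comp (F i0)
  have hτ0 : ∀ i0 f, τ0 i0 f = τ (e.symm i0) (eqToHom (by simp) ≫ f ≫ eqToHom (by simp)) := fun _ _ => rfl
  have hcast : ∀ (b : κ) (f : Y (e b) ⟶ Y (e b)), τ0 (e b) f = τ b f := by
    intro b f
    rw [hτ0]
    exact tr_cast (Y := fun a => Y (e a)) τ (e.symm_apply_apply b) f _ _
  have htr : IsTr k Y τ0 := by
    refine ⟨fun i0 => ?_, fun i0 j0 f g => ?_⟩
    · rw [hτ0]
      have h1 := hτ.1 (e.symm i0)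
      simpa using h1
    · rw [hτ0, hτ0]
      have h1 := hτ.2 (e.symm i0) (e.symm j0) (eqToHom (by simp) ≫ f ≫ eqToHom (by simp))
        (eqToHom (by simp) ≫ g ≫ eqToHom (by simp))
      simpa using h1
  have h0 := h τ0 htr (e a) (fun p q => by
    rw [hcast]
    have h1 := ha (p ≫ (i a).inv) ((i a).hom ≫ q)
    simpa using h1)
  intro b f
  rw [← hcast]
  exact h0 (e b) f

theorem YD.reindex {ι κ : Type} {X Y : ι → D} {X' : κ → D} (e : κ ≃ ι) (h : YD k X Y)
    (i : ∀ a, X' a ≅ X (e a)) : YD k X' (fun a => Y (e a)) := by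
  constructor
  · intro a b m hm
    change hd k (Y (e a)) (X' b) m = 0
    rw [hd_congr_right (i b)]
    exact h.zero (e a) (e b) m (hm.imp_left fun hne he => hne (e.injective he))
  · intro a m hm
    change hd k (Y (e a)) (X' a) m = 1
    rw [hd_congr_right (i a)]
    exact h.one (e a) m hm

/-- A good t-structure with respect to a given list of its simple objects. -/
theorem Good.list {t : TStructure D} (h : Good k t) {κ : Type} {X : κ → D}
    (hs : ∀ i, SimpleIn t (X i)) (hinj : ∀ i j, Nonempty (X i ≅ X j) → i = j)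
    (hall : ∀ S : D, SimpleIn t S → ∃ i, Nonempty (S ≅ X i)) :
    ∃ Y : κ → D, (∀ i j : κ, ∃ l : κ, l ≠ i ∧ l ≠ j) ∧ YD k X Y ∧ PD k X Y := by
  obtain ⟨ι, _, X0, Y0, h3, hX0, hY0, hP0⟩ := h
  have h1 : ∀ a : κ, ∃ i : ι, Nonempty (X a ≅ X0 i) := fun a => hX0.all _ (hs a)
  choose e he using h1
  have hbij : Function.Bijective e := by
    constructor
    · intro a b hab
      obtain ⟨f⟩ := he a
      obtain ⟨g⟩ := he b
      rw [← hab] at g
      exact hinj a b ⟨f ≪≫ g.symm⟩
    · intro i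
      obtain ⟨a, ⟨f⟩⟩ := hall _ (hX0.simple i)
      obtain ⟨g⟩ := he a
      exact ⟨a, (hX0.inj _ _ ⟨f ≪≫ g⟩).symm⟩
  let E : κ ≃ ι := Equiv.ofBijective e hbij
  have hi : ∀ a, X a ≅ X0 (E a) := fun a => (he a).some
  refine ⟨fun a => Y0 (E a), fun i j => ?_, YD.reindex E hY0 hi, PD.reindex E hP0 hi⟩
  obtain ⟨l, hl1, hl2⟩ := h3 (E i) (E j)
  refine ⟨E.symm l, fun h => hl1 ?_, fun h => hl2 ?_⟩
  · rw [← h, E.apply_symm_apply]
  · rw [← h, E.apply_symm_apply]

/-- The third vertex condition for the new index type. -/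
theorem third {ι : Type} (h3 : ∀ i j : ι, ∃ l : ι, l ≠ i ∧ l ≠ j) (κ : ι)
    (i j : Option {j : ι // j ≠ κ}) : ∃ l : Option {j : ι // j ≠ κ}, l ≠ i ∧ l ≠ j := by
  classical
  let φ : Option {j : ι // j ≠ κ} → ι := fun o => o.elim κ fun j => j.1
  obtain ⟨l, hl1, hl2⟩ := h3 (φ i) (φ j)
  by_cases h : l = κ
  · refine ⟨none, ?_, ?_⟩
    · rintro rfl
      exact hl1 h
    · rintro rfl
      exact hl2 h
  · refine ⟨some ⟨l, h⟩, ?_, ?_⟩
    · rintro rfl
      exact hl1 rfl
    · rintro rfl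
      exact hl2 rfl

end N5

end

section
variable {k : Type} [Field k] {D : Type u} [Category.{v} D] [Preadditive D] [HasZeroObject D]
  [HasShift D ℤ] [∀ n : ℤ, (shiftFunctor D n).Additive] [Pretriangulated D] [IsTriangulated D]
  [Linear k D] {t t' : TStructure D} {T : D}

/-- `Good` is preserved by forward tilts. -/
theorem Good.fwd [IsAlgClosed k] (hN : NHyp k D) (ht : IsFiniteHeart t) (ht' : IsFiniteHeart t')
    (hT : IsFwdTilt t T t') (hnd : NonDeg t) (hG : Good k t) : Good k t' := by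
  obtain ⟨n, X, hX⟩ := exists_SList ht
  have hXM := hX.toSMList ht
  obtain ⟨i, X', ⟨e⟩, hX', hM, -⟩ := edge_mut k hN.fin ht ht' hT (hnd.1 _ hT.1) hX
  have hXM' := hX'.toSMList ht'
  obtain ⟨Y, h3, hY, hP⟩ := N5.Good.list hG hX.simple hX.inj hX.all
  have hT' : IsFwdTilt t (X i) t' := hT.congr e
  obtain ⟨V, E, a, b, δ, hE, hY'⟩ := exch_fwd hN hXM hXM' i hM hT' hnd hY
  have hP' := pd_fwd hN hXM hXM' i hM hnd hY hP hE hY'
  classical
  exact ⟨Option {j : Fin n // j ≠ i}, inferInstance, newX X' i, newY Y i V, N5.third h3 i,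
    N3.smlist_newX hXM' i, hY', hP'⟩

/-- `Good` is preserved by backward tilts. -/
theorem Good.bwd [IsAlgClosed k] (hN : NHyp k D) (ht : IsFiniteHeart t) (ht' : IsFiniteHeart t')
    (hT : IsFwdTilt t T t') (hnd : NonDeg t') (hG : Good k t') : Good k t := by
  obtain ⟨n, X, hX⟩ := exists_SList ht
  have hXM := hX.toSMList ht
  have hr : ∀ f : T ⟶ T⟦(1 : ℤ)⟧, f = 0 := by
    intro f
    have h4 := hnd.1 _ (fwdTilt_simple_shift ht ht'.bounded hT) (f⟦(1 : ℤ)⟧')
    exact (shiftFunctor D (1 : ℤ)).map_injective (by rw [h4, Functor.map_zero])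
  obtain ⟨i, X', ⟨e⟩, hX', hM, -⟩ := edge_mut k hN.fin ht ht' hT hr hX
  have hXM' := hX'.toSMList ht'
  obtain ⟨Y, h3, hY, hP⟩ := N5.Good.list hG hX'.simple hX'.inj hX'.all
  have hT' : IsFwdTilt t (X i) t' := hT.congr e
  obtain ⟨U, E, a, b, δ, hE, hY'⟩ := exch_bwd hN hXM hXM' i hM hT' hnd hY
  have hP' := pd_bwd hN hXM hXM' i hM hnd hY hP hE hY'
  classical
  exact ⟨Option {j : Fin n // j ≠ i}, inferInstance, newX X i, newY Y i U, N5.third h3 i,
    N3.smlist_newX hXM i, hY', hP'⟩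

/-- Every heart of the component of a good finite heart is good; in particular it has no loops and
no 2-cycles. (Unused in `theoremTN`, which needs the joint induction.) -/
theorem Good.edge_iff [IsAlgClosed k] (hN : NHyp k D) (h : Edge t t') : Good k t ↔ Good k t' := by
  obtain ⟨ht, ht', T, hT⟩ := h
  exact ⟨fun hG => hG.fwd hN ht ht' hT (hG.nonDeg hN), fun hG => hG.bwd hN ht ht' hT (hG.nonDeg hN)⟩

theorem Good.vertex [IsAlgClosed k] (hN : NHyp k D) {t₀ : TStructure D} (hG : Good k t₀)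
    (a : Vertex t₀) : Good k a.t := by
  have key : ∀ x y, Relation.EqvGen (Edge (D := D)) x y → (Good k x ↔ Good k y) := by
    intro x y h
    induction h with
    | rel x y h => exact Good.edge_iff hN h
    | refl x => exact Iff.rfl
    | symm x y h ih => exact ih.symm
    | trans x y z h1 h2 ih1 ih2 => exact ih1.trans ih2
  exact (key _ _ a.conn).1 hG

end

/-- THEOREM T+N. Let `D` be a Hom-finite triangulated category over an algebraically closed field `k`,
3-Calabi–Yau on the level of dimensions, `cls` an additive function, `t₀` a bounded t-structure with a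
finite heart whose simple objects are `S 0, …, S 5`, with classes the standard basis and with
`Ext¹`-quiver the quiver of `B0`. If `t₀` is good, then the exchange groupoid of `t₀` is not simply connected. -/
theorem theoremTN (k : Type) [Field k] [IsAlgClosed k] {D : Type u} [Category.{v} D]
    [Preadditive D] [HasZeroObject D] [HasShift D ℤ] [∀ n : ℤ, (shiftFunctor D n).Additive]
    [Pretriangulated D] [IsTriangulated D] [Linear k D] (hC : CY3 k D) {cls : D → Fin 6 → ℤ}
    (hcls : IsAdd cls) {t₀ : TStructure D} (h₀ : IsFiniteHeart t₀) {S : Fin 6 → D}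
    (hS : SList t₀ S) (hS1 : ∀ i j, cls (S i) j = if i = j then 1 else 0)
    (hext : ∀ i j, (Module.finrank k (S i ⟶ (S j)⟦(1 : ℤ)⟧) : ℤ) = max (MPa23.B0 i j) 0)
    (hG : Good k t₀) : ¬ SimplyConnected k t₀ :=
  theoremT k hC hcls h₀ hS hS1 hext fun a => (hG.vertex ⟨hC⟩ a).nonDeg ⟨hC⟩

end EGr
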