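import Pool.Agent.Lib_MP_a23b08_n.N1Core

set_option backward.defeqAttrib.useBackward true
set_option backward.isDefEq.respectTransparency false
set_option linter.unusedSectionVars false
set_option linter.unusedVariables false

open CategoryTheory CategoryTheory.Limits CategoryTheory.Triangulated CategoryTheory.Pretriangulated

universe v u

namespace EGr

namespace N1

variable (k : Type) [Field k] {D : Type u} [Category.{v} D] [Preadditive D] [HasZeroObject D]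
  [HasShift D ℤ] [∀ n : ℤ, (shiftFunctor D n).Additive] [Pretriangulated D] [IsTriangulated D]
  [Linear k D] {t : TStructure D} {I : Type} {X Y : I → D}

theorem yd_zero (hC : CY3 k D) (hY : YD k X Y) {i j : I} {m : ℤ} (h : i ≠ j ∨ (m ≠ 0 ∧ m ≠ 3))
    (f : Y i ⟶ (X j)⟦m⟧) : f = 0 := by
  have h1 : Module.finrank k (Y i ⟶ (X j)⟦m⟧) = 0 := hY.zero i j m h
  have := hC.fin (Y i) ((X j)⟦m⟧)
  have := Module.finrank_zero_iff.1 h1
  exact Subsingleton.elim _ _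

theorem yd_zero' (hC : CY3 k D) (hY : YD k X Y) {i j : I} {m : ℤ} (h : i ≠ j ∨ (m ≠ 0 ∧ m ≠ 3))
    (f : X j ⟶ (Y i)⟦m⟧) : f = 0 := by
  have h1 : Module.finrank k (X j ⟶ (Y i)⟦m⟧) = 0 := by
    rw [hC.cy (X j) (Y i) m]
    exact hY.zero i j (3 - m) (h.imp_right fun ⟨h4, h5⟩ => ⟨by omega, by omega⟩)
  have := hC.fin (X j) ((Y i)⟦m⟧)
  have := Module.finrank_zero_iff.1 h1
  exact Subsingleton.elim _ _

theorem yd_heart (hC : CY3 k D) (hX : SMList t X) (hY : YD k X Y) (i : I) : t.heart (Y i) := by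
  have hS := hX.isSMC
  have ht : t = hS.tstr := hX.eq_tstr
  rw [ht]
  constructor
  · rw [le_iff_orth]
    intro Z f hZ
    refine Filt.zero_hom ?_ hZ f
    rintro W ⟨j, m, hm, ⟨e⟩⟩ g
    rw [Set.mem_Iic] at hm
    rw [← cancel_mono e.hom, yd_zero k hC hY (i := i) (j := j) (m := m) (Or.inr ⟨by omega, by omega⟩) (g ≫ e.hom),
      zero_comp]
  · rw [ge_iff_orth]
    intro Z f hZ
    refine Filt.hom_zero ?_ hZ f
    rintro W ⟨j, m, hm, ⟨e⟩⟩ g
    rw [Set.mem_Ici] at hm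
    have h1 : e.inv ≫ g ≫ ((shiftFunctorZero D ℤ).app (Y i)).inv = 0 :=
      shift_hom_zero (a := 0) (b := m) (c := -m) (by ring)
        (fun g => yd_zero' k hC hY (i := i) (j := j) (m := -m) (Or.inr ⟨by omega, by omega⟩) g) _
    rw [← cancel_epi e.inv, ← cancel_mono ((shiftFunctorZero D ℤ).app (Y i)).inv]
    simpa using h1

theorem yd_proj (hC : CY3 k D) (hX : SMList t X) (hY : YD k X Y) (i : I) (Z : D) (hZ : t.heart Z)
    (f : Y i ⟶ Z⟦(1 : ℤ)⟧) : f = 0 := by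
  have hS := hX.isSMC
  have ht : t = hS.tstr := hX.eq_tstr
  rw [ht, hS.tstr_heart] at hZ
  have h1 : cl X {1} (Z⟦(1 : ℤ)⟧) := cl_shift_single (by norm_num) hZ
  refine Filt.zero_hom ?_ h1 f
  rintro W ⟨j, m, hm, ⟨e⟩⟩ g
  rw [Set.mem_singleton_iff] at hm
  rw [← cancel_mono e.hom, yd_zero k hC hY (i := i) (j := j) (m := m) (Or.inr ⟨by omega, by omega⟩) (g ≫ e.hom),
      zero_comp]

theorem exists_cov (hC : CY3 k D) (hX : SMList t X) (hY : YD k X Y) :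
    ∃ π : ∀ i, Y i ⟶ X i, Cov k t X Y π := by
  let e : ∀ j, (X j)⟦(0 : ℤ)⟧ ≅ X j := fun j => (shiftFunctorZero D ℤ).app (X j)
  have h1 : ∀ i, Module.finrank k (Y i ⟶ (X i)⟦(0 : ℤ)⟧) = 1 := fun i => hY.one i 0 (Or.inl rfl)
  have h2 : ∀ i, ∃ v : Y i ⟶ (X i)⟦(0 : ℤ)⟧, v ≠ 0 ∧ ∀ w, ∃ a : k, a • v = w := fun i =>
    finrank_eq_one_iff'.1 (h1 i)
  choose v hv hv' using h2
  refine ⟨fun i => v i ≫ (e i).hom, yd_heart k hC hX hY, fun i h => hv i ?_, fun i f => ?_, fun i j hij f => ?_,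
    fun i j f => heart_hom_shift_zero t (yd_heart k hC hX hY i) (hX.simple j).1 (by norm_num) f, yd_proj k hC hX hY⟩
  · rw [← cancel_mono (e i).hom, h, zero_comp]
  · obtain ⟨a, ha⟩ := hv' i (f ≫ (e i).inv)
    refine ⟨a, ?_⟩
    rw [← Linear.smul_comp, ha, Category.assoc, Iso.inv_hom_id, Category.comp_id]
  · rw [← cancel_mono (e j).inv, yd_zero k hC hY (i := i) (j := j) (m := 0) (Or.inl hij) (f ≫ (e j).inv), zero_comp]

/-- a trace vanishing at one vertex is zero -/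
theorem tr_zero (hP : PD k X Y) (σ : ∀ i, (Y i ⟶ Y i) →ₗ[k] k) (hσ : IsTr k Y σ) (l : I) (hl : σ l = 0) (i : I) :
    σ i = 0 := by
  ext f
  exact hP σ hσ l (fun p q => by rw [hl]; rfl) i f

/-- a good heart has no loops and no 2-cycles -/
theorem nonDeg_of' (hC : CY3 k D) (h3 : ∀ i j : I, ∃ l : I, l ≠ i ∧ l ≠ j) (hX : SMList t X) (hY : YD k X Y)
    (hP : PD k X Y) : NonDeg t := by
  obtain ⟨π, hπ⟩ := exists_cov k hC hX hY
  have hP' := tr_zero k hP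
  have hloop : ∀ (i : I) (f : X i ⟶ (X i)⟦(1 : ℤ)⟧), f = 0 := by
    intro i f
    obtain ⟨l, hl, -⟩ := h3 i i
    exact no_loop hX hπ hP' hl f
  have h2 : ∀ (i : I) (f : X i ⟶ (X i)⟦(1 : ℤ)⟧⟦(1 : ℤ)⟧), f = 0 := by
    intro i f
    have h4 : Module.finrank k (X i ⟶ (X i)⟦(2 : ℤ)⟧) = 0 := by
      have h5 : Module.finrank k (X i ⟶ (X i)⟦(3 - 2 : ℤ)⟧) = Module.finrank k (X i ⟶ (X i)⟦(1 : ℤ)⟧) :=
        congrArg (fun m : ℤ => Module.finrank k (X i ⟶ (X i)⟦m⟧)) (by norm_num)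
      rw [hC.cy (X i) (X i) 2, h5]
      have : Subsingleton (X i ⟶ (X i)⟦(1 : ℤ)⟧) := ⟨fun f g => by rw [hloop i f, hloop i g]⟩
      exact Module.finrank_zero_of_subsingleton
    have := hC.fin (X i) ((X i)⟦(2 : ℤ)⟧)
    have h6 := Module.finrank_zero_iff.1 h4
    let e : (X i)⟦(2 : ℤ)⟧ ≅ (X i)⟦(1 : ℤ)⟧⟦(1 : ℤ)⟧ := (shiftFunctorAdd' D 1 1 2 (by norm_num)).app (X i)
    rw [← cancel_mono e.inv]
    exact Subsingleton.elim _ _
  have hcyc : ∀ i j : I, (∀ f : X i ⟶ (X j)⟦(1 : ℤ)⟧, f = 0) ∨ ∀ f : X j ⟶ (X i)⟦(1 : ℤ)⟧, f = 0 := by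
    intro i j
    by_cases hij : i = j
    · subst hij; exact Or.inl (hloop i)
    · by_cases h4 : ∀ f : X i ⟶ (X j)⟦(1 : ℤ)⟧, f = 0
      · exact Or.inl h4
      · push Not at h4
        obtain ⟨α, hα⟩ := h4
        obtain ⟨l, hl, hl'⟩ := h3 i j
        exact Or.inr (fun β => no_two hX hπ hP' hij hl hl' (h2 i) (h2 j) α β hα)
  refine ⟨fun S hS f => ?_, fun S T hS hT => ?_⟩
  · obtain ⟨i, ⟨e⟩⟩ := hX.all S hS
    rw [← cancel_epi e.inv, ← cancel_mono (e.hom⟦(1 : ℤ)⟧')]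
    simpa using hloop i (e.inv ≫ f ≫ e.hom⟦(1 : ℤ)⟧')
  · obtain ⟨i, ⟨e⟩⟩ := hX.all S hS
    obtain ⟨j, ⟨e'⟩⟩ := hX.all T hT
    rcases hcyc i j with h4 | h4
    · left
      intro f
      rw [← cancel_epi e.inv, ← cancel_mono (e'.hom⟦(1 : ℤ)⟧')]
      simpa using h4 (e.inv ≫ f ≫ e'.hom⟦(1 : ℤ)⟧')
    · right
      intro f
      rw [← cancel_epi e'.inv, ← cancel_mono (e.hom⟦(1 : ℤ)⟧')]
      simpa using h4 (e'.inv ≫ f ≫ e.hom⟦(1 : ℤ)⟧')

end N1

/-- N1: a good finite heart has no loops and no 2-cycles -/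
theorem nonDeg_of {k : Type} [Field k] {D : Type u} [Category.{v} D] [Preadditive D] [HasZeroObject D]
    [HasShift D ℤ] [∀ n : ℤ, (shiftFunctor D n).Additive] [Pretriangulated D] [IsTriangulated D]
    [Linear k D] {t : TStructure D} {ι : Type} {X Y : ι → D} (hN : NHyp k D)
    (h3 : ∀ i j : ι, ∃ l : ι, l ≠ i ∧ l ≠ j) (hX : SMList t X)
    (hY : YD k X Y) (hP : PD k X Y) : NonDeg t :=
  N1.nonDeg_of' k hN.toCY3 h3 hX hY hP

/-- a good t-structure has no loops and no 2-cycles -/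
theorem Good.nonDeg {k : Type} [Field k] {D : Type u} [Category.{v} D] [Preadditive D] [HasZeroObject D]
    [HasShift D ℤ] [∀ n : ℤ, (shiftFunctor D n).Additive] [Pretriangulated D] [IsTriangulated D]
    [Linear k D] {t : TStructure D} (hN : NHyp k D) (h : Good k t) : NonDeg t := by
  obtain ⟨ι, _, X, Y, h3, hX, hY, hP⟩ := h
  exact nonDeg_of hN h3 hX hY hP

end EGr
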