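import Pool.Agent.Lib_MP_a23b08_n.NHeart

set_option backward.defeqAttrib.useBackward true
set_option backward.isDefEq.respectTransparency false
set_option linter.unusedSectionVars false
set_option linter.unusedVariables false

open CategoryTheory CategoryTheory.Limits CategoryTheory.Triangulated CategoryTheory.Pretriangulated

universe v u

namespace EGr

namespace N1

variable (k : Type) [Field k] {D : Type u} [Category.{v} D] [Preadditive D] [HasZeroObject D]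
  [HasShift D ℤ] [∀ n : ℤ, (shiftFunctor D n).Additive] [Pretriangulated D] [IsTriangulated D]
  [Linear k D] {t : TStructure D} {I : Type} {X Y : I → D}

/-- the two-dimensional functional: `U` has a sub `P ⟶ S ⟶ U` (`π`, `ι`) and a cover `p : P ⟶ U`. -/
theorem exists_functional {P S U : D} {π : P ⟶ S} {ι : S ⟶ U} {ρ : U ⟶ S} {p : P ⟶ U}
    (hπ : π ≠ 0) (hS : ∀ f : P ⟶ S, ∃ a : k, f = a • π) (hp : p ≫ ρ = π) (hιρ : ι ≫ ρ = 0)
    (hker : ∀ x : P ⟶ U, x ≫ ρ = 0 → ∃ y : P ⟶ S, x = y ≫ ι)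
    (hι : π ≫ ι ≠ 0) :
    ∃ τ : (P ⟶ P) →ₗ[k] k, τ (𝟙 P) = 0 ∧ (∀ f g, τ (f ≫ g) = τ (g ≫ f)) ∧
      ∀ (f : P ⟶ P) (a b : k), f ≫ p = a • p + b • (π ≫ ι) → τ f = b := by
  have hmem : π ≫ ι ∉ Submodule.span k {p} := by
    intro h
    obtain ⟨a, ha⟩ := Submodule.mem_span_singleton.1 h
    have h1 : a • π = 0 := by
      rw [← hp, ← Linear.smul_comp, ha, Category.assoc, hιρ, comp_zero]
    rcases smul_eq_zero.1 h1 with h2 | h2
    · exact hι (by rw [← ha, h2, zero_smul])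
    · exact hπ h2
  obtain ⟨β, hβ1, hβ2⟩ := Submodule.exists_dual_map_eq_bot_of_notMem hmem inferInstance
  have hβp : β p = 0 := by
    have h3 : β p ∈ (Submodule.span k {p}).map β :=
      Submodule.mem_map_of_mem (Submodule.mem_span_singleton_self p)
    rw [hβ2] at h3
    exact (Submodule.mem_bot k).1 h3
  let c : k := (β (π ≫ ι))⁻¹
  let τ : (P ⟶ P) →ₗ[k] k := c • (β ∘ₗ Linear.rightComp k P p)
  have hτ : ∀ f : P ⟶ P, τ f = c * β (f ≫ p) := fun f => rfl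
  have hval : ∀ (f : P ⟶ P) (a b : k), f ≫ p = a • p + b • (π ≫ ι) → τ f = b := by
    intro f a b h
    rw [hτ, h, map_add, map_smul, map_smul, hβp, smul_zero, zero_add, smul_eq_mul]
    change (β (π ≫ ι))⁻¹ * (b * β (π ≫ ι)) = b
    rw [mul_comm b, ← mul_assoc, inv_mul_cancel₀ hβ1, one_mul]
  have hdec : ∀ f : P ⟶ P, ∃ a b : k, f ≫ π = a • π ∧ f ≫ p = a • p + b • (π ≫ ι) := by
    intro f
    obtain ⟨a, ha⟩ := hS (f ≫ π)
    obtain ⟨y, hy⟩ := hker (f ≫ p - a • p) (by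
      rw [Preadditive.sub_comp, Category.assoc, Linear.smul_comp, hp, ha, sub_self])
    obtain ⟨b, hb⟩ := hS y
    refine ⟨a, b, ha, ?_⟩
    rw [← Linear.smul_comp, ← hb, ← hy]
    abel
  refine ⟨τ, hval (𝟙 P) 1 0 (by simp), fun f g => ?_, hval⟩
  obtain ⟨a, b, h1, h2⟩ := hdec f
  obtain ⟨a', b', h1', h2'⟩ := hdec g
  have key : ∀ (f g : P ⟶ P) (a b a' b' : k), f ≫ π = a • π → f ≫ p = a • p + b • (π ≫ ι) →
      g ≫ π = a' • π → g ≫ p = a' • p + b' • (π ≫ ι) →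
      (f ≫ g) ≫ p = (a' * a) • p + (a' * b + b' * a) • (π ≫ ι) := by
    intro f g a b a' b' h1 h2 h1' h2'
    rw [Category.assoc, h2', Preadditive.comp_add, Linear.comp_smul, Linear.comp_smul, h2,
      ← Category.assoc f π ι, h1, Linear.smul_comp]
    module
  rw [hval _ _ _ (key f g a b a' b' h1 h2 h1' h2'), hval _ _ _ (key g f a' b' a b h1' h2' h1 h2)]
  ring

/-- what is used from `YD` -/
structure Cov (t : TStructure D) (X Y : I → D) (π : ∀ i, Y i ⟶ X i) : Prop where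
  heart : ∀ i, t.heart (Y i)
  ne : ∀ i, π i ≠ 0
  span : ∀ (i : I) (f : Y i ⟶ X i), ∃ a : k, f = a • π i
  zero : ∀ (i j : I), i ≠ j → ∀ f : Y i ⟶ X j, f = 0
  neg : ∀ (i j : I) (f : (Y i)⟦(1 : ℤ)⟧ ⟶ X j), f = 0
  proj : ∀ (i : I) (Z : D), t.heart Z → ∀ f : Y i ⟶ Z⟦(1 : ℤ)⟧, f = 0

variable {k} {π : ∀ i, Y i ⟶ X i}

/-- maps from the cover of `X i` to the third term of an extension lift -/
theorem Cov.lift (h : Cov k t X Y π) (i : I) {A B C : D} {f : A ⟶ B} {g : B ⟶ C} {c : C ⟶ A⟦(1 : ℤ)⟧}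
    (hT : Triangle.mk f g c ∈ distTriang D) (hA : t.heart A) (v : Y i ⟶ C) : ∃ u : Y i ⟶ B, u ≫ g = v := by
  obtain ⟨u, hu⟩ := Triangle.coyoneda_exact₃ _ hT v (h.proj i A hA _)
  exact ⟨u, hu.symm⟩

/-- first map of an extension is injective on maps from `Y i` -/
theorem Cov.inj (hX : SMList t X) (h : Cov k t X Y π) (i : I) {A B C : D} {f : A ⟶ B} {g : B ⟶ C} {c : C ⟶ A⟦(1 : ℤ)⟧}
    (hT : Triangle.mk f g c ∈ distTriang D) (hC : t.heart C) (v : Y i ⟶ A) (hv : v ≫ f = 0) : v = 0 := by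
  obtain ⟨u, hu⟩ := Triangle.coyoneda_exact₁ _ hT (v⟦(1 : ℤ)⟧') (by
    change _ ≫ f⟦(1 : ℤ)⟧' = 0
    rw [← Functor.map_comp, hv, Functor.map_zero])
  have hu0 : u = 0 := heart_hom_shift_zero t (h.heart i) hC (by norm_num) u
  rw [hu0, zero_comp] at hu
  exact (shiftFunctor D (1 : ℤ)).map_injective (by rw [hu, Functor.map_zero])

/-- a nonzero map onto a simple object is tested by the simple objects -/
theorem epi_base (hX : SMList t X) (h : Cov k t X Y π) (i l : I) (g : X i ⟶ X l) (hg : π i ≫ g = 0) : g = 0 := by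
  rcases (hX.simple i).schur (hX.simple l) g with h1 | h1
  · exact h1
  · exact (h.ne i (by rw [← cancel_mono g, hg, zero_comp])).elim

/-- a cover of a non-split extension -/
theorem epi_step (hX : SMList t X) {P B C : D} {j : I} {ι : X j ⟶ B} {u : B ⟶ C} {c : C ⟶ (X j)⟦(1 : ℤ)⟧}
    (hT : Triangle.mk ι u c ∈ distTriang D) (hc : c ≠ 0) {s : P ⟶ C}
    (hs : ∀ (l : I) (g : C ⟶ X l), s ≫ g = 0 → g = 0) {p : P ⟶ B} (hp : p ≫ u = s)
    (l : I) (g : B ⟶ X l) (hg : p ≫ g = 0) : g = 0 := by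
  have h0 : ι ≫ g = 0 := by
    rcases (hX.simple j).schur (hX.simple l) (ι ≫ g) with h1 | h1
    · exact h1
    · exfalso
      apply hc
      have h2 : c ≫ ι⟦(1 : ℤ)⟧' = 0 := comp_distTriang_mor_zero₃₁ _ hT
      rw [← cancel_mono ((ι ≫ g)⟦(1 : ℤ)⟧'), zero_comp, Functor.map_comp, ← Category.assoc, h2, zero_comp]
  obtain ⟨g', hg'⟩ := Triangle.yoneda_exact₂ _ hT g h0
  have h1 : s ≫ g' = 0 := by
    rw [← hp, Category.assoc]
    rw [show u ≫ g' = g from hg'.symm, hg]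
  rw [hg', hs l g' h1]
  exact comp_zero

/-- The functional of an object `U` with `X i` as socle and as top, once in each place. -/
theorem exists_tau (hX : SMList t X) (h : Cov k t X Y π) {i : I} {U M : D} {ι : X i ⟶ U} {u : U ⟶ M}
    {c : M ⟶ (X i)⟦(1 : ℤ)⟧} (hT : Triangle.mk ι u c ∈ distTriang D) (hc : c ≠ 0) (hM : t.heart M)
    {ρ : M ⟶ X i} (hρ : ∀ x : Y i ⟶ M, x ≫ ρ = 0 → x = 0) {s : Y i ⟶ M} (hs : s ≫ ρ = π i)
    (hse : ∀ (l : I) (g : M ⟶ X l), s ≫ g = 0 → g = 0) {p : Y i ⟶ U} (hp : p ≫ u = s) :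
    ∃ τ : (Y i ⟶ Y i) →ₗ[k] k, τ (𝟙 _) = 0 ∧ (∀ f g, τ (f ≫ g) = τ (g ≫ f)) ∧
      (∀ (f : Y i ⟶ Y i) (b : k), f ≫ p = b • (π i ≫ ι) → τ f = b) ∧ ∃ f, τ f = 1 := by
  have hιu : ι ≫ u = 0 := comp_distTriang_mor_zero₁₂ _ hT
  obtain ⟨τ, h1, h2, h3⟩ := exists_functional k (π := π i) (ι := ι) (ρ := u ≫ ρ) (p := p) (h.ne i) (h.span i)
    (by rw [← Category.assoc, hp, hs]) (by rw [← Category.assoc, hιu, zero_comp])
    (fun x hx => by
      obtain ⟨y, hy⟩ := Triangle.coyoneda_exact₂ _ hT x (hρ _ (by rw [Category.assoc]; exact hx))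
      exact ⟨y, hy⟩)
    (fun h0 => h.ne i (h.inj hX i hT hM _ h0))
  refine ⟨τ, h1, h2, fun f b hf => h3 f 0 b (by rw [hf, zero_smul, zero_add]), ?_⟩
  have hU : t.heart U := heart_ext hT (hX.simple i).1 hM
  obtain ⟨f, hf⟩ := (epiH_of hX (h.heart i) hU p (epi_step hX hT hc hse hp)).lift (h.heart i) hU (h.proj i)
    (π i ≫ ι)
  exact ⟨f, h3 f 0 1 (by rw [hf, zero_smul, zero_add, one_smul])⟩

/-- no loops -/
theorem no_loop (hX : SMList t X) (h : Cov k t X Y π)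
    (hP : ∀ σ : ∀ i, (Y i ⟶ Y i) →ₗ[k] k, IsTr k Y σ → ∀ l, σ l = 0 → ∀ i, σ i = 0)
    {i l : I} (hil : l ≠ i) (ε : X i ⟶ (X i)⟦(1 : ℤ)⟧) : ε = 0 := by
  classical
  by_contra hε
  obtain ⟨U, ι, u, hT⟩ := distinguished_cocone_triangle₂ ε
  obtain ⟨p, hp⟩ := h.lift i hT (hX.simple i).1 (π i)
  obtain ⟨τ, h1, h2, h3, f, hf⟩ := exists_tau hX h hT hε (hX.simple i).1 (ρ := 𝟙 _) (s := π i)
    (fun x hx => by simpa using hx) (by simp) (epi_base hX h i) hp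
  let σ : ∀ j, (Y j ⟶ Y j) →ₗ[k] k := Function.update 0 i τ
  have hσi : σ i = τ := Function.update_self _ _ _
  have hσj : ∀ j, j ≠ i → σ j = 0 := fun j hj => Function.update_of_ne hj _ _
  have hσ : IsTr k Y σ := by
    refine ⟨fun j => ?_, fun a b f g => ?_⟩
    · by_cases hj : j = i
      · subst hj; rw [hσi]; exact h1
      · rw [hσj j hj]; rfl
    · -- maps through another vertex are killed
      have hkill : ∀ (b : I) (f : Y i ⟶ Y b) (g : Y b ⟶ Y i), b ≠ i → τ (f ≫ g) = 0 := by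
        intro b f g hb
        refine h3 _ 0 ?_
        have h4 : g ≫ p = 0 := by
          have h5 : (g ≫ p) ≫ u = 0 := h.zero b i hb _
          obtain ⟨y, hy⟩ := Triangle.coyoneda_exact₂ _ hT (g ≫ p) h5
          rw [hy, h.zero b i hb y]; exact zero_comp
        rw [Category.assoc, h4, comp_zero, zero_smul]
      by_cases ha : a = i
      · subst ha
        by_cases hb : b = a
        · subst hb; rw [hσi]; exact h2 _ _
        · rw [hσi, hσj b hb, hkill b _ _ hb]; rfl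
      · by_cases hb : b = i
        · subst hb; rw [hσi, hσj a ha, hkill a _ _ ha]; rfl
        · rw [hσj a ha, hσj b hb]; rfl
  have h5 := hP σ hσ l (hσj l hil) i
  rw [hσi] at h5
  rw [h5] at hf
  exact zero_ne_one hf


/-- The functional of the uniserial object `X i, X j, X i`. -/
theorem exists_tau₂ (hX : SMList t X) (h : Cov k t X Y π) {i j : I} (hij : i ≠ j)
    {α : X i ⟶ (X j)⟦(1 : ℤ)⟧} {β : X j ⟶ (X i)⟦(1 : ℤ)⟧} (hα : α ≠ 0) (hβ : β ≠ 0) (hαβ : α ≫ β⟦(1 : ℤ)⟧' = 0)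
    {M M' : D} {a : X j ⟶ M} {b : M ⟶ X i} (hM : Triangle.mk a b α ∈ distTriang D)
    {a' : X i ⟶ M'} {b' : M' ⟶ X j} (hM' : Triangle.mk a' b' β ∈ distTriang D)
    {s : Y i ⟶ M} (hs : s ≫ b = π i) {r : Y j ⟶ M'} (hr : r ≫ b' = π j) :
    ∃ τ : (Y i ⟶ Y i) →ₗ[k] k, τ (𝟙 _) = 0 ∧ (∀ f g, τ (f ≫ g) = τ (g ≫ f)) ∧
      (∀ l, l ≠ i → l ≠ j → ∀ (f : Y i ⟶ Y l) (g : Y l ⟶ Y i), τ (f ≫ g) = 0) ∧
      (∀ (f : Y i ⟶ Y j) (g : Y j ⟶ Y i) (x y : k), f ≫ r = x • (π i ≫ a') → g ≫ s = y • (π j ≫ a) →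
        τ (f ≫ g) = y * x) ∧ ∃ f, τ f = 1 := by
  have hMh : t.heart M := heart_ext hM (hX.simple j).1 (hX.simple i).1
  -- extend `β` to `M`
  obtain ⟨γ, hγ⟩ : ∃ γ : M ⟶ (X i)⟦(1 : ℤ)⟧, β = a ≫ γ := by
    obtain ⟨g, hg⟩ : ∃ g : M⟦(1 : ℤ)⟧ ⟶ (X i)⟦(1 : ℤ)⟧⟦(1 : ℤ)⟧, β⟦(1 : ℤ)⟧' = (-a⟦(1 : ℤ)⟧') ≫ g :=
      Triangle.yoneda_exact₃ _ (rot_of_distTriang _ hM) (β⟦(1 : ℤ)⟧') hαβ
    obtain ⟨g', rfl⟩ := (shiftFunctor D (1 : ℤ)).map_surjective g
    refine ⟨-g', (shiftFunctor D (1 : ℤ)).map_injective ?_⟩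
    rw [hg, Preadditive.neg_comp, Preadditive.comp_neg, Functor.map_neg, Functor.map_comp]
  have hγ0 : γ ≠ 0 := fun h0 => hβ (by rw [hγ, h0, comp_zero])
  obtain ⟨U, ι, u, hU⟩ := distinguished_cocone_triangle₂ γ
  obtain ⟨p, hp⟩ := h.lift i hU (hX.simple i).1 s
  have hρ : ∀ x : Y i ⟶ M, x ≫ b = 0 → x = 0 := by
    intro x hx
    obtain ⟨y, hy⟩ := Triangle.coyoneda_exact₂ _ hM x hx
    rw [hy, h.zero i j hij y]; exact zero_comp
  obtain ⟨τ, h1, h2, h3, h4⟩ := exists_tau hX h hU hγ0 hMh hρ hs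
    (epi_step hX hM hα (epi_base hX h i) hs) hp
  refine ⟨τ, h1, h2, fun l hl hl' f g => h3 _ 0 ?_, fun f g x y hx hy => h3 _ _ ?_, h4⟩
  · have h5 : (g ≫ p) ≫ u = 0 := by
      obtain ⟨z, hz⟩ := Triangle.coyoneda_exact₂ _ hM ((g ≫ p) ≫ u) (h.zero l i hl _)
      rw [hz, h.zero l j hl' z]; exact zero_comp
    obtain ⟨z, hz⟩ := Triangle.coyoneda_exact₂ _ hU (g ≫ p) h5
    have h6 : g ≫ p = 0 := by rw [hz, h.zero l i hl z]; exact zero_comp
    rw [Category.assoc, h6, comp_zero, zero_smul]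
  · -- the morphism of triangles `(X i, M', X j) ⟶ (X i, U, M)`
    obtain ⟨m, hm1, hm2⟩ : ∃ m : M' ⟶ U, a' ≫ m = ι ∧ m ≫ u = b' ≫ a := by
      obtain ⟨m, h5, h6⟩ := complete_distinguished_triangle_morphism₂ _ _ hM' hU (𝟙 (X i)) a (by
        change β ≫ (𝟙 (X i))⟦(1 : ℤ)⟧' = a ≫ γ
        rw [CategoryTheory.Functor.map_id, Category.comp_id, hγ])
      exact ⟨m, h5.trans (Category.id_comp _), h6.symm⟩
    have h5 : g ≫ p = y • (r ≫ m) := by
      have h6 : (g ≫ p - y • (r ≫ m)) ≫ u = 0 := by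
        rw [Preadditive.sub_comp, Category.assoc, hp, Linear.smul_comp, Category.assoc r, hm2,
          ← Category.assoc r, hr, hy, sub_self]
      obtain ⟨z, hz⟩ := Triangle.coyoneda_exact₂ _ hU _ h6
      rw [h.zero j i hij.symm z] at hz
      exact sub_eq_zero.1 (hz.trans zero_comp)
    rw [Category.assoc, h5, Linear.comp_smul, ← Category.assoc, hx, Linear.smul_comp, Category.assoc, hm1,
      smul_smul]


/-- no 2-cycles -/
theorem no_two (hX : SMList t X) (h : Cov k t X Y π)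
    (hP : ∀ σ : ∀ i, (Y i ⟶ Y i) →ₗ[k] k, IsTr k Y σ → ∀ l, σ l = 0 → ∀ i, σ i = 0)
    {i j l : I} (hij : i ≠ j) (hli : l ≠ i) (hlj : l ≠ j)
    (h2i : ∀ f : X i ⟶ (X i)⟦(1 : ℤ)⟧⟦(1 : ℤ)⟧, f = 0) (h2j : ∀ f : X j ⟶ (X j)⟦(1 : ℤ)⟧⟦(1 : ℤ)⟧, f = 0)
    (α : X i ⟶ (X j)⟦(1 : ℤ)⟧) (β : X j ⟶ (X i)⟦(1 : ℤ)⟧) (hα : α ≠ 0) : β = 0 := by
  classical
  by_contra hβ
  obtain ⟨M, a, b, hM⟩ := distinguished_cocone_triangle₂ α
  obtain ⟨M', a', b', hM'⟩ := distinguished_cocone_triangle₂ β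
  obtain ⟨s, hs⟩ := h.lift i hM (hX.simple j).1 (π i)
  obtain ⟨r, hr⟩ := h.lift j hM' (hX.simple i).1 (π j)
  obtain ⟨τ, h1, h2, h3, h4, f₀, hf₀⟩ := exists_tau₂ hX h hij hα hβ (h2i _) hM hM' hs hr
  obtain ⟨τ', h1', h2', h3', h4', -⟩ := exists_tau₂ hX h hij.symm hβ hα (h2j _) hM' hM hr hs
  let σ : ∀ m, (Y m ⟶ Y m) →ₗ[k] k := Function.update (Function.update 0 j τ') i τ
  have hσi : σ i = τ := Function.update_self _ _ _
  have hσj : σ j = τ' := by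
    dsimp only [σ]
    rw [Function.update_of_ne hij.symm, Function.update_self]
  have hσ0 : ∀ m, m ≠ i → m ≠ j → σ m = 0 := fun m hm hm' => by
    dsimp only [σ]
    rw [Function.update_of_ne hm, Function.update_of_ne hm']; rfl
  -- the exchange identity
  have hex : ∀ (f : Y i ⟶ Y j) (g : Y j ⟶ Y i), τ (f ≫ g) = τ' (g ≫ f) := by
    intro f g
    obtain ⟨x, hx⟩ : ∃ x : k, f ≫ r = x • (π i ≫ a') := by
      obtain ⟨y, hy⟩ := Triangle.coyoneda_exact₂ _ hM' (f ≫ r) (h.zero i j hij _)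
      obtain ⟨x, hx⟩ := h.span i y
      exact ⟨x, by rw [hy, hx]; exact Linear.smul_comp _ _ _ _ _ _⟩
    obtain ⟨y, hy⟩ : ∃ y : k, g ≫ s = y • (π j ≫ a) := by
      obtain ⟨z, hz⟩ := Triangle.coyoneda_exact₂ _ hM (g ≫ s) (h.zero j i hij.symm _)
      obtain ⟨y, hy⟩ := h.span j z
      exact ⟨y, by rw [hz, hy]; exact Linear.smul_comp _ _ _ _ _ _⟩
    rw [h4 f g x y hx hy, h4' g f y x hy hx, mul_comm]
  have hσ : IsTr k Y σ := by
    refine ⟨fun m => ?_, fun c d f g => ?_⟩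
    · by_cases hm : m = i
      · subst hm; rw [hσi]; exact h1
      · by_cases hm' : m = j
        · subst hm'; rw [hσj]; exact h1'
        · rw [hσ0 m hm hm']; rfl
    · by_cases hc : c = i
      · subst hc
        rw [hσi]
        by_cases hd : d = c
        · subst hd; rw [hσi]; exact h2 _ _
        · by_cases hd' : d = j
          · subst hd'; rw [hσj]; exact hex _ _
          · rw [hσ0 d hd hd', h3 d hd hd']; rfl
      · by_cases hc' : c = j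
        · subst hc'
          rw [hσj]
          by_cases hd : d = i
          · subst hd; rw [hσi]; exact (hex _ _).symm
          · by_cases hd' : d = c
            · subst hd'; rw [hσj]; exact h2' _ _
            · rw [hσ0 d hd hd', h3' d hd' hd]; rfl
        · rw [hσ0 c hc hc']
          by_cases hd : d = i
          · subst hd; rw [hσi, h3 c hc hc']; rfl
          · by_cases hd' : d = j
            · subst hd'; rw [hσj, h3' c hc' hc]; rfl
            · rw [hσ0 d hd hd']; rfl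
  have h5 := hP σ hσ l (hσ0 l hli hlj) i
  rw [hσi] at h5
  rw [h5] at hf₀
  exact zero_ne_one hf₀

end N1

end EGr
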