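import Pool.Agent.Lib_MP_a23b08_n.N2B2

/-!
# N2B: backward exchange
-/

set_option backward.defeqAttrib.useBackward true
set_option backward.isDefEq.respectTransparency false
set_option linter.unusedSectionVars false
set_option linter.unusedVariables false

open CategoryTheory CategoryTheory.Limits CategoryTheory.Triangulated CategoryTheory.Pretriangulated

universe v u

namespace EGr

namespace N2

variable {k : Type} [Field k] {D : Type u} [Category.{v} D] [Preadditive D] [HasZeroObject D]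
  [HasShift D ℤ] [∀ n : ℤ, (shiftFunctor D n).Additive] [Pretriangulated D] [IsTriangulated D]
  [Linear k D] {t t' : TStructure D} {ι : Type} {X X' Y : ι → D} {κ : ι}

variable (h : Bw k t t' X X' Y κ)
include h

/-- a nonzero map `X' κ ⟶ Y κ` -/
theorem Bw.exists_soc : ∃ σ : X' κ ⟶ Y κ, σ ≠ 0 ∧ ∀ g : X' κ ⟶ Y κ, ∃ c : k, c • σ = g := by
  have h1 : Module.finrank k (X' κ ⟶ Y κ) = 1 := by
    rw [← hd_zero_eq, show (0 : ℤ) = -1 + 1 by norm_num, ← h.kl, h.kyk, if_pos (Or.inl rfl)]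
  exact finrank_eq_one_iff'.1 h1

/-- the key lemma: `Hom(Y κ, U[1])` is spanned by `δ` -/
theorem Bw.key {U : D} {δ : Y κ ⟶ U⟦(1 : ℤ)⟧} (hδ : δ ≠ 0) (hU1 : ∀ l, hd k (X l) U 1 = 0)
    (hU0 : hd k (X κ) U 0 = 1) (u : Y κ ⟶ U⟦(1 : ℤ)⟧) : ∃ c : k, u = c • δ := by
  obtain ⟨σ, hσ, hσ'⟩ := h.exists_soc
  obtain ⟨M, q, r, hT⟩ := distinguished_cocone_triangle σ
  have hmono : MonoH t' σ := monoH_simple h.hX' (h.yheart κ) σ hσ
  have hM : t'.heart M := hmono.cone hT (h.hX'.simple κ).1 (h.yheart κ)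
  have hσq : σ ≫ q = 0 := comp_distTriang_mor_zero₁₂ _ hT
  have hM' : t.heart M := by
    refine h.up M hM fun g => ?_
    obtain ⟨g', hg'⟩ := Triangle.coyoneda_exact₃ _ hT g (h.rig _)
    obtain ⟨c, hc⟩ := hσ' g'
    rw [hg', ← hc]
    change (c • σ) ≫ q = 0
    rw [Linear.smul_comp, hσq, smul_zero]
  -- restriction to `X' κ` is injective
  have hinj : ∀ u : Y κ ⟶ U⟦(1 : ℤ)⟧, σ ≫ u = 0 → u = 0 := by
    intro u hu
    obtain ⟨w, hw⟩ := Triangle.yoneda_exact₂ _ hT u hu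
    rw [hw, h.mu (n := 1) hU1 hM' w]
    exact comp_zero
  have h1 : Module.finrank k (X' κ ⟶ U⟦(1 : ℤ)⟧) = 1 := by
    have h2 := h.kl U 0
    rw [hU0] at h2
    exact h2.symm
  have h3 : σ ≫ δ ≠ 0 := fun h0 => hδ (hinj δ h0)
  obtain ⟨c, hc⟩ := (finrank_eq_one_iff_of_nonzero' (σ ≫ δ) h3).1 h1 (σ ≫ u)
  refine ⟨c, sub_eq_zero.1 (hinj _ ?_)⟩
  rw [Preadditive.comp_sub, Linear.comp_smul, hc, sub_self]

theorem Bw.exch [Fintype ι] : ∃ (U E : D) (a : U ⟶ E) (b : E ⟶ Y κ) (δ : Y κ ⟶ U⟦(1 : ℤ)⟧),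
    Exch k Y κ U (Y κ) a b δ ∧ YD k (newX X κ) (newY Y κ U) := by
  obtain ⟨m, φ, b, hφ, hs, hd'⟩ := h.exists_b
  let E : D := ⨁ fun r => Y (φ r)
  let β : E ⟶ Y κ := biproduct.desc b
  obtain ⟨U, a, δ, hT⟩ := distinguished_cocone_triangle₁ β
  have hEh : t'.heart E := heart_biprod t' _ fun r => h.yheart (φ r)
  have hE : ∀ l, l ≠ κ → ∀ n, hd k (X l) E n = hd k (X l) (Y κ) n := fun l hl n => by
    rw [hd_biprod h.hC, hd' l hl]
  have hEκ : ∀ n, hd k (X κ) E n = 0 := fun n => by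
    rw [hd_biprod h.hC]
    exact Finset.sum_eq_zero fun r _ => h.ky (hφ r) n
  have hs' : ∀ l, l ≠ κ → ∀ u : X l ⟶ Y κ, ∃ u' : X l ⟶ E, u = u' ≫ β := fun l hl u => by
    obtain ⟨u', hu'⟩ := hs l hl u
    exact ⟨biproduct.lift u', by rw [hu', biproduct.lift_desc]⟩
  have hβδ : β ≫ δ = 0 := comp_distTriang_mor_zero₂₃ _ hT
  have hδa : δ ≫ a⟦(1 : ℤ)⟧' = 0 := comp_distTriang_mor_zero₃₁ _ hT
  have hκU : ∀ n : ℤ, hd k (X κ) U n = if n = 0 ∨ n = 3 then 1 else 0 := h.ku hT hEκ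
  -- `δ ≠ 0`
  have v3 : ∀ w' : Y κ ⟶ E, w' ≫ β ≠ 𝟙 (Y κ) := by
    intro w' hw'
    obtain ⟨σ, hσ, -⟩ := h.exists_soc
    apply hσ
    have h1 : σ ≫ w' = 0 := by
      refine zero_of_hd' h.hC ?_ _
      rw [show (0 : ℤ) = -1 + 1 by norm_num, ← h.kl]
      exact hEκ _
    rw [← Category.comp_id σ, ← hw', ← Category.assoc, h1, zero_comp]
  have hδ : δ ≠ 0 := by
    intro h0
    obtain ⟨w, hw⟩ := Triangle.coyoneda_exact₃ _ hT (𝟙 (Y κ)) (by
      change 𝟙 _ ≫ δ = 0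
      rw [h0, comp_zero])
    exact v3 w hw.symm
  have hU1 : ∀ l, hd k (X l) U 1 = 0 := by
    intro l
    by_cases hl : l = κ
    · subst hl; rw [hκU, if_neg (by norm_num)]
    · obtain ⟨c, hc⟩ := h.xu hT hl (hE l hl) (hs' l hl)
      rw [hc, if_neg (by norm_num)]
  have hYU : ∀ j, j ≠ κ → ∀ f : Y j ⟶ U⟦(1 : ℤ)⟧, f = 0 := fun j hj f => h.mu hU1 (h.yt hj) f
  have v1 : ∀ j, j ≠ κ → ∀ f : Y j ⟶ Y κ, ∃ f' : Y j ⟶ E, f' ≫ β = f := fun j hj f => by
    obtain ⟨f', hf'⟩ := Triangle.coyoneda_exact₃ _ hT f (hYU j hj _)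
    exact ⟨f', hf'.symm⟩
  -- vanishing of `Hom(X l, U[n])` for all `n`, `l ≠ κ`
  have hXU : ∀ l, l ≠ κ → ∀ n, hd k (X l) U n = 0 := by
    intro l hl
    obtain ⟨c, hc⟩ := h.xu hT hl (hE l hl) (hs' l hl)
    have h1 : hd k (U⟦(1 : ℤ)⟧) (X l) 0 = 0 := by
      refine hd_eq_zero' fun g => ?_
      have h2 : δ ≫ g = 0 := by
        refine h.kill hl _ fun j hj ψ => ?_
        obtain ⟨ψ', rfl⟩ := v1 j hj ψ
        rw [Category.assoc, ← Category.assoc β, hβδ, zero_comp, comp_zero]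
      obtain ⟨g', hg'⟩ := Triangle.yoneda_exact₃ _ (rot_of_distTriang _ hT) g h2
      have hg0 : g' = 0 := heart_hom_shift_zero t' hEh (h.xheart hl) (by norm_num) g'
      rw [hg', hg0]
      exact comp_zero
    have h3 : hd k (X l) U 4 = 0 := by
      rw [hd_cy h.hC, show (3 : ℤ) - 4 = -1 by norm_num, ← hd_shift_left h.hC U (X l) 1 0 (-1) (by norm_num)]
      exact h1
    have h4 : c = 0 := by
      rw [hc, if_pos (Or.inr rfl)] at h3
      exact h3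
    intro n
    rw [hc, h4, ite_self]
  have key := h.key hδ hU1 (by rw [hκU, if_pos (Or.inl rfl)])
  -- a map `U ⟶ W` whose shift is killed by `δ` factors through `a`
  have fac : ∀ {W : D} (w : U ⟶ W), δ ≫ w⟦(1 : ℤ)⟧' = 0 → ∃ w' : E ⟶ W, a ≫ w' = w := by
    intro W w hw
    obtain ⟨g, hg⟩ := Triangle.yoneda_exact₃ _ (rot_of_distTriang _ hT) (w⟦(1 : ℤ)⟧') hw
    obtain ⟨g', rfl⟩ := (shiftFunctor D (1 : ℤ)).map_surjective g
    refine ⟨-g', (shiftFunctor D (1 : ℤ)).map_injective ?_⟩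
    have hg2 : w⟦(1 : ℤ)⟧' = (-a⟦(1 : ℤ)⟧') ≫ g'⟦(1 : ℤ)⟧' := hg
    rw [hg2, Preadditive.neg_comp, Preadditive.comp_neg, Functor.map_neg, Functor.map_comp]
  refine ⟨U, E, a, β, δ, ⟨hT, ⟨m, φ, fun r => biproduct.ι (fun r => Y (φ r)) r,
    fun r => biproduct.π (fun r => Y (φ r)) r, hφ, biproduct.total⟩, fun j hj f => ?_, v1, fun w => ?_,
    fun w => ?_, fun w' hw' => ?_, v3⟩, ?_⟩
  · exact fac f (h.yproj κ _ (h.yheart j) _)
  · -- the top `U ⟶ X κ`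
    have h1 : Module.finrank k (U ⟶ X κ) = 1 := by
      rw [← hd_zero_eq, hd_cy h.hC, hκU, if_pos (by norm_num)]
    obtain ⟨π, hπ, hπ'⟩ := finrank_eq_one_iff'.1 h1
    have h2 : δ ≫ π⟦(1 : ℤ)⟧' ≠ 0 := by
      intro h0
      obtain ⟨w', hw'⟩ := fac π h0
      apply hπ
      rw [← hw', zero_of_hd' h.hC (by rw [hd_cy h.hC]; exact hEκ _) w', comp_zero]
    obtain ⟨c, hc⟩ := hπ' (w ≫ π)
    obtain ⟨c', hc'⟩ := key (δ ≫ (w - c • 𝟙 U)⟦(1 : ℤ)⟧')
    have h3 : (w - c • 𝟙 U) ≫ π = 0 := by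
      rw [Preadditive.sub_comp, Linear.smul_comp, Category.id_comp, hc, sub_self]
    have h4 : c' • (δ ≫ π⟦(1 : ℤ)⟧') = 0 := by
      rw [← Linear.smul_comp, ← hc', Category.assoc, ← Functor.map_comp, h3, Functor.map_zero, comp_zero]
    have h5 : c' = 0 := (smul_eq_zero.1 h4).resolve_right h2
    obtain ⟨w', hw'⟩ := fac (w - c • 𝟙 U) (by rw [hc', h5, zero_smul])
    exact ⟨c, w', by rw [hw']; abel⟩
  · obtain ⟨c, hc⟩ := key (w ≫ δ)
    obtain ⟨w', hw'⟩ := Triangle.coyoneda_exact₃ _ hT (w - c • 𝟙 (Y κ)) (by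
      change (w - c • 𝟙 (Y κ)) ≫ δ = 0
      rw [Preadditive.sub_comp, Linear.smul_comp, Category.id_comp, hc, sub_self])
    have hw2 : w - c • 𝟙 (Y κ) = w' ≫ β := hw'
    exact ⟨c, w', by rw [← hw2]; abel⟩
  · apply hδ
    rw [← Category.comp_id δ, ← CategoryTheory.Functor.map_id, ← hw', Functor.map_comp, ← Category.assoc, hδa,
      zero_comp]
  · constructor
    · rintro (_ | ⟨i, hi⟩) (_ | ⟨j, hj⟩) m hm
      · change hd k U (X κ) m = 0
        rcases hm with hm | hm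
        · exact (hm rfl).elim
        · rw [hd_cy h.hC, hκU, if_neg (by omega)]
      · change hd k U (X j) m = 0
        rw [hd_cy h.hC]
        exact hXU j hj _
      · change hd k (Y i) (X κ) m = 0
        rw [h.kr]
        exact h.y0 (Or.inl hi)
      · change hd k (Y i) (X j) m = 0
        rw [h.yx hi hj]
        exact h.y0 (hm.imp_left fun h0 h1 => h0 (by subst h1; rfl))
    · rintro (_ | ⟨i, hi⟩) m hm
      · change hd k U (X κ) m = 1
        rw [hd_cy h.hC, hκU, if_pos (by omega)]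
      · change hd k (Y i) (X i) m = 1
        rw [h.yx hi hi]
        exact h.y1 i hm

end N2

theorem isFiniteHeart_of_smlist_alt {D : Type u} [Category.{v} D] [Preadditive D] [HasZeroObject D]
    [HasShift D ℤ] [∀ n : ℤ, (shiftFunctor D n).Additive] [Pretriangulated D] [IsTriangulated D]
    {t : TStructure D} {ι : Type} [Fintype ι] {X : ι → D} (hX : SMList t X) : IsFiniteHeart t := by
  refine ⟨hX.bounded, hX.length, Fintype.card ι, fun r => X ((Fintype.equivFin ι).symm r), fun S hS => ?_⟩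
  obtain ⟨i, hi⟩ := hX.all S hS
  exact ⟨Fintype.equivFin ι i, by simpa using hi⟩

/-- N2, backward -/
theorem exch_bwd_alt {k : Type} [Field k] {D : Type u} [Category.{v} D] [Preadditive D] [HasZeroObject D]
    [HasShift D ℤ] [∀ n : ℤ, (shiftFunctor D n).Additive] [Pretriangulated D] [IsTriangulated D] [Linear k D]
    {t t' : TStructure D} {ι : Type} {X X' Y : ι → D} [Fintype ι] (hN : NHyp k D) (hX : SMList t X)
    (hX' : SMList t' X') (κ : ι)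
    (hM : MutData X X' κ) (hT : IsFwdTilt t (X κ) t') (hnd : NonDeg t') (hY : YD k X' Y) :
    ∃ (U E : D) (a : U ⟶ E) (b : E ⟶ Y κ) (δ : Y κ ⟶ U⟦(1 : ℤ)⟧), Exch k Y κ U (Y κ) a b δ ∧
      YD k (newX X κ) (newY Y κ U) := by
  refine N2.Bw.exch ⟨hN.toCY3, hX, hX', hM, hnd.1 _ (hX'.simple κ), hY, fun M hM' h0 => ?_⟩
  constructor
  · exact ((fwdTilt_le_iff hX'.bounded hT M).1 hM'.1).1
  · refine (fwdTilt_ge_iff (isFiniteHeart_of_smlist_alt hX) hX'.bounded hT M).2 ⟨hM'.2, fun f => ?_⟩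
    obtain ⟨e⟩ := hM.iso
    rw [← cancel_epi e.hom, h0 (e.hom ≫ f), comp_zero]

end EGr
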