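import Pool.Agent.Lib_MP_a23b08_n.N2Calc

/-!
# N2B1: backward exchange, dimensions and the minimal approximation `E ⟶ Y κ`
-/

set_option backward.defeqAttrib.useBackward true
set_option backward.isDefEq.respectTransparency false
set_option linter.unusedSectionVars false
set_option linter.unusedVariables false

open CategoryTheory CategoryTheory.Limits CategoryTheory.Triangulated CategoryTheory.Pretriangulated

universe v u

namespace EGr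

namespace N2

variable {k : Type} [Field k] {D : Type u} [Category.{v} D] [Preadditive D] [HasZeroObject D]
  [HasShift D ℤ] [∀ n : ℤ, (shiftFunctor D n).Additive] [Pretriangulated D] [IsTriangulated D]
  [Linear k D] {t t' : TStructure D} {ι : Type} {X X' Y : ι → D} {κ : ι}

/-- the data of the backward exchange -/
structure Bw (k : Type) [Field k] [Linear k D] (t t' : TStructure D) (X X' Y : ι → D) (κ : ι) : Prop where
  hC : CY3 k D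
  hX : SMList t X
  hX' : SMList t' X'
  hM : MutData X X' κ
  rig : ∀ f : X' κ ⟶ (X' κ)⟦(1 : ℤ)⟧, f = 0
  hY : YD k X' Y
  up : ∀ M : D, t'.heart M → (∀ f : X' κ ⟶ M, f = 0) → t.heart M

variable (h : Bw k t t' X X' Y κ)
include h

theorem Bw.y0 {i j : ι} {m : ℤ} (hm : i ≠ j ∨ (m ≠ 0 ∧ m ≠ 3)) : hd k (Y i) (X' j) m = 0 := h.hY.zero i j m hm

theorem Bw.y1 (i : ι) {m : ℤ} (hm : m = 0 ∨ m = 3) : hd k (Y i) (X' i) m = 1 := h.hY.one i m hm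

theorem Bw.kr (Z : D) (m : ℤ) : hd k Z (X κ) m = hd k Z (X' κ) (m - 1) := by
  obtain ⟨e⟩ := h.hM.iso
  rw [hd_congr_right e, hd_shift_right Z (X κ) 1 (m - 1) m (by ring)]

theorem Bw.kl (Z : D) (m : ℤ) : hd k (X κ) Z m = hd k (X' κ) Z (m + 1) := by
  obtain ⟨e⟩ := h.hM.iso
  rw [hd_congr_left e, hd_shift_left h.hC (X κ) Z 1 (m + 1) m (by ring)]

theorem Bw.yx {j l : ι} (hj : j ≠ κ) (hl : l ≠ κ) (m : ℤ) : hd k (Y j) (X l) m = hd k (Y j) (X' l) m := by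
  obtain ⟨E, a, b, c, hT, hE⟩ := h.hM.tri l hl
  have hE0 : ∀ m, hd k (Y j) E m = 0 := fun m => hd_filt_zero h.hC (by rw [h.kr]; exact h.y0 (Or.inl hj)) hE
  obtain ⟨a', b', c', h1, h2, h3, -⟩ := les h.hC hT (Y j)
  have h4 := h1 m; have h5 := h1 (m + 1); have h6 := h2 m; have h7 := h3 m
  rw [hE0] at h4 h5
  rw [show m + 1 - 1 = m by ring] at h5
  omega

theorem Bw.ykx {l : ι} (hl : l ≠ κ) :
    ∃ e : ℕ, ∀ m : ℤ, hd k (Y κ) (X l) m = if m = 0 ∨ m = 3 then e else 0 := by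
  obtain ⟨E, a, b, c, hT, hE⟩ := h.hM.tri l hl
  have hk : ∀ m : ℤ, hd k (Y κ) (X κ) m = if m = 1 ∨ m = 4 then 1 else 0 := by
    intro m
    rw [h.kr]
    split_ifs with hm
    · exact h.y1 κ (by omega)
    · exact h.y0 (Or.inr ⟨by omega, by omega⟩)
  obtain ⟨e, he⟩ := hd_filt' h.hC (Z := Y κ) (A := X κ) 1 (fun n h1 h4 => by rw [hk, if_neg (by omega)]) hE
  refine ⟨e, fun m => ?_⟩
  obtain ⟨a', b', c', h1, h2, h3, -⟩ := les h.hC hT (Y κ)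
  have h5 := h1 (m + 1); have h6 := h2 m; have h7 := h3 m; have h8 := h2 (m + 1)
  rw [h.y0 (Or.inl (Ne.symm hl))] at h6 h8
  rw [he, hk, show m + 1 - 1 = m by ring] at h5
  split_ifs at h5 ⊢ <;> omega

theorem Bw.xy0 {j l : ι} (hj : j ≠ κ) (hl : l ≠ κ) {m : ℤ} (hm : j ≠ l ∨ (m ≠ 0 ∧ m ≠ 3)) :
    hd k (X l) (Y j) m = 0 := by
  rw [hd_cy h.hC, h.yx hj hl]
  exact h.y0 (hm.imp_right fun ⟨h1, h2⟩ => ⟨by omega, by omega⟩)

theorem Bw.xy1 {l : ι} (hl : l ≠ κ) {m : ℤ} (hm : m = 0 ∨ m = 3) : hd k (X l) (Y l) m = 1 := by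
  rw [hd_cy h.hC, h.yx hl hl]
  exact h.y1 l (by omega)

theorem Bw.xyk {l : ι} (hl : l ≠ κ) :
    ∃ e : ℕ, ∀ m : ℤ, hd k (X l) (Y κ) m = if m = 0 ∨ m = 3 then e else 0 := by
  obtain ⟨e, he⟩ := h.ykx hl
  refine ⟨e, fun m => ?_⟩
  rw [hd_cy h.hC, he]
  split_ifs <;> omega

theorem Bw.ky {j : ι} (hj : j ≠ κ) (m : ℤ) : hd k (X κ) (Y j) m = 0 := by
  rw [hd_cy h.hC, h.kr]
  exact h.y0 (Or.inl hj)

theorem Bw.kyk (m : ℤ) : hd k (X κ) (Y κ) m = if m = -1 ∨ m = 2 then 1 else 0 := by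
  rw [hd_cy h.hC, h.kr]
  split_ifs with hm
  · exact h.y1 κ (by omega)
  · exact h.y0 (Or.inr ⟨by omega, by omega⟩)

theorem Bw.yheart (i : ι) : t'.heart (Y i) := N1.yd_heart k h.hC h.hX' h.hY i

theorem Bw.yinj (i : ι) (Z : D) (hZ : t'.heart Z) (f : Z ⟶ (Y i)⟦(1 : ℤ)⟧) : f = 0 := by
  refine Filt.hom_zero ?_ (h.hX'.heart_filt hZ) f
  rintro W ⟨j, ⟨e⟩⟩ g
  rw [← cancel_epi e.inv, N1.yd_zero' k h.hC h.hY (i := i) (j := j) (m := 1) (Or.inr ⟨by omega, by omega⟩)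
    (e.inv ≫ g), comp_zero]

theorem Bw.yproj (i : ι) (Z : D) (hZ : t'.heart Z) (f : Y i ⟶ Z⟦(1 : ℤ)⟧) : f = 0 :=
  N1.yd_proj k h.hC h.hX' h.hY i Z hZ f

theorem Bw.k'y {j : ι} (hj : j ≠ κ) (f : X' κ ⟶ Y j) : f = 0 := by
  refine zero_of_hd' h.hC ?_ f
  rw [show (0 : ℤ) = -1 + 1 by norm_num, ← h.kl]
  exact h.ky hj _

theorem Bw.yt {j : ι} (hj : j ≠ κ) : t.heart (Y j) := h.up _ (h.yheart j) (h.k'y hj)

/-- `X l` is in the heart of `t'` for `l ≠ κ` -/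
theorem Bw.xheart {l : ι} (hl : l ≠ κ) : t'.heart (X l) := by
  obtain ⟨E, a, b, c, hT, hE⟩ := h.hM.tri l hl
  obtain ⟨e⟩ := h.hM.iso
  refine heart_ext (rot_of_distTriang _ hT) (h.hX'.simple l).1 ?_
  have h1 : Filt (isoTo (X' κ)) (E⟦(1 : ℤ)⟧) := by
    refine Filt.mono ?_ (filt_isoTo_shift 1 hE)
    rintro Z ⟨e'⟩
    exact ⟨e' ≪≫ e.symm⟩
  constructor
  · refine filt_le t' 0 ?_ h1
    rintro Z ⟨e'⟩
    exact (heart_of_iso e'.symm (h.hX'.simple κ).1).1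
  · refine filt_ge t' 0 ?_ h1
    rintro Z ⟨e'⟩
    exact (heart_of_iso e'.symm (h.hX'.simple κ).1).2

/-- `Hom(X' κ, X l) = 0` -/
theorem Bw.k'x {l : ι} (hl : l ≠ κ) (f : X' κ ⟶ X l) : f = 0 := by
  obtain ⟨e⟩ := h.hM.iso
  rw [← cancel_epi e.inv, comp_zero]
  exact heart_hom_shift_zero t (h.hX.simple κ).1 (h.hX.simple l).1 (by norm_num) _

/-- `X' l ⟶ X l` has cokernel an iterated extension of copies of `X' κ` -/
theorem Bw.tri' {l : ι} (hl : l ≠ κ) : ∃ (F : D) (b : X' l ⟶ X l) (c : X l ⟶ F) (d : F ⟶ (X' l)⟦(1 : ℤ)⟧),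
    Triangle.mk b c d ∈ distTriang D ∧ Filt (isoTo (X' κ)) F := by
  obtain ⟨E, a, b, c, hT, hE⟩ := h.hM.tri l hl
  obtain ⟨e⟩ := h.hM.iso
  refine ⟨E⟦(1 : ℤ)⟧, b, c, _, rot_of_distTriang _ hT, ?_⟩
  refine Filt.mono ?_ (filt_isoTo_shift 1 hE)
  rintro Z ⟨e'⟩
  exact ⟨e' ≪≫ e.symm⟩

/-- a nonzero map `X l ⟶ Y l` is a monomorphism of the heart of `t'` -/
theorem Bw.mono {l : ι} (hl : l ≠ κ) (z : X l ⟶ Y l) (hz : z ≠ 0) : MonoH t' z := by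
  obtain ⟨F, b, c, d, hT, hF⟩ := h.tri' hl
  refine monoH_of h.hX' (h.xheart hl) (h.yheart l) z (fun j g hg => ?_)
  by_cases hj : j = κ
  · subst hj; exact h.k'x hl g
  -- `g ≫ c = 0`
  have h1 : g ≫ c = 0 := hom_filt_isoTo hF (fun f => h.hX'.hom_ne j κ hj f) _
  obtain ⟨g', hg'⟩ := Triangle.coyoneda_exact₂ _ hT g h1
  have hg'' : g = g' ≫ b := hg'
  rcases (h.hX'.simple j).schur (h.hX'.simple l) g' with h2 | h2
  · rw [hg'', h2, zero_comp]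
  · exfalso
    apply hz
    have h3 : b ≫ z = 0 := by
      rw [← cancel_epi g', ← Category.assoc, ← hg'', hg, comp_zero]
    obtain ⟨w, hw⟩ := Triangle.yoneda_exact₂ _ hT z h3
    rw [hw, filt_isoTo_hom hF (h.k'y hl) w]
    exact comp_zero

/-- the minimal approximation of `Y κ` by sums of `Y j`, `j ≠ κ` -/
theorem Bw.exists_b [Fintype ι] : ∃ (m : ℕ) (φ : Fin m → ι) (b : ∀ r, Y (φ r) ⟶ Y κ), (∀ r, φ r ≠ κ) ∧
    (∀ l, l ≠ κ → ∀ u : X l ⟶ Y κ, ∃ u' : ∀ r, X l ⟶ Y (φ r), u = ∑ r, u' r ≫ b r) ∧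
      ∀ l, l ≠ κ → ∀ n : ℤ, ∑ r, hd k (X l) (Y (φ r)) n = hd k (X l) (Y κ) n := by
  classical
  have hz : ∀ l : {l : ι // l ≠ κ}, ∃ z : X l.1 ⟶ Y l.1, z ≠ 0 := by
    rintro ⟨l, hl⟩
    by_contra h0
    push Not at h0
    have h1 := hd_eq_zero' (k := k) h0
    rw [h.xy1 hl (Or.inl rfl)] at h1
    exact one_ne_zero h1
  choose z hz using hz
  have hfin : ∀ l : {l : ι // l ≠ κ}, Module.Finite k (X l.1 ⟶ Y κ) := fun l => h.hC.fin _ _
  let v := fun l : {l : ι // l ≠ κ} => Module.finBasis k (X l.1 ⟶ Y κ)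
  have hext : ∀ (l : {l : ι // l ≠ κ}) (a : Fin (Module.finrank k (X l.1 ⟶ Y κ))),
      ∃ i : Y l.1 ⟶ Y κ, z l ≫ i = v l a := fun l a =>
    (h.mono l.2 (z l) (hz l)).ext (h.xheart l.2) (h.yheart l.1) (h.yinj κ) (v l a)
  choose i hi using hext
  let J := Σ l : {l : ι // l ≠ κ}, Fin (Module.finrank k (X l.1 ⟶ Y κ))
  let e : J ≃ Fin (Fintype.card J) := Fintype.equivFin J
  have key : ∀ (x : J) (r : Fin (Fintype.card J)), e.symm r = x →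
      ∃ u' : ∀ r, X x.1.1 ⟶ Y (e.symm r).1.1, v x.1 x.2 = ∑ r, u' r ≫ i (e.symm r).1 (e.symm r).2 := by
    rintro _ r rfl
    refine ⟨Pi.single r (z _), ?_⟩
    rw [Finset.sum_eq_single r]
    · rw [Pi.single_eq_same, hi]
    · intro r' _ hr'
      rw [Pi.single_eq_of_ne hr', zero_comp]
    · intro h0
      exact (h0 (Finset.mem_univ _)).elim
  refine ⟨Fintype.card J, fun r => (e.symm r).1.1, fun r => i (e.symm r).1 (e.symm r).2,
    fun r => (e.symm r).1.2, fun l hl u => ?_, fun l hl n => ?_⟩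
  · have h1 : ∀ a, ∃ u' : ∀ r, X l ⟶ Y (e.symm r).1.1, v ⟨l, hl⟩ a = ∑ r, u' r ≫ i (e.symm r).1 (e.symm r).2 :=
      fun a => key ⟨⟨l, hl⟩, a⟩ (e ⟨⟨l, hl⟩, a⟩) (e.symm_apply_apply _)
    choose w hw using h1
    refine ⟨fun r => ∑ a, (v ⟨l, hl⟩).repr u a • w a r, ?_⟩
    conv_lhs => rw [← (v ⟨l, hl⟩).sum_repr u]
    simp only [Preadditive.sum_comp, Linear.smul_comp]
    rw [Finset.sum_comm]
    refine Finset.sum_congr rfl fun a _ => ?_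
    rw [hw, Finset.smul_sum]
  · rw [Equiv.sum_comp e.symm (fun x : J => hd k (X l) (Y x.1.1) n), Fintype.sum_sigma,
      Finset.sum_eq_single (⟨l, hl⟩ : {l : ι // l ≠ κ})]
    · simp only [Finset.sum_const, Finset.card_univ, Fintype.card_fin, smul_eq_mul]
      obtain ⟨e', he'⟩ := h.xyk hl
      rw [← hd_zero_eq, he', he', if_pos (Or.inl rfl)]
      split_ifs with hn
      · rw [h.xy1 hl hn, mul_one]
      · rw [h.xy0 hl hl (Or.inr ⟨by omega, by omega⟩), mul_zero]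
    · rintro ⟨l', hl'⟩ - hne
      refine Finset.sum_eq_zero fun a _ => ?_
      exact h.xy0 hl' hl (Or.inl fun h1 => hne (Subtype.ext h1))
    · intro h0
      exact (h0 (Finset.mem_univ _)).elim

end N2

end EGr
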