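import Pool.Agent.Lib_MP_a23b08_n.N2B1

/-!
# N2B2: backward exchange, the exchange triangle `U ⟶ E ⟶ Y κ ⟶ U⟦1⟧`
-/

set_option backward.defeqAttrib.useBackward true
set_option backward.isDefEq.respectTransparency false
set_option linter.unusedSectionVars false
set_option linter.unusedVariables false

open CategoryTheory CategoryTheory.Limits CategoryTheory.Triangulated CategoryTheory.Pretriangulated

universe v u

namespace EGr

namespace N2

section
variable {D : Type u} [Category.{v} D] [Preadditive D] [HasZeroObject D]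
  [HasShift D ℤ] [∀ n : ℤ, (shiftFunctor D n).Additive] [Pretriangulated D] [IsTriangulated D]

/-- images in the heart -/
theorem heart_image (t : TStructure D) {P Q : D} (hP : t.heart P) (hQ : t.heart Q) (φ : P ⟶ Q) :
    ∃ (I : D) (e : P ⟶ I) (m : I ⟶ Q), t.heart I ∧ e ≫ m = φ ∧ EpiH t e ∧ MonoH t m := by
  obtain ⟨C, g, δ, hT⟩ := distinguished_cocone_triangle φ
  obtain ⟨K, Q', a, b, c, hK, hQ', hT'⟩ := cone_trunc t hT hP hQ
  obtain ⟨I, i, r, hI⟩ := distinguished_cocone_triangle₁ (g ≫ b)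
  let o := someOctahedron' rfl hT hT' hI
  have hK1 : t.le 0 (K⟦(1 : ℤ)⟧) := le_mono' t (by norm_num) ((le_of_shift t (n := 0) (n' := -1) (by ring)).2 hK.1)
  have hI1 : t.le 0 I := le₂ t 0 o.mem hP.1 hK1
  have hI2 : t.ge 0 I := ge₁ t 0 hI hQ.2 (ge_anti' t (by norm_num) hQ'.2)
  refine ⟨I, o.m₁, i, ⟨hI1, hI2⟩, o.comm₁, fun Z hZ f hf => ?_, monoH_of_cone hI hQ'⟩
  obtain ⟨w, hw⟩ := Triangle.yoneda_exact₂ _ o.mem f hf
  rw [hw, heart_shift_hom hK hZ w]
  exact comp_zero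

/-- finite biproducts of objects of the heart -/
theorem heart_biprod (t : TStructure D) {m : ℕ} (S : Fin m → D) (hS : ∀ r, t.heart (S r)) : t.heart (⨁ S) := by
  constructor
  · rw [le_iff_orth]
    intro Z f hZ
    refine biproduct.hom_ext' _ _ fun r => ?_
    rw [comp_zero]
    exact le_zero_of t (by norm_num) (hS r).1 hZ _
  · rw [ge_iff_orth]
    intro Z f hZ
    refine biproduct.hom_ext _ _ fun r => ?_
    rw [zero_comp]
    exact le_zero_of t (by norm_num) hZ (hS r).2 _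

end

variable {k : Type} [Field k] {D : Type u} [Category.{v} D] [Preadditive D] [HasZeroObject D]
  [HasShift D ℤ] [∀ n : ℤ, (shiftFunctor D n).Additive] [Pretriangulated D] [IsTriangulated D]
  [Linear k D] {t t' : TStructure D} {ι : Type} {X X' Y : ι → D} {κ : ι}

variable (h : Bw k t t' X X' Y κ)
include h

theorem Bw.exists_pi (j : ι) : ∃ π : Y j ⟶ X' j, π ≠ 0 := by
  by_contra h0
  push Not at h0
  have h1 := hd_eq_zero' (k := k) h0
  rw [h.y1 j (Or.inl rfl)] at h1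
  exact one_ne_zero h1

/-- an object of the heart of `t'` without maps from the `Y j`, `j ≠ κ`, is an iterated extension of copies of `X' κ` -/
theorem Bw.filt_of {M : D} (hM : t'.heart M) (h0 : ∀ j, j ≠ κ → ∀ f : Y j ⟶ M, f = 0) : Filt (isoTo (X' κ)) M := by
  have hF := h.hX'.heart_filt hM
  clear hM
  induction hF with
  | zero M hM => exact Filt.zero _ hM
  | ext A M B f g d hT hA hB ih =>
    obtain ⟨j, ⟨e⟩⟩ := hB
    have hAh : t'.heart A := by
      rw [h.hX'.eq_tstr, h.hX'.isSMC.heart_iff]; exact hA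
    have hBh : t'.heart B := heart_of_iso e.symm (h.hX'.simple j).1
    have hj : j = κ := by
      by_contra hj
      obtain ⟨π, hπ⟩ := h.exists_pi j
      obtain ⟨u, hu⟩ := Triangle.coyoneda_exact₃ _ hT (π ≫ e.inv) (h.yproj j A hAh _)
      apply hπ
      have hu' : π ≫ e.inv = u ≫ g := hu
      rw [← cancel_mono e.inv, hu', h0 j hj u, zero_comp, zero_comp]
    subst hj
    refine Filt.ext A M B f g d hT (ih fun l hl u => ?_) ⟨e⟩
    -- maps `Y l ⟶ A` vanish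
    obtain ⟨w, hw⟩ := Triangle.coyoneda_exact₁ _ hT (u⟦(1 : ℤ)⟧') (by
      change _ ≫ f⟦(1 : ℤ)⟧' = 0
      rw [← Functor.map_comp, h0 l hl (u ≫ f), Functor.map_zero])
    have hw0 : w = 0 := heart_hom_shift_zero t' (h.yheart l) hBh (by norm_num) w
    rw [hw0, zero_comp] at hw
    exact (shiftFunctor D (1 : ℤ)).map_injective (by rw [hw, Functor.map_zero])

/-- a map `Y κ ⟶ X l` killed by all maps `Y j ⟶ Y κ`, `j ≠ κ`, is zero -/
theorem Bw.kill {l : ι} (hl : l ≠ κ) (φ : Y κ ⟶ X l)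
    (h0 : ∀ j, j ≠ κ → ∀ ψ : Y j ⟶ Y κ, ψ ≫ φ = 0) : φ = 0 := by
  obtain ⟨I, e, m, hI, hem, he, hm⟩ := heart_image t' (h.yheart κ) (h.xheart hl) φ
  have h1 : Filt (isoTo (X' κ)) I := by
    refine h.filt_of hI fun j hj f => ?_
    obtain ⟨u, hu⟩ := he.lift (h.yheart κ) hI (h.yproj j) f
    refine hm _ (h.yheart j) f ?_
    rw [← hu, Category.assoc, hem, h0 j hj]
  rw [← hem, filt_isoTo_hom h1 (h.k'x hl) m, comp_zero]

/-- dimensions of `Hom(X l, U[n])` and `Hom(X κ, U[n])` -/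
theorem Bw.xu {E U : D} {a : U ⟶ E} {β : E ⟶ Y κ} {δ : Y κ ⟶ U⟦(1 : ℤ)⟧} (hT : Triangle.mk a β δ ∈ distTriang D)
    {l : ι} (hl : l ≠ κ) (hE : ∀ n, hd k (X l) E n = hd k (X l) (Y κ) n)
    (hs : ∀ u : X l ⟶ Y κ, ∃ u' : X l ⟶ E, u = u' ≫ β) :
    ∃ c : ℕ, ∀ n : ℤ, hd k (X l) U n = if n = 3 ∨ n = 4 then c else 0 := by
  obtain ⟨e, he⟩ := h.xyk hl
  obtain ⟨a', b', c', h1, h2, h3, h4⟩ := les h.hC hT (X l)
  have h5 : c' 0 = 0 := h4 fun u => by
    obtain ⟨u', rfl⟩ := hs u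
    have : β ≫ δ = 0 := comp_distTriang_mor_zero₂₃ _ hT
    rw [Category.assoc, this, comp_zero]
  have h6 : ∀ n, a' n = c' n := fun n => by have := h2 n; have := h3 n; have := hE n; omega
  have h7 : ∀ n : ℤ, n ≠ 3 → c' n = 0 := fun n hn => by
    by_cases hn0 : n = 0
    · rw [hn0, h5]
    · have h8 := h3 n
      rw [he, if_neg (by omega)] at h8
      omega
  refine ⟨c' 3, fun n => ?_⟩
  rw [h1, h6]
  split_ifs with hn
  · rcases hn with rfl | rfl
    · rw [h7 (3 - 1) (by norm_num), add_zero]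
    · rw [h7 4 (by norm_num), show (4 : ℤ) - 1 = 3 by norm_num, zero_add]
  · rw [h7 n (by omega), h7 (n - 1) (by omega)]

theorem Bw.ku {E U : D} {a : U ⟶ E} {β : E ⟶ Y κ} {δ : Y κ ⟶ U⟦(1 : ℤ)⟧} (hT : Triangle.mk a β δ ∈ distTriang D)
    (hE : ∀ n, hd k (X κ) E n = 0) (n : ℤ) : hd k (X κ) U n = if n = 0 ∨ n = 3 then 1 else 0 := by
  obtain ⟨a', b', c', h1, h2, h3, h4⟩ := les h.hC hT (X κ)
  have h5 := h1 n; have h6 := h2 n; have h7 := h2 (n - 1); have h8 := h3 (n - 1)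
  rw [hE] at h6 h7
  rw [h.kyk] at h8
  rw [h5]
  split_ifs at h8 ⊢ <;> omega

/-- `Hom(M, U[n]) = 0` for `M` in the heart of `t`, `n = 1, 2` -/
theorem Bw.mu {U : D} {n : ℤ} (hn : ∀ l, hd k (X l) U n = 0) {M : D} (hM : t.heart M) (f : M ⟶ U⟦n⟧) : f = 0 := by
  refine Filt.hom_zero ?_ (h.hX.heart_filt hM) f
  rintro W ⟨j, ⟨e⟩⟩ g
  rw [← cancel_epi e.inv, zero_of_hd h.hC.fin (hn j) (e.inv ≫ g), comp_zero]

end N2

end EGr
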