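import Pool.Agent.Lib_MP_a23b08_n.N1
import Pool.Agent.Lib_MP_a23b08_t.T2Back

/-!
# N2Calc: dimensions of Hom spaces along triangles

`les`: the ranks of the maps of the long exact sequence, so that vanishing and dimension questions become arithmetic.
-/

set_option backward.defeqAttrib.useBackward true
set_option backward.isDefEq.respectTransparency false
set_option linter.unusedSectionVars false
set_option linter.unusedVariables false

open CategoryTheory CategoryTheory.Limits CategoryTheory.Triangulated CategoryTheory.Pretriangulated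

universe v u

namespace EGr

namespace N2

variable {k : Type} [Field k] {D : Type u} [Category.{v} D] [Preadditive D] [HasZeroObject D]
  [HasShift D ℤ] [∀ n : ℤ, (shiftFunctor D n).Additive] [Pretriangulated D] [IsTriangulated D]
  [Linear k D]

theorem hd_cy (hC : CY3 k D) (X Y : D) (n : ℤ) : hd k X Y n = hd k Y X (3 - n) := hC.cy X Y n

theorem zero_of_hd' (hC : CY3 k D) {X Y : D} (h : hd k X Y 0 = 0) (f : X ⟶ Y) : f = 0 := by
  rw [← cancel_mono ((shiftFunctorZero D ℤ).app Y).inv, zero_comp]
  exact zero_of_hd hC.fin h _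

theorem hd_zero_eq (X Y : D) : hd k X Y 0 = Module.finrank k (X ⟶ Y) :=
  LinearEquiv.finrank_eq
    { toFun := fun u => u ≫ ((shiftFunctorZero D ℤ).app Y).hom
      invFun := fun u => u ≫ ((shiftFunctorZero D ℤ).app Y).inv
      map_add' := by intro a b; simp
      map_smul' := by intro a b; simp
      left_inv := by intro a; simp
      right_inv := by intro a; simp }

theorem hd_eq_zero' {X Y : D} (h : ∀ f : X ⟶ Y, f = 0) : hd k X Y 0 = 0 := by
  rw [hd_zero_eq]
  have : Subsingleton (X ⟶ Y) := ⟨fun a b => by rw [h a, h b]⟩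
  exact Module.finrank_zero_of_subsingleton

theorem hd_shift_left (hC : CY3 k D) (X Y : D) (a n m : ℤ) (h : m + a = n) :
    hd k (X⟦a⟧) Y n = hd k X Y m := by
  rw [hd_cy hC, hd_shift_right Y X a (3 - n) (3 - m) (by omega), ← hd_cy hC]

theorem hd_zero_obj {X Y : D} (hY : IsZero Y) (n : ℤ) : hd k X Y n = 0 :=
  hd_eq_zero fun f => ((shiftFunctor D n).map_isZero hY).eq_of_tgt _ _

section
variable {A B C : D} {f : A ⟶ B} {g : B ⟶ C} {h : C ⟶ A⟦(1 : ℤ)⟧}

/-- the ranks in the covariant long exact sequence -/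
theorem les (hC : CY3 k D) (hT : Triangle.mk f g h ∈ distTriang D) (X : D) :
    ∃ a b c : ℤ → ℕ, (∀ n, hd k X A n = a n + c (n - 1)) ∧ (∀ n, hd k X B n = a n + b n) ∧
      (∀ n, hd k X C n = b n + c n) ∧ ((∀ u : X ⟶ C, u ≫ h = 0) → c 0 = 0) := by
  have fA : ∀ n : ℤ, Module.Finite k (X ⟶ A⟦n⟧) := fun n => hC.fin _ _
  have fB : ∀ n : ℤ, Module.Finite k (X ⟶ B⟦n⟧) := fun n => hC.fin _ _
  have fC : ∀ n : ℤ, Module.Finite k (X ⟶ C⟦n⟧) := fun n => hC.fin _ _
  refine ⟨fun n => Module.finrank k (LinearMap.range (postMap (k := k) X f n)),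
    fun n => Module.finrank k (LinearMap.range (postMap (k := k) X g n)),
    fun n => Module.finrank k (LinearMap.range (bdMap (k := k) X h n)), fun n => ?_, fun n => ?_, fun n => ?_,
    fun h0 => ?_⟩
  · have e1 := LinearMap.finrank_range_add_finrank_ker (postMap (k := k) X f n)
    have hk := ker_post_f (k := k) hT X (n - 1)
    have e2 : ∀ m, m = n → Module.finrank k (LinearMap.ker (postMap (k := k) X f m)) =
        Module.finrank k (LinearMap.ker (postMap (k := k) X f n)) := by rintro m rfl; rfl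
    have e3 := e2 (n - 1 + 1) (by ring)
    rw [hk] at e3
    unfold hd
    beta_reduce
    omega
  · have e1 := LinearMap.finrank_range_add_finrank_ker (postMap (k := k) X g n)
    rw [ker_post_g hT X n] at e1
    unfold hd
    beta_reduce
    omega
  · have e1 := LinearMap.finrank_range_add_finrank_ker (bdMap (k := k) X h n)
    rw [ker_bd hT X n] at e1
    unfold hd
    beta_reduce
    omega
  · have : LinearMap.range (bdMap (k := k) X h 0) = ⊥ := by
      rw [LinearMap.range_eq_bot]
      ext u
      change u ≫ h⟦(0 : ℤ)⟧' ≫ (shiftFunctorAdd' D 1 0 (0 + 1) (by ring)).inv.app A = 0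
      have h1 : u ≫ h⟦(0 : ℤ)⟧' = 0 := by
        rw [← cancel_mono ((shiftFunctorZero D ℤ).hom.app (A⟦(1 : ℤ)⟧)), zero_comp, Category.assoc]
        have h2 := (shiftFunctorZero D ℤ).hom.naturality h
        rw [show h⟦(0 : ℤ)⟧' ≫ (shiftFunctorZero D ℤ).hom.app (A⟦(1 : ℤ)⟧) =
          (shiftFunctorZero D ℤ).hom.app C ≫ h from h2, ← Category.assoc]
        exact h0 _
      rw [← Category.assoc, h1, zero_comp]
    change Module.finrank k (LinearMap.range (bdMap (k := k) X h 0)) = 0
    rw [this, finrank_bot]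

/-- the ranks in the contravariant long exact sequence -/
theorem les' (hC : CY3 k D) (hT : Triangle.mk f g h ∈ distTriang D) (X : D) :
    ∃ a b c : ℤ → ℕ, (∀ n, hd k A X n = a n + c n) ∧ (∀ n, hd k B X n = a n + b n) ∧
      (∀ n, hd k C X n = b n + c (n - 1)) := by
  obtain ⟨a, b, c, h1, h2, h3, -⟩ := les hC hT X
  refine ⟨fun n => a (3 - n), fun n => b (3 - n), fun n => c (2 - n), fun n => ?_, fun n => ?_, fun n => ?_⟩
  · rw [hd_cy hC, h1]
    congr 2
    ring
  · rw [hd_cy hC, h2]
  · rw [hd_cy hC, h3]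
    congr 2
    ring

theorem hd_mid (hC : CY3 k D) (hT : Triangle.mk f g h ∈ distTriang D) {X : D} {n : ℤ}
    (h1 : hd k X A n = 0) (h2 : hd k X C n = 0) : hd k X B n = 0 := by
  obtain ⟨a, b, c, ha, hb, hc, -⟩ := les hC hT X
  have := ha n; have := hb n; have := hc n
  omega

end

/-- iterated extensions of `A`: no dimension is produced -/
theorem hd_filt_zero (hC : CY3 k D) {A Z : D} {n : ℤ} (hA : hd k Z A n = 0) {E : D} (hE : Filt (isoTo A) E) :
    hd k Z E n = 0 := by
  induction hE with
  | zero X hX => exact hd_zero_obj hX n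
  | ext E' E B f g h hT hE' hB ih =>
    obtain ⟨e⟩ := hB
    exact hd_mid hC hT ih ((hd_congr_right e n).trans hA)

/-- iterated extensions of `A`, when `Hom(Z, A[n])` is concentrated in two non-adjacent degrees -/
theorem hd_filt' (hC : CY3 k D) {A Z : D} (p : ℤ) (hA : ∀ n : ℤ, n ≠ p → n ≠ p + 3 → hd k Z A n = 0)
    {E : D} (hE : Filt (isoTo A) E) : ∃ l : ℕ, ∀ n : ℤ, hd k Z E n = l * hd k Z A n := by
  induction hE with
  | zero X hX => exact ⟨0, fun n => by rw [zero_mul]; exact hd_zero_obj hX n⟩
  | ext E' E B f g h hT hE' hB ih =>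
    obtain ⟨l, hl⟩ := ih
    obtain ⟨e⟩ := hB
    refine ⟨l + 1, fun n => ?_⟩
    have hB : ∀ m : ℤ, hd k Z B m = hd k Z A m := fun m => hd_congr_right e m
    obtain ⟨a, b, c, h1, h2, h3, -⟩ := les hC hT Z
    have hc : ∀ m, c m = 0 := by
      intro m
      by_contra hm
      have h4 := h3 m
      have h5 := h1 (m + 1)
      rw [show m + 1 - 1 = m by ring] at h5
      have h6 : hd k Z A m ≠ 0 := by rw [← hB]; omega
      have h7 : hd k Z A (m + 1) ≠ 0 := by
        intro h0
        rw [hl, h0, mul_zero] at h5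
        omega
      by_cases hp : m = p
      · exact h7 (hA _ (by omega) (by omega))
      · by_cases hp' : m = p + 3
        · exact h7 (hA _ (by omega) (by omega))
        · exact h6 (hA _ hp hp')
    have h4 := h1 n; have h5 := h2 n; have h6 := h3 n
    rw [hc] at h4 h6
    rw [hl] at h4
    rw [hB] at h6
    rw [h5, add_mul, one_mul]
    omega

/-- dimensions for finite biproducts -/
theorem hd_biprod (hC : CY3 k D) {m : ℕ} (S : Fin m → D) (X : D) (n : ℤ) :
    hd k X (⨁ S) n = ∑ j, hd k X (S j) n :=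
  hd_fan (k := k) (fun j => biproduct.π S j) (biproduct.isLimit S) hC.fin X n

end N2

end EGr
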