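import Pool.Agent.Lib_MP_a23b08_n.NDef

/-!
# N3: a trace on the `Y j`, `j ≠ κ`, and `U` is transferred to `V` along an exchange triangle, and back
-/

set_option backward.defeqAttrib.useBackward true
set_option backward.isDefEq.respectTransparency false
set_option linter.unusedSectionVars false
set_option linter.unusedVariables false

open CategoryTheory CategoryTheory.Limits CategoryTheory.Triangulated CategoryTheory.Pretriangulated

universe v u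

namespace EGr

namespace N3

variable {k : Type} [Field k] {D : Type u} [Category.{v} D] [Preadditive D] [HasZeroObject D]
  [HasShift D ℤ] [∀ n : ℤ, (shiftFunctor D n).Additive] [Pretriangulated D] [Linear k D]
  {ι : Type} {Y : ι → D}

/-- A functional which vanishes on the kernel of a surjection factors. -/
theorem exists_factor {A B : Type*} [AddCommGroup A] [Module k A] [AddCommGroup B] [Module k B]
    (Φ : A →ₗ[k] B) (hΦ : Function.Surjective Φ) (F : A →ₗ[k] k)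
    (hF : ∀ x, Φ x = 0 → F x = 0) : ∃ G : B →ₗ[k] k, ∀ x, G (Φ x) = F x := by
  obtain ⟨s, hs⟩ := LinearMap.exists_rightInverse_of_surjective Φ (LinearMap.range_eq_top.2 hΦ)
  refine ⟨F ∘ₗ s, fun x => ?_⟩
  have h1 : Φ (s (Φ x) - x) = 0 := by
    rw [map_sub]
    have := LinearMap.congr_fun hs (Φ x)
    simp only [LinearMap.comp_apply, LinearMap.id_apply] at this
    rw [this, sub_self]
  have h2 := hF _ h1
  rw [map_sub, sub_eq_zero] at h2
  exact h2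

section
variable (k) {m : ℕ} {φ : Fin m → ι} {E : D} (inj : ∀ r, Y (φ r) ⟶ E) (pr : ∀ r, E ⟶ Y (φ r))
  (τ₀ : ∀ i, (Y i ⟶ Y i) →ₗ[k] k)

/-- The trace on `End E`. -/
def trE : (E ⟶ E) →ₗ[k] k :=
  ∑ r, (τ₀ (φ r)) ∘ₗ (Linear.leftComp k (Y (φ r)) (inj r)) ∘ₗ (Linear.rightComp k E (pr r))

theorem trE_apply (x : E ⟶ E) :
    trE k inj pr τ₀ x = ∑ r, τ₀ (φ r) (inj r ≫ x ≫ pr r) := by
  simp [trE]

variable {k inj pr τ₀} {κ : ι} {U : D} {τ : (U ⟶ U) →ₗ[k] k}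

/-- The trace property between `E` and `U`. -/
theorem trE_comm_U (h : IsTrAt k Y κ U τ₀ τ) (hφ : ∀ r, φ r ≠ κ)
    (hs : ∑ r, pr r ≫ inj r = 𝟙 E) (f : E ⟶ U) (g : U ⟶ E) :
    trE k inj pr τ₀ (f ≫ g) = τ (g ≫ f) := by
  rw [trE_apply]
  have h1 : ∀ r, τ₀ (φ r) (inj r ≫ (f ≫ g) ≫ pr r) = τ (g ≫ (pr r ≫ inj r) ≫ f) := by
    intro r
    have := h.yu (φ r) (hφ r) (inj r ≫ f) (g ≫ pr r)
    simp only [Category.assoc] at this ⊢
    exact this
  rw [Finset.sum_congr rfl fun r _ => h1 r, ← map_sum, ← Preadditive.comp_sum,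
    ← Preadditive.sum_comp, hs, Category.id_comp]

/-- The trace property between `E` and `Y j`. -/
theorem trE_comm_Y (h : IsTrAt k Y κ U τ₀ τ) (hφ : ∀ r, φ r ≠ κ)
    (hs : ∑ r, pr r ≫ inj r = 𝟙 E) {j : ι} (hj : j ≠ κ) (f : E ⟶ Y j) (g : Y j ⟶ E) :
    trE k inj pr τ₀ (f ≫ g) = τ₀ j (g ≫ f) := by
  rw [trE_apply]
  have h1 : ∀ r, τ₀ (φ r) (inj r ≫ (f ≫ g) ≫ pr r) = τ₀ j (g ≫ (pr r ≫ inj r) ≫ f) := by
    intro r
    have := h.yy (φ r) j (hφ r) hj (inj r ≫ f) (g ≫ pr r)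
    simp only [Category.assoc] at this ⊢
    exact this
  rw [Finset.sum_congr rfl fun r _ => h1 r, ← map_sum, ← Preadditive.comp_sum,
    ← Preadditive.sum_comp, hs, Category.id_comp]

/-- The trace property on `End E`. -/
theorem trE_comm (h : IsTrAt k Y κ U τ₀ τ) (hφ : ∀ r, φ r ≠ κ)
    (hs : ∑ r, pr r ≫ inj r = 𝟙 E) (f g : E ⟶ E) :
    trE k inj pr τ₀ (f ≫ g) = trE k inj pr τ₀ (g ≫ f) := by
  have e1 : ∀ f g : E ⟶ E, trE k inj pr τ₀ (f ≫ g) =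
      ∑ r, ∑ s, τ₀ (φ r) ((inj r ≫ f ≫ pr s) ≫ (inj s ≫ g ≫ pr r)) := by
    intro f g
    rw [trE_apply]
    refine Finset.sum_congr rfl fun r _ => ?_
    rw [← map_sum]
    congr 1
    have : f ≫ g = f ≫ (∑ s, pr s ≫ inj s) ≫ g := by rw [hs, Category.id_comp]
    rw [this, Preadditive.sum_comp, Preadditive.comp_sum, Preadditive.sum_comp,
      Preadditive.comp_sum]
    refine Finset.sum_congr rfl fun s _ => ?_
    simp only [Category.assoc]
  rw [e1 f g, e1 g f, Finset.sum_comm]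
  refine Finset.sum_congr rfl fun r _ => Finset.sum_congr rfl fun s _ => ?_
  exact h.yy _ _ (hφ s) (hφ r) _ _

end

/-- Transfer of a trace from `U` to `V`. -/
theorem extend_V {κ : ι} {U V E : D} {a : U ⟶ E} {b : E ⟶ V} {δ : V ⟶ U⟦(1 : ℤ)⟧}
    (hE : Exch k Y κ U V a b δ) {τ₀ : ∀ i, (Y i ⟶ Y i) →ₗ[k] k} {τ : (U ⟶ U) →ₗ[k] k}
    (h : IsTrAt k Y κ U τ₀ τ) : ∃ τ' : (V ⟶ V) →ₗ[k] k, IsTrAt k Y κ V τ₀ τ' := by
  obtain ⟨m, φ, inj, pr, hφ, hs⟩ := hE.sum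
  let T := trE k inj pr τ₀
  let Φ : (k × (V ⟶ E)) →ₗ[k] (V ⟶ V) :=
    LinearMap.coprod (LinearMap.toSpanSingleton k _ (𝟙 V)) (Linear.rightComp k V b)
  have hΦ : ∀ x, Φ x = x.1 • 𝟙 V + x.2 ≫ b := fun x => by simp [Φ]
  let F : (k × (V ⟶ E)) →ₗ[k] k := T ∘ₗ (Linear.leftComp k E b) ∘ₗ (LinearMap.snd k k (V ⟶ E))
  have hF : ∀ x, F x = T (b ≫ x.2) := fun x => by simp [F]
  have hab : a ≫ b = 0 := comp_distTriang_mor_zero₁₂ _ hE.dist
  obtain ⟨τ', hτ'⟩ := exists_factor Φ (fun w => by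
    obtain ⟨c, w', hw⟩ := hE.v2 w
    exact ⟨(c, w'), by rw [hΦ, hw]⟩) F (by
    rintro ⟨c, w⟩ hx
    rw [hΦ] at hx
    simp only at hx
    have hc : c = 0 := by
      by_contra hc
      apply hE.v3 (-(c⁻¹ • w))
      have h1 : w ≫ b = - (c • 𝟙 V) := by rw [eq_neg_iff_add_eq_zero, add_comm]; exact hx
      rw [Preadditive.neg_comp, Linear.smul_comp, h1, smul_neg, smul_smul, inv_mul_cancel₀ hc,
        one_smul, neg_neg]
    rw [hc, zero_smul, zero_add] at hx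
    obtain ⟨v, hv⟩ : ∃ v : V ⟶ U, w = v ≫ a := Triangle.coyoneda_exact₂ _ hE.dist w hx
    rw [hF]
    simp only
    rw [hv]
    have h2 := trE_comm_U h hφ hs (b ≫ v) a
    rw [Category.assoc] at h2
    change trE k inj pr τ₀ (b ≫ v ≫ a) = 0
    rw [h2, ← Category.assoc, hab, zero_comp, map_zero])
  have key : ∀ (c : k) (w : V ⟶ E), τ' (c • 𝟙 V + w ≫ b) = T (b ≫ w) := by
    intro c w
    have := hτ' (c, w)
    rwa [hΦ, hF] at this
  have key0 : ∀ w : V ⟶ E, τ' (w ≫ b) = T (b ≫ w) := by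
    intro w
    have := key 0 w
    rwa [zero_smul, zero_add] at this
  refine ⟨τ', h.one₀, ?_, h.yy, ?_, ?_⟩
  · have := key 1 0
    rw [one_smul, zero_comp, add_zero, comp_zero, map_zero] at this
    exact this
  · intro i hi f g
    obtain ⟨f', hf'⟩ := hE.v1 i hi f
    have h1 : g ≫ f = (g ≫ f') ≫ b := by rw [Category.assoc, hf']
    rw [h1, key0]
    have h2 := trE_comm_Y h hφ hs hi (b ≫ g) f'
    rw [Category.assoc] at h2
    change _ = trE k inj pr τ₀ (b ≫ g ≫ f')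
    rw [h2, ← Category.assoc, hf']
  · intro f g
    obtain ⟨c, f', hf⟩ := hE.v2 f
    obtain ⟨d, g', hg⟩ := hE.v2 g
    have h1 : τ' ((f' ≫ b) ≫ g) = τ' (g ≫ (f' ≫ b)) := by
      have e1 : (f' ≫ b) ≫ g = (d • f' + (f' ≫ b) ≫ g') ≫ b := by
        rw [hg]
        simp only [Preadditive.comp_add, Linear.comp_smul, Category.comp_id, Preadditive.add_comp,
          Linear.smul_comp, Category.assoc]
      have e2 : g ≫ (f' ≫ b) = (g ≫ f') ≫ b := by rw [Category.assoc]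
      rw [e1, e2, key0, key0]
      have e3 : b ≫ (d • f' + (f' ≫ b) ≫ g') = d • (b ≫ f') + (b ≫ f') ≫ (b ≫ g') := by
        simp only [Preadditive.comp_add, Linear.comp_smul, Category.assoc]
      have e4 : b ≫ g ≫ f' = d • (b ≫ f') + (b ≫ g') ≫ (b ≫ f') := by
        rw [hg]
        simp only [Preadditive.comp_add, Linear.comp_smul, Category.id_comp, Preadditive.add_comp,
          Linear.smul_comp, Category.assoc]
      rw [e3, e4, map_add, map_add]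
      congr 1
      exact trE_comm h hφ hs _ _
    rw [hf, Preadditive.add_comp, Preadditive.comp_add, map_add, map_add, h1]
    congr 1
    simp

/-- Transfer of a trace from `V` to `U`. -/
theorem extend_U {κ : ι} {U V E : D} {a : U ⟶ E} {b : E ⟶ V} {δ : V ⟶ U⟦(1 : ℤ)⟧}
    (hE : Exch k Y κ U V a b δ) {τ₀ : ∀ i, (Y i ⟶ Y i) →ₗ[k] k} {τ : (V ⟶ V) →ₗ[k] k}
    (h : IsTrAt k Y κ V τ₀ τ) : ∃ τ' : (U ⟶ U) →ₗ[k] k, IsTrAt k Y κ U τ₀ τ' := by
  obtain ⟨m, φ, inj, pr, hφ, hs⟩ := hE.sum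
  let T := trE k inj pr τ₀
  let Φ : (k × (E ⟶ U)) →ₗ[k] (U ⟶ U) :=
    LinearMap.coprod (LinearMap.toSpanSingleton k _ (𝟙 U)) (Linear.leftComp k U a)
  have hΦ : ∀ x, Φ x = x.1 • 𝟙 U + a ≫ x.2 := fun x => by simp [Φ]
  let F : (k × (E ⟶ U)) →ₗ[k] k := T ∘ₗ (Linear.rightComp k E a) ∘ₗ (LinearMap.snd k k (E ⟶ U))
  have hF : ∀ x, F x = T (x.2 ≫ a) := fun x => by simp [F]
  have hab : a ≫ b = 0 := comp_distTriang_mor_zero₁₂ _ hE.dist
  obtain ⟨τ', hτ'⟩ := exists_factor Φ (fun w => by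
    obtain ⟨c, w', hw⟩ := hE.u2 w
    exact ⟨(c, w'), by rw [hΦ, hw]⟩) F (by
    rintro ⟨c, w⟩ hx
    rw [hΦ] at hx
    simp only at hx
    have hc : c = 0 := by
      by_contra hc
      apply hE.u3 (-(c⁻¹ • w))
      have h1 : a ≫ w = - (c • 𝟙 U) := by rw [eq_neg_iff_add_eq_zero, add_comm]; exact hx
      rw [Preadditive.comp_neg, Linear.comp_smul, h1, smul_neg, smul_smul, inv_mul_cancel₀ hc,
        one_smul, neg_neg]
    rw [hc, zero_smul, zero_add] at hx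
    obtain ⟨v, hv⟩ : ∃ v : V ⟶ U, w = b ≫ v := Triangle.yoneda_exact₂ _ hE.dist w hx
    rw [hF]
    simp only
    rw [hv, Category.assoc]
    have h2 := trE_comm_U h hφ hs b (v ≫ a)
    change trE k inj pr τ₀ (b ≫ v ≫ a) = 0
    rw [h2, Category.assoc, hab, comp_zero, map_zero])
  have key : ∀ (c : k) (w : E ⟶ U), τ' (c • 𝟙 U + a ≫ w) = T (w ≫ a) := by
    intro c w
    have := hτ' (c, w)
    rwa [hΦ, hF] at this
  have key0 : ∀ w : E ⟶ U, τ' (a ≫ w) = T (w ≫ a) := by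
    intro w
    have := key 0 w
    rwa [zero_smul, zero_add] at this
  refine ⟨τ', h.one₀, ?_, h.yy, ?_, ?_⟩
  · have := key 1 0
    rw [one_smul, comp_zero, add_zero, zero_comp, map_zero] at this
    exact this
  · intro i hi f g
    obtain ⟨g', hg'⟩ := hE.u1 i hi g
    have h1 : g ≫ f = a ≫ (g' ≫ f) := by rw [← Category.assoc, hg']
    rw [h1, key0]
    have h2 := trE_comm_Y h hφ hs hi g' (f ≫ a)
    rw [Category.assoc]
    change _ = trE k inj pr τ₀ (g' ≫ f ≫ a)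
    rw [h2, Category.assoc, hg']
  · intro f g
    obtain ⟨c, f', hf⟩ := hE.u2 f
    obtain ⟨d, g', hg⟩ := hE.u2 g
    have h1 : τ' ((a ≫ f') ≫ g) = τ' (g ≫ (a ≫ f')) := by
      have e1 : g ≫ (a ≫ f') = a ≫ (d • f' + g' ≫ a ≫ f') := by
        rw [hg]
        simp only [Preadditive.comp_add, Linear.comp_smul, Category.id_comp, Preadditive.add_comp,
          Linear.smul_comp, Category.assoc]
      have e2 : (a ≫ f') ≫ g = a ≫ (f' ≫ g) := by rw [Category.assoc]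
      rw [e1, e2, key0, key0]
      have e3 : (d • f' + g' ≫ a ≫ f') ≫ a = d • (f' ≫ a) + (g' ≫ a) ≫ (f' ≫ a) := by
        simp only [Preadditive.add_comp, Linear.smul_comp, Category.assoc]
      have e4 : (f' ≫ g) ≫ a = d • (f' ≫ a) + (f' ≫ a) ≫ (g' ≫ a) := by
        rw [hg]
        simp only [Preadditive.comp_add, Linear.comp_smul, Category.comp_id, Preadditive.add_comp,
          Linear.smul_comp, Category.assoc]
      rw [e3, e4, map_add, map_add]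
      congr 1
      exact trE_comm h hφ hs _ _
    rw [hf, Preadditive.add_comp, Preadditive.comp_add, map_add, map_add, h1]
    congr 1
    simp

/-- Uniqueness. -/
theorem uniq_V {κ : ι} {U V E : D} {a : U ⟶ E} {b : E ⟶ V} {δ : V ⟶ U⟦(1 : ℤ)⟧}
    (hE : Exch k Y κ U V a b δ) {τ₀ : ∀ i, (Y i ⟶ Y i) →ₗ[k] k} {τ : (V ⟶ V) →ₗ[k] k}
    (h : IsTrAt k Y κ V τ₀ τ) (h0 : ∀ i, i ≠ κ → ∀ f, τ₀ i f = 0) (w : V ⟶ V) : τ w = 0 := by
  obtain ⟨m, φ, inj, pr, hφ, hs⟩ := hE.sum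
  obtain ⟨c, w', hw⟩ := hE.v2 w
  rw [hw, map_add, map_smul, h.one, smul_zero, zero_add, ← trE_comm_U h hφ hs b w', trE_apply]
  exact Finset.sum_eq_zero fun r _ => h0 _ (hφ r) _

theorem uniq_U {κ : ι} {U V E : D} {a : U ⟶ E} {b : E ⟶ V} {δ : V ⟶ U⟦(1 : ℤ)⟧}
    (hE : Exch k Y κ U V a b δ) {τ₀ : ∀ i, (Y i ⟶ Y i) →ₗ[k] k} {τ : (U ⟶ U) →ₗ[k] k}
    (h : IsTrAt k Y κ U τ₀ τ) (h0 : ∀ i, i ≠ κ → ∀ f, τ₀ i f = 0) (w : U ⟶ U) : τ w = 0 := by
  obtain ⟨m, φ, inj, pr, hφ, hs⟩ := hE.sum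
  obtain ⟨c, w', hw⟩ := hE.u2 w
  rw [hw, map_add, map_smul, h.one, smul_zero, zero_add, ← trE_comm_U h hφ hs w' a, trE_apply]
  exact Finset.sum_eq_zero fun r _ => h0 _ (hφ r) _

end N3

end EGr
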