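import Pool.Agent.Lib_MP_a23b08_n.N1
import Pool.Agent.Lib_MP_a23b08_n.N3Tr

/-!
# N3: socles, and the relation between the values of a trace on two socles joined by an arrow
-/

set_option backward.defeqAttrib.useBackward true
set_option backward.isDefEq.respectTransparency false
set_option linter.unusedSectionVars false
set_option linter.unusedVariables false

open CategoryTheory CategoryTheory.Limits CategoryTheory.Triangulated CategoryTheory.Pretriangulated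

universe v u

namespace EGr

namespace N3

open N1

variable (k : Type) [Field k] {D : Type u} [Category.{v} D] [Preadditive D] [HasZeroObject D]
  [HasShift D ℤ] [∀ n : ℤ, (shiftFunctor D n).Additive] [Pretriangulated D] [IsTriangulated D]
  [Linear k D] {t : TStructure D} {I : Type} {X Y : I → D}

/-- The dual of `Cov`. -/
structure Soc (t : TStructure D) (X Y : I → D) (s : ∀ i, X i ⟶ Y i) : Prop where
  ne : ∀ i, s i ≠ 0
  span : ∀ (i : I) (f : X i ⟶ Y i), ∃ a : k, f = a • s i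
  zero : ∀ (i j : I), i ≠ j → ∀ f : X j ⟶ Y i, f = 0
  inj : ∀ (i : I) (Z : D), t.heart Z → ∀ f : Z ⟶ (Y i)⟦(1 : ℤ)⟧, f = 0

theorem exists_soc (hC : CY3 k D) (hX : SMList t X) (hY : YD k X Y) :
    ∃ s : ∀ i, X i ⟶ Y i, Soc k t X Y s := by
  let e : ∀ j, (Y j)⟦(0 : ℤ)⟧ ≅ Y j := fun j => (shiftFunctorZero D ℤ).app (Y j)
  have h1 : ∀ i, Module.finrank k (X i ⟶ (Y i)⟦(0 : ℤ)⟧) = 1 := fun i => by
    rw [hC.cy (X i) (Y i) 0]
    exact hY.one i (3 - 0) (Or.inr (by norm_num))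
  have h2 : ∀ i, ∃ v : X i ⟶ (Y i)⟦(0 : ℤ)⟧, v ≠ 0 ∧ ∀ w, ∃ a : k, a • v = w := fun i =>
    finrank_eq_one_iff'.1 (h1 i)
  choose v hv hv' using h2
  refine ⟨fun i => v i ≫ (e i).hom, fun i h => hv i ?_, fun i f => ?_, fun i j hij f => ?_,
    fun i Z hZ f => ?_⟩
  · rw [← cancel_mono (e i).hom, h, zero_comp]
  · obtain ⟨a, ha⟩ := hv' i (f ≫ (e i).inv)
    refine ⟨a, ?_⟩
    rw [← Linear.smul_comp, ha, Category.assoc, Iso.inv_hom_id, Category.comp_id]
  · rw [← cancel_mono (e i).inv, yd_zero' k hC hY (i := i) (j := j) (m := 0) (Or.inl hij) (f ≫ (e i).inv), zero_comp]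
  · have hS := hX.isSMC
    rw [hX.eq_tstr, hS.tstr_heart] at hZ
    refine Filt.hom_zero ?_ hZ f
    rintro W ⟨j, m, hm, ⟨e'⟩⟩ g
    rw [Set.mem_singleton_iff] at hm
    subst hm
    let e0 : (X j)⟦(0 : ℤ)⟧ ≅ X j := (shiftFunctorZero D ℤ).app (X j)
    have h3 := yd_zero' k hC hY (i := i) (j := j) (m := 1) (Or.inr ⟨by norm_num, by norm_num⟩)
      (e0.inv ≫ e'.inv ≫ g)
    rw [← cancel_epi e'.inv, ← cancel_epi e0.inv, h3, comp_zero, comp_zero]

variable {k} {π : ∀ i, Y i ⟶ X i} {s : ∀ i, X i ⟶ Y i}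

/-- extension of maps to `Y i` along the first map of an extension -/
theorem Soc.ext (h : Soc k t X Y s) (i : I) {A B C : D} {f : A ⟶ B} {g : B ⟶ C} {c : C ⟶ A⟦(1 : ℤ)⟧}
    (hT : Triangle.mk f g c ∈ distTriang D) (hC : t.heart C) (v : A ⟶ Y i) : ∃ u : B ⟶ Y i, f ≫ u = v := by
  have hz : ∀ f : C⟦(-1 : ℤ)⟧ ⟶ Y i, f = 0 := by
    intro f
    let e0 : (Y i)⟦(0 : ℤ)⟧ ≅ Y i := (shiftFunctorZero D ℤ).app (Y i)
    rw [← cancel_mono e0.inv, shift_hom_zero (c := 1) (b := -1) (by ring) (h.inj i C hC) (f ≫ e0.inv), zero_comp]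
  obtain ⟨u, hu⟩ := Triangle.yoneda_exact₂ _ (inv_rot_of_distTriang _ hT) v (hz _)
  exact ⟨u, hu.symm⟩

/-- Two projective-injective objects joined by an arrow. -/
theorem omega_pair (hX : SMList t X) (h : Cov k t X Y π) (hs : Soc k t X Y s) {i j : I} (hij : i ≠ j)
    (e : X i ⟶ (X j)⟦(1 : ℤ)⟧) (he : e ≠ 0) :
    ∃ (y : Y i ⟶ Y j) (z : Y j ⟶ Y i) (β γ : k), β ≠ 0 ∧ γ ≠ 0 ∧
      z ≫ y = β • (π j ≫ s j) ∧ y ≫ z = γ • (π i ≫ s i) := by
  obtain ⟨L, a, b, hL⟩ := distinguished_cocone_triangle₂ e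
  have hLh : t.heart L := heart_ext hL (hX.simple j).1 (hX.simple i).1
  obtain ⟨q, hq⟩ := h.lift i hL (hX.simple j).1 (π i)
  obtain ⟨r, hr⟩ := hs.ext j hL (hX.simple i).1 (s j)
  have hqe : EpiH t q := epiH_of hX (h.heart i) hLh q (epi_step hX hL he (epi_base hX h i) hq)
  have hre : MonoH t r := by
    refine monoH_of hX hLh (h.heart j) r fun l g hg => ?_
    have h1 : g ≫ b = 0 := by
      rcases (hX.simple l).schur (hX.simple i) (g ≫ b) with h1 | h1
      · exact h1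
      · exfalso
        apply he
        have h2 : b ≫ e = 0 := comp_distTriang_mor_zero₂₃ _ hL
        rw [← cancel_epi (g ≫ b), Category.assoc, h2, comp_zero, comp_zero]
    obtain ⟨g', hg'⟩ : ∃ g' : X l ⟶ X j, g = g' ≫ a := Triangle.coyoneda_exact₂ _ hL g h1
    have h3 : g' ≫ s j = 0 := by rw [← hr, ← Category.assoc, ← hg', hg]
    rcases (hX.simple l).schur (hX.simple j) g' with h4 | h4
    · rw [hg', h4, zero_comp]
    · exact (hs.ne j (by rw [← cancel_epi g', h3, comp_zero])).elim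
  obtain ⟨z1, hz1⟩ := hqe.lift (h.heart i) hLh (h.proj j) (π j ≫ a)
  obtain ⟨z2, hz2⟩ := hre.ext hLh (h.heart j) (hs.inj i) (b ≫ s i)
  have hβ : ∀ z : Y j ⟶ Y i, ∃ β : k, z ≫ q = β • (π j ≫ a) := by
    intro z
    obtain ⟨w, hw⟩ : ∃ w : Y j ⟶ X j, z ≫ q = w ≫ a :=
      Triangle.coyoneda_exact₂ _ hL (z ≫ q) (h.zero j i hij.symm _)
    obtain ⟨β, hβ⟩ := h.span j w
    exact ⟨β, by rw [hw, hβ, Linear.smul_comp]⟩
  have hγ : ∀ z : Y j ⟶ Y i, ∃ γ : k, r ≫ z = γ • (b ≫ s i) := by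
    intro z
    obtain ⟨w, hw⟩ : ∃ w : X i ⟶ Y i, r ≫ z = b ≫ w :=
      Triangle.yoneda_exact₂ _ hL (r ≫ z) (hs.zero i j hij _)
    obtain ⟨γ, hγ⟩ := hs.span i w
    exact ⟨γ, by rw [hw, hγ, Linear.comp_smul]⟩
  have key : ∀ (z : Y j ⟶ Y i) (β γ : k), z ≫ q = β • (π j ≫ a) → r ≫ z = γ • (b ≫ s i) →
      z ≫ (q ≫ r) = β • (π j ≫ s j) ∧ (q ≫ r) ≫ z = γ • (π i ≫ s i) := by
    intro z β γ h1 h2
    constructor
    · rw [← Category.assoc, h1, Linear.smul_comp, Category.assoc, hr]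
    · rw [Category.assoc, h2, Linear.comp_smul, ← Category.assoc, hq]
  obtain ⟨γ1, hγ1⟩ := hγ z1
  obtain ⟨β2, hβ2⟩ := hβ z2
  have hz1' : z1 ≫ q = (1 : k) • (π j ≫ a) := by rw [hz1, one_smul]
  have hz2' : r ≫ z2 = (1 : k) • (b ≫ s i) := by rw [hz2, one_smul]
  by_cases h1 : γ1 = 0
  · by_cases h2 : β2 = 0
    · refine ⟨q ≫ r, z1 + z2, 1, 1, one_ne_zero, one_ne_zero, key _ _ _ ?_ ?_⟩
      · rw [Preadditive.add_comp, hz1', hβ2, h2, zero_smul, add_zero]
      · rw [Preadditive.comp_add, hγ1, h1, zero_smul, zero_add, hz2']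
    · exact ⟨q ≫ r, z2, β2, 1, h2, one_ne_zero, key _ _ _ hβ2 hz2'⟩
  · exact ⟨q ≫ r, z1, 1, γ1, one_ne_zero, h1, key _ _ _ hz1' hγ1⟩

/-- A trace vanishes on the socle of `Y i` iff it does on the socle of `Y j`. -/
theorem omega_iff (hX : SMList t X) (h : Cov k t X Y π) (hs : Soc k t X Y s) {i j : I} (hij : i ≠ j)
    (e : X i ⟶ (X j)⟦(1 : ℤ)⟧) (he : e ≠ 0) {σ : ∀ i, (Y i ⟶ Y i) →ₗ[k] k} (hσ : IsTr k Y σ) :
    σ i (π i ≫ s i) = 0 ↔ σ j (π j ≫ s j) = 0 := by
  obtain ⟨y, z, β, γ, hβ, hγ, h1, h2⟩ := omega_pair hX h hs hij e he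
  have h3 := hσ.2 i j y z
  rw [h1, h2, map_smul, map_smul, smul_eq_mul, smul_eq_mul] at h3
  constructor
  · intro h4
    rw [h4, mul_zero] at h3
    exact (mul_eq_zero.1 h3.symm).resolve_left hβ
  · intro h4
    rw [h4, mul_zero] at h3
    exact (mul_eq_zero.1 h3).resolve_left hγ

/-- Vanishing on the socle in terms of the generators. -/
theorem vanish_iff (h : Cov k t X Y π) (hs : Soc k t X Y s) (i : I) (τ : (Y i ⟶ Y i) →ₗ[k] k) :
    (∀ (p : Y i ⟶ X i) (q : X i ⟶ Y i), τ (p ≫ q) = 0) ↔ τ (π i ≫ s i) = 0 := by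
  refine ⟨fun h1 => h1 _ _, fun h1 p q => ?_⟩
  obtain ⟨a, rfl⟩ := h.span i p
  obtain ⟨c, rfl⟩ := hs.span i q
  rw [Linear.smul_comp, Linear.comp_smul, map_smul, map_smul, h1, smul_zero, smul_zero]

/-- The list of simples reindexed. -/
theorem smlist_newX (hX : SMList t X) (κ : I) : SMList t (newX X κ) := by
  refine ⟨?_, ?_, ?_, hX.bounded, hX.length⟩
  · rintro (_ | j)
    · exact hX.simple κ
    · exact hX.simple j.1
  · rintro (_ | i) (_ | j) h
    · rfl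
    · exact absurd (hX.inj κ j.1 h).symm j.2
    · exact absurd (hX.inj i.1 κ h) i.2
    · exact congrArg some (Subtype.ext (hX.inj i.1 j.1 h))
  · intro S hS
    obtain ⟨i, hi⟩ := hX.all S hS
    by_cases h : i = κ
    · subst h
      exact ⟨none, hi⟩
    · exact ⟨some ⟨i, h⟩, hi⟩

/-- A projective simple object is its own cover. -/
theorem proj_iso (hX : SMList t X) (h : Cov k t X Y π) (hs : Soc k t X Y s) {i : I}
    (hp : ∀ Z : D, t.heart Z → ∀ f : X i ⟶ Z⟦(1 : ℤ)⟧, f = 0) (τ : (Y i ⟶ Y i) →ₗ[k] k)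
    (h1 : τ (𝟙 (Y i)) = 0) : τ (π i ≫ s i) = 0 := by
  have hepi : EpiH t (π i) := epiH_simple hX (h.heart i) (π i) (h.ne i)
  obtain ⟨u, hu⟩ := hepi.lift (h.heart i) (hX.simple i).1 hp (𝟙 (X i))
  obtain ⟨K, κ, δ, hT⟩ := distinguished_cocone_triangle₁ (π i)
  have hK : t.heart K := hepi.fibre hT (h.heart i) (hX.simple i).1
  obtain ⟨c, hc⟩ := hs.span i u
  have hK0 : IsZero K := by
    by_contra hK0
    obtain ⟨j, g, hg⟩ := exists_sub hX hK hK0
    apply hg
    have h2 : g ≫ κ = 0 := by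
      by_cases hj : i = j
      · subst hj
        obtain ⟨d, hd⟩ := hs.span i (g ≫ κ)
        have h3 : (g ≫ κ) ≫ π i = 0 := by
          have : κ ≫ π i = 0 := comp_distTriang_mor_zero₁₂ _ hT
          rw [Category.assoc, this, comp_zero]
        rw [hd, Linear.smul_comp] at h3
        have h4 : c • (s i ≫ π i) = 𝟙 (X i) := by rw [← Linear.smul_comp, ← hc, hu]
        have h5 : s i ≫ π i ≠ 0 := by
          intro h0
          rw [h0, smul_zero] at h4
          exact hX.isSMC.ne_zero i ((IsZero.iff_id_eq_zero _).2 h4.symm)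
        have h6 : d = 0 := (smul_eq_zero.1 h3).resolve_right h5
        rw [hd, h6, zero_smul]
      · exact hs.zero i j hj _
    obtain ⟨w, hw⟩ : ∃ w, g = w ≫ (Triangle.mk κ (π i) δ).invRotate.mor₁ :=
      Triangle.coyoneda_exact₂ _ (inv_rot_of_distTriang _ hT) g h2
    have hw0 : w = 0 := by
      have := le_zero_of t (a := 0) (b := 1) (by norm_num) (hX.simple j).1.1
        ((ge_of_shift t (n := 0) (by ring)).2 (hX.simple i).1.2) w
      exact this
    rw [hw, hw0]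
    exact zero_comp
  have : IsIso (π i) := (Triangle.isZero₁_iff_isIso₂ _ hT).1 hK0
  have h7 : π i ≫ u = 𝟙 (Y i) := by
    rw [← cancel_mono (π i), Category.assoc, hu, Category.comp_id, Category.id_comp]
  have h8 : c * τ (π i ≫ s i) = 0 := by
    rw [hc, Linear.comp_smul] at h7
    rw [← smul_eq_mul, ← map_smul, h7, h1]
  rcases mul_eq_zero.1 h8 with h9 | h9
  · exfalso
    apply h.ne i
    rw [h9, zero_smul] at hc
    rw [hc, comp_zero] at h7
    rw [← Category.id_comp (π i), ← h7, zero_comp]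
  · exact h9

/-- An injective simple object is its own hull. -/
theorem inj_iso (hX : SMList t X) (h : Cov k t X Y π) (hs : Soc k t X Y s) {i : I}
    (hp : ∀ Z : D, t.heart Z → ∀ f : Z ⟶ (X i)⟦(1 : ℤ)⟧, f = 0) (τ : (Y i ⟶ Y i) →ₗ[k] k)
    (h1 : τ (𝟙 (Y i)) = 0) : τ (π i ≫ s i) = 0 := by
  have hmono : MonoH t (s i) := monoH_simple hX (h.heart i) (s i) (hs.ne i)
  obtain ⟨u, hu⟩ := hmono.ext (hX.simple i).1 (h.heart i) hp (𝟙 (X i))
  obtain ⟨C, g, δ, hT⟩ := distinguished_cocone_triangle (s i)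
  have hC : t.heart C := hmono.cone hT (hX.simple i).1 (h.heart i)
  obtain ⟨c, hc⟩ := h.span i u
  have hC0 : IsZero C := by
    by_contra hC0
    obtain ⟨j, w, hw⟩ := exists_quot hX hC hC0
    apply hw
    have h2 : g ≫ w = 0 := by
      by_cases hj : i = j
      · subst hj
        obtain ⟨d, hd⟩ := h.span i (g ≫ w)
        have h3 : s i ≫ (g ≫ w) = 0 := by
          have : s i ≫ g = 0 := comp_distTriang_mor_zero₁₂ _ hT
          rw [← Category.assoc, this, zero_comp]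
        rw [hd, Linear.comp_smul] at h3
        have h4 : c • (s i ≫ π i) = 𝟙 (X i) := by rw [← Linear.comp_smul, ← hc, hu]
        have h5 : s i ≫ π i ≠ 0 := by
          intro h0
          rw [h0, smul_zero] at h4
          exact hX.isSMC.ne_zero i ((IsZero.iff_id_eq_zero _).2 h4.symm)
        have h6 : d = 0 := (smul_eq_zero.1 h3).resolve_right h5
        rw [hd, h6, zero_smul]
      · exact h.zero i j hj _
    obtain ⟨v, hv⟩ := Triangle.yoneda_exact₃ _ hT w h2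
    rw [hv, heart_shift_hom (hX.simple i).1 (hX.simple j).1 v]
    exact comp_zero
  have : IsIso (s i) := (Triangle.isZero₃_iff_isIso₁ _ hT).1 hC0
  have h7 : u ≫ s i = 𝟙 (Y i) := by
    rw [← cancel_epi (s i), ← Category.assoc, hu, Category.id_comp, Category.comp_id]
  have h8 : c * τ (π i ≫ s i) = 0 := by
    rw [hc, Linear.smul_comp] at h7
    rw [← smul_eq_mul, ← map_smul, h7, h1]
  rcases mul_eq_zero.1 h8 with h9 | h9
  · exfalso
    apply hs.ne i
    rw [h9, zero_smul] at hc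
    rw [hc, zero_comp] at h7
    rw [← Category.comp_id (s i), ← h7, comp_zero]
  · exact h9

end N3

end EGr
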