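import Pool.Agent.Lib_MP_a23b08_t.T2Int
import Pool.Agent.Lib_MP_a23b08_t1.Main

/-!
# Part N (non-degeneracy): definitions

`D` is a `k`-linear triangulated category, Hom-finite and 3-Calabi-Yau on dimensions (`NHyp`). A finite heart with list of simples `X` is `Good` if there are objects `Y i` with
`Hom(Y i, X j[m]) = k` for `i = j`, `m = 0` or `3`, and `0` otherwise (`YD`), such that every trace on the `Y i`
which vanishes on one socle `Y i ⟶ X i ⟶ Y i` is zero (`PD`).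
-/

open CategoryTheory CategoryTheory.Limits CategoryTheory.Triangulated CategoryTheory.Pretriangulated

universe v u

namespace EGr

section
variable (k : Type) [Field k] (D : Type u) [Category.{v} D] [Preadditive D] [HasZeroObject D]
  [HasShift D ℤ] [∀ n : ℤ, (shiftFunctor D n).Additive] [Pretriangulated D] [Linear k D]

/-- The standing hypotheses of part N. -/
structure NHyp : Prop extends CY3 k D

end

section
variable (k : Type) [Field k] {D : Type u} [Category.{v} D] [Preadditive D] [HasZeroObject D]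
  [HasShift D ℤ] [∀ n : ℤ, (shiftFunctor D n).Additive] [Pretriangulated D] [Linear k D] {ι : Type}

/-- `Hom(Y i, X j[m])` is `k` for `i = j` and `m = 0` or `m = 3`, and `0` otherwise. -/
structure YD (X Y : ι → D) : Prop where
  zero : ∀ (i j : ι) (m : ℤ), (i ≠ j ∨ (m ≠ 0 ∧ m ≠ 3)) → Module.finrank k (Y i ⟶ (X j)⟦m⟧) = 0
  one : ∀ (i : ι) (m : ℤ), m = 0 ∨ m = 3 → Module.finrank k (Y i ⟶ (X i)⟦m⟧) = 1

/-- `τ` is a trace on the objects `Y i`, normalised by `τ (𝟙) = 0`. -/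
def IsTr (Y : ι → D) (τ : ∀ i, (Y i ⟶ Y i) →ₗ[k] k) : Prop :=
  (∀ i, τ i (𝟙 (Y i)) = 0) ∧ ∀ (i j : ι) (f : Y i ⟶ Y j) (g : Y j ⟶ Y i), τ i (f ≫ g) = τ j (g ≫ f)

/-- A trace on the `Y i` which vanishes on one socle `Y i ⟶ X i ⟶ Y i` is zero. -/
def PD (X Y : ι → D) : Prop :=
  ∀ τ : ∀ i, (Y i ⟶ Y i) →ₗ[k] k, IsTr k Y τ →
    ∀ i : ι, (∀ (p : Y i ⟶ X i) (q : X i ⟶ Y i), τ i (p ≫ q) = 0) → ∀ (j : ι) (f : Y j ⟶ Y j), τ j f = 0

/-- A good t-structure. -/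
def Good (t : TStructure D) : Prop :=
  ∃ (ι : Type) (_ : Fintype ι) (X Y : ι → D), (∀ i j : ι, ∃ l : ι, l ≠ i ∧ l ≠ j) ∧ SMList t X ∧
    YD k X Y ∧ PD k X Y

/-- `(τ₀, τ)` is a trace on the objects `Y j`, `j ≠ κ`, and `U`, normalised by `τ (𝟙) = 0`. (The value `τ₀ κ` is
not used.) -/
structure IsTrAt (Y : ι → D) (κ : ι) (U : D) (τ₀ : ∀ i, (Y i ⟶ Y i) →ₗ[k] k) (τ : (U ⟶ U) →ₗ[k] k) : Prop where
  one₀ : ∀ i, i ≠ κ → τ₀ i (𝟙 (Y i)) = 0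
  one : τ (𝟙 U) = 0
  yy : ∀ i j : ι, i ≠ κ → j ≠ κ → ∀ (f : Y i ⟶ Y j) (g : Y j ⟶ Y i), τ₀ i (f ≫ g) = τ₀ j (g ≫ f)
  yu : ∀ i : ι, i ≠ κ → ∀ (f : Y i ⟶ U) (g : U ⟶ Y i), τ₀ i (f ≫ g) = τ (g ≫ f)
  uu : ∀ f g : U ⟶ U, τ (f ≫ g) = τ (g ≫ f)

/-- The objects `U` and `V` are exchanged along the family `Y j`, `j ≠ κ`: there is a distinguished triangle
`U ⟶ E ⟶ V ⟶ U⟦1⟧`, `E` a direct summand of a sum of the `Y j`, `j ≠ κ`; every map `U ⟶ Y j` and every radical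
endomorphism of `U` factors through `U ⟶ E`, and dually for `V`. -/
structure Exch (Y : ι → D) (κ : ι) (U V : D) {E : D} (a : U ⟶ E) (b : E ⟶ V) (δ : V ⟶ U⟦(1 : ℤ)⟧) : Prop where
  dist : Triangle.mk a b δ ∈ distTriang D
  sum : ∃ (m : ℕ) (φ : Fin m → ι) (inj : ∀ r, Y (φ r) ⟶ E) (pr : ∀ r, E ⟶ Y (φ r)),
    (∀ r, φ r ≠ κ) ∧ ∑ r, pr r ≫ inj r = 𝟙 E
  u1 : ∀ j, j ≠ κ → ∀ f : U ⟶ Y j, ∃ f' : E ⟶ Y j, a ≫ f' = f
  v1 : ∀ j, j ≠ κ → ∀ f : Y j ⟶ V, ∃ f' : Y j ⟶ E, f' ≫ b = f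
  u2 : ∀ w : U ⟶ U, ∃ (c : k) (w' : E ⟶ U), w = c • 𝟙 U + a ≫ w'
  v2 : ∀ w : V ⟶ V, ∃ (c : k) (w' : V ⟶ E), w = c • 𝟙 V + w' ≫ b
  u3 : ∀ w' : E ⟶ U, a ≫ w' ≠ 𝟙 U
  v3 : ∀ w' : V ⟶ E, w' ≫ b ≠ 𝟙 V

end

section
variable {D : Type u} {ι : Type}

/-- the family `Y` with `Y κ` replaced by `V`; the index of `V` is `none` -/
def newY (Y : ι → D) (κ : ι) (V : D) : Option {j : ι // j ≠ κ} → D := fun o => o.elim V fun j => Y j.1

/-- the family `X` reindexed; the index of `X κ` is `none` -/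
def newX (X : ι → D) (κ : ι) : Option {j : ι // j ≠ κ} → D := newY X κ (X κ)

variable [Category.{v} D] [Preadditive D] [HasZeroObject D]
  [HasShift D ℤ] [∀ n : ℤ, (shiftFunctor D n).Additive] [Pretriangulated D]

/-- `m` is an epimorphism for test objects of the heart -/
def EpiH (t : TStructure D) {A B : D} (m : A ⟶ B) : Prop :=
  ∀ Z : D, t.heart Z → ∀ g : B ⟶ Z, m ≫ g = 0 → g = 0

/-- `m` is a monomorphism for test objects of the heart -/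
def MonoH (t : TStructure D) {A B : D} (m : A ⟶ B) : Prop :=
  ∀ Z : D, t.heart Z → ∀ g : Z ⟶ A, g ≫ m = 0 → g = 0

end

end EGr
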