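import Pool.Agent.Lib_MP_a23b08_n.NDef
import Pool.Agent.Lib_MP_a23b08_t1.Extra

/-!
# NHeart: epimorphisms and monomorphisms of a finite heart, in terms of triangles

All proofs use `cone_trunc`: if `A ⟶ B ⟶ C ⟶ A⟦1⟧` is distinguished with `A, B` in the heart then `C` is in degrees
`-1, 0`, so there is a triangle `K⟦1⟧ ⟶ C ⟶ Q ⟶ K⟦1⟧⟦1⟧` with `K, Q` in the heart.
-/

set_option backward.defeqAttrib.useBackward true
set_option backward.isDefEq.respectTransparency false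
set_option linter.unusedSectionVars false
set_option linter.unusedVariables false

open CategoryTheory CategoryTheory.Limits CategoryTheory.Triangulated CategoryTheory.Pretriangulated

universe v u

namespace EGr

variable {D : Type u} [Category.{v} D] [Preadditive D] [HasZeroObject D] [HasShift D ℤ]
  [∀ n : ℤ, (shiftFunctor D n).Additive] [Pretriangulated D] [IsTriangulated D]
  {t : TStructure D} {ι : Type} {X : ι → D}

/-- `t.exists_triangle C (-1) 0` (truncation), then shift: `K := U⟦-1⟧`. -/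
theorem cone_trunc (t : TStructure D) {A B C : D} {f : A ⟶ B} {g : B ⟶ C} {h : C ⟶ A⟦(1 : ℤ)⟧}
    (hT : Triangle.mk f g h ∈ distTriang D) (hA : t.heart A) (hB : t.heart B) :
    ∃ (K Q : D) (a : K⟦(1 : ℤ)⟧ ⟶ C) (b : C ⟶ Q) (c : Q ⟶ K⟦(1 : ℤ)⟧⟦(1 : ℤ)⟧),
      t.heart K ∧ t.heart Q ∧ Triangle.mk a b c ∈ distTriang D := by
  obtain ⟨K', Q, hK', hQ, a, v, b, hT'⟩ := t.exists_triangle C (-1) 0 (by norm_num)
  have hC1 : t.le 0 C := le₃ t 0 hT (le_mono' t (by norm_num) hA.1) hB.1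
  have hC2 : t.ge (-1) C := ge₃ t (-1) hT hA.2 (ge_anti' t (by norm_num) hB.2)
  have hQ1 : t.le 0 Q := le₃ t 0 hT' (le_mono' t (by norm_num) hK') hC1
  have hK1 : t.ge (-1) K' := ge₁ t (-1) hT' hC2 (ge_anti' t (by norm_num) hQ)
  let e : (K'⟦(-1 : ℤ)⟧)⟦(1 : ℤ)⟧ ≅ K' := (shiftEquiv D (1 : ℤ)).counitIso.app K'
  refine ⟨K'⟦(-1 : ℤ)⟧, Q, e.hom ≫ a, v, b ≫ e.inv⟦(1 : ℤ)⟧', ⟨?_, ?_⟩, ⟨hQ1, hQ⟩, ?_⟩
  · exact (le_of_shift t (n := -1) (by ring)).2 hK'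
  · exact (ge_of_shift t (n := -1) (by ring)).2 hK1
  · exact isomorphic_distinguished _ hT' _ (Triangle.isoMk _ _ e (Iso.refl _) (Iso.refl _)
      (by simp) (by simp) (by
        simp only [Triangle.mk_mor₃, Iso.refl_hom, Category.id_comp, Category.assoc]
        rw [← Functor.map_comp]
        simp))

/-- maps from a shift `A⟦m⟧`, `m > 0`, of an object of the heart to an object of the heart are zero -/
theorem heart_shift_hom {A B : D} (hA : t.heart A) (hB : t.heart B) (f : A⟦(1 : ℤ)⟧ ⟶ B) : f = 0 :=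
  heart_hom_shift_zero t hA hB (by norm_num) f

theorem heart_shift_hom₂ {A B : D} (hA : t.heart A) (hB : t.heart B) (f : A⟦(1 : ℤ)⟧⟦(1 : ℤ)⟧ ⟶ B) : f = 0 :=
  le_zero_of t (a := -2) (b := 0) (by norm_num)
    ((le_of_shift t (n := -1) (by ring)).2 ((le_of_shift t (n := 0) (by ring)).2 hA.1)) hB.2 f

/-- A nonzero object of the heart has a nonzero map to a simple: induction on `Filt` (`hX.heart_filt`); in
`A ⟶ M ⟶ B`, `B` simple, if `M ⟶ B` is zero then `B⟦-1⟧` is a direct summand of `A`, impossible (`A ≥ 0`), unless... -/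
theorem exists_quot (hX : SMList t X) {M : D} (hM : t.heart M) (h0 : ¬ IsZero M) :
    ∃ (j : ι) (h : M ⟶ X j), h ≠ 0 := by
  by_contra hcon
  push Not at hcon
  have hS := hX.isSMC
  rw [hX.eq_tstr] at hM
  exact h0 (hS.isZero_of_hom hM hcon)

/-- dual of `exists_quot`: use `Filt.toL` (file T1/Tilt: extensions from the other side) -/
theorem exists_sub (hX : SMList t X) {M : D} (hM : t.heart M) (h0 : ¬ IsZero M) :
    ∃ (j : ι) (h : X j ⟶ M), h ≠ 0 := by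
  have hF := hX.heart_filt hM
  have hL := hF.toL
  cases hL with
  | zero _ h => exact (h0 h).elim
  | ext A _ B f g h hT hA hB =>
    obtain ⟨j, ⟨e⟩⟩ := hA
    refine ⟨j, e.inv ≫ f, fun h1 => ?_⟩
    have hf : f = 0 := by rw [← cancel_epi e.inv, h1, comp_zero]
    have hS := hX.isSMC
    have hBh : hS.tstr.heart B := (hS.heart_iff B).2 hB.toFilt
    have hAh : hS.tstr.heart A := heart_of_iso e.symm (hS.mem_heart j)
    have h2 := (isIso_of_zero hT hf (fun r => heart_hom_shift_zero hS.tstr hAh hBh (by norm_num) r)).1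
    exact (hX.simple j).2.1 (h2.of_iso e.symm)

/-- with the truncation `K⟦1⟧ ⟶ C ⟶ Q` of the cone: `Q = 0` makes `m` an epimorphism -/
theorem epiH_of_Q {A B C K Q : D} {m : A ⟶ B} {g : B ⟶ C} {δ : C ⟶ A⟦(1 : ℤ)⟧} {a : K⟦(1 : ℤ)⟧ ⟶ C} {b : C ⟶ Q}
    {c : Q ⟶ K⟦(1 : ℤ)⟧⟦(1 : ℤ)⟧} (hT : Triangle.mk m g δ ∈ distTriang D) (hK : t.heart K)
    (hT' : Triangle.mk a b c ∈ distTriang D) (hQ : IsZero Q) : EpiH t m := by
  intro Z hZ r hr
  obtain ⟨w, hw⟩ := Triangle.yoneda_exact₂ _ hT r hr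
  have : IsIso a := (Triangle.isZero₃_iff_isIso₁ _ hT').1 hQ
  have hw0 : w = 0 := by
    rw [← cancel_epi a, heart_shift_hom hK hZ (a ≫ w), comp_zero]
  rw [hw, hw0]
  exact comp_zero

/-- for an epimorphism `Q = 0` -/
theorem EpiH.Q_zero {A B C K Q : D} {m : A ⟶ B} {g : B ⟶ C} {δ : C ⟶ A⟦(1 : ℤ)⟧} {a : K⟦(1 : ℤ)⟧ ⟶ C} {b : C ⟶ Q}
    {c : Q ⟶ K⟦(1 : ℤ)⟧⟦(1 : ℤ)⟧} (h : EpiH t m) (hT : Triangle.mk m g δ ∈ distTriang D) (hA : t.heart A)
    (hK : t.heart K) (hQ : t.heart Q) (hT' : Triangle.mk a b c ∈ distTriang D) : IsZero Q := by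
  have hmg : m ≫ g = 0 := comp_distTriang_mor_zero₁₂ _ hT
  have h1 : g ≫ b = 0 := h Q hQ (g ≫ b) (by rw [← Category.assoc, hmg, zero_comp])
  obtain ⟨w, hw⟩ := Triangle.yoneda_exact₃ _ hT b h1
  have hb : b = 0 := by
    rw [hw, heart_shift_hom hA hQ w]
    exact comp_zero
  exact (isIso_of_zero' hT' hb (fun r => heart_shift_hom₂ hK hQ r)).1

/-- a map with cone in the heart is a monomorphism -/
theorem monoH_of_cone {A B C : D} {m : A ⟶ B} {g : B ⟶ C} {δ : C ⟶ A⟦(1 : ℤ)⟧}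
    (hT : Triangle.mk m g δ ∈ distTriang D) (hC : t.heart C) : MonoH t m := by
  intro Z hZ r hr
  have h1 : r⟦(1 : ℤ)⟧' ≫ m⟦(1 : ℤ)⟧' = 0 := by rw [← Functor.map_comp, hr, Functor.map_zero]
  obtain ⟨w, hw⟩ := Triangle.coyoneda_exact₁ _ hT (r⟦(1 : ℤ)⟧') h1
  apply (shiftFunctor D (1 : ℤ)).map_injective
  rw [hw, heart_shift_hom hZ hC w, Functor.map_zero]
  exact zero_comp

/-- the map `K ⟶ A` behind `K⟦1⟧ ⟶ C ⟶ A⟦1⟧` -/
theorem exists_ker {A B C K : D} {m : A ⟶ B} {g : B ⟶ C} {δ : C ⟶ A⟦(1 : ℤ)⟧} (a : K⟦(1 : ℤ)⟧ ⟶ C)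
    (hT : Triangle.mk m g δ ∈ distTriang D) : ∃ κ : K ⟶ A, κ⟦(1 : ℤ)⟧' = a ≫ δ ∧ κ ≫ m = 0 := by
  obtain ⟨κ, hκ⟩ := (shiftFunctor D (1 : ℤ)).map_surjective (a ≫ δ)
  refine ⟨κ, hκ, ?_⟩
  apply (shiftFunctor D (1 : ℤ)).map_injective
  have h0 : δ ≫ m⟦(1 : ℤ)⟧' = 0 := comp_distTriang_mor_zero₃₁ _ hT
  rw [Functor.map_comp, hκ, Category.assoc, h0, comp_zero, Functor.map_zero]

/-- Testing on the simples is enough: let `A ⟶ B ⟶ C` be the cone, `K⟦1⟧ ⟶ C ⟶ Q`; if `Q` is nonzero take a nonzero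
`h : Q ⟶ X j`; the composite `B ⟶ C ⟶ Q ⟶ X j` is killed by `m`, so it is zero, so `C ⟶ Q ⟶ X j` factors through
`A⟦1⟧`, hence is zero, so `h` factors through `K⟦1⟧⟦1⟧`, hence is zero. So `Q = 0`, `C ≅ K⟦1⟧`, and `g : B ⟶ Z` with
`m ≫ g = 0` factors through `C ≅ K⟦1⟧ ⟶ Z`, zero. -/
theorem epiH_of (hX : SMList t X) {A B : D} (hA : t.heart A) (hB : t.heart B) (m : A ⟶ B)
    (h : ∀ (j : ι) (g : B ⟶ X j), m ≫ g = 0 → g = 0) : EpiH t m := by
  obtain ⟨C, g, δ, hT⟩ := distinguished_cocone_triangle m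
  obtain ⟨K, Q, a, b, c, hK, hQ, hT'⟩ := cone_trunc t hT hA hB
  refine epiH_of_Q hT hK hT' ?_
  by_contra hQ0
  obtain ⟨j, r, hr⟩ := exists_quot hX hQ hQ0
  apply hr
  have hXj := (hX.simple j).1
  have hmg : m ≫ g = 0 := comp_distTriang_mor_zero₁₂ _ hT
  have h1 : g ≫ (b ≫ r) = 0 := h j _ (by rw [← Category.assoc, hmg, zero_comp])
  obtain ⟨w, hw⟩ := Triangle.yoneda_exact₃ _ hT (b ≫ r) h1
  have h2 : b ≫ r = 0 := by
    rw [hw, heart_shift_hom hA hXj w]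
    exact comp_zero
  obtain ⟨w', hw'⟩ := Triangle.yoneda_exact₃ _ hT' r h2
  rw [hw', heart_shift_hom₂ hK hXj w']
  exact comp_zero

/-- dual of `epiH_of` -/
theorem monoH_of (hX : SMList t X) {A B : D} (hA : t.heart A) (hB : t.heart B) (m : A ⟶ B)
    (h : ∀ (j : ι) (g : X j ⟶ A), g ≫ m = 0 → g = 0) : MonoH t m := by
  obtain ⟨C, g, δ, hT⟩ := distinguished_cocone_triangle m
  obtain ⟨K, Q, a, b, c, hK, hQ, hT'⟩ := cone_trunc t hT hA hB
  obtain ⟨κ, hκ, hκm⟩ := exists_ker a hT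
  have hK0 : IsZero K := by
    by_contra hK0
    obtain ⟨j, s, hs⟩ := exists_sub hX hK hK0
    apply hs
    have hXj := (hX.simple j).1
    have h1 : s ≫ κ = 0 := h j _ (by rw [Category.assoc, hκm, comp_zero])
    have h2 : (s⟦(1 : ℤ)⟧' ≫ a) ≫ δ = 0 := by
      rw [Category.assoc, ← hκ, ← Functor.map_comp, h1, Functor.map_zero]
    obtain ⟨w, hw⟩ := Triangle.coyoneda_exact₃ _ hT (s⟦(1 : ℤ)⟧' ≫ a) h2
    have h3 : s⟦(1 : ℤ)⟧' ≫ a = 0 := by
      rw [hw, heart_shift_hom hXj hB w]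
      exact zero_comp
    obtain ⟨w', hw'⟩ := Triangle.coyoneda_exact₂ _ (inv_rot_of_distTriang _ hT') (s⟦(1 : ℤ)⟧') h3
    have hw0 : w' = 0 := le_zero_of t (a := -1) (b := 1) (by norm_num)
      ((le_of_shift t (n := 0) (by ring)).2 hXj.1) ((ge_of_shift t (n := 0) (by ring)).2 hQ.2) w'
    apply (shiftFunctor D (1 : ℤ)).map_injective
    rw [hw', hw0, Functor.map_zero]
    exact zero_comp
  have hK1 : IsZero (K⟦(1 : ℤ)⟧) := (shiftFunctor D (1 : ℤ)).map_isZero hK0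
  have : IsIso b := (Triangle.isZero₁_iff_isIso₂ _ hT').1 hK1
  exact monoH_of_cone hT (heart_of_iso (asIso b).symm hQ)

/-- The fibre of an epimorphism of the heart is in the heart (`Q = 0` as in `epiH_of`; here use `EpiH` with test
object `Q`). -/
theorem EpiH.fibre {K A B : D} {κ : K ⟶ A} {m : A ⟶ B} {δ : B ⟶ K⟦(1 : ℤ)⟧}
    (hT : Triangle.mk κ m δ ∈ distTriang D) (hA : t.heart A) (hB : t.heart B) (h : EpiH t m) : t.heart K := by
  have hT1 := rot_of_distTriang _ hT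
  obtain ⟨K', Q, a, b, c, hK', hQ, hT'⟩ := cone_trunc t hT1 hA hB
  have hQ0 := h.Q_zero hT1 hA hK' hQ hT'
  have : IsIso a := (Triangle.isZero₃_iff_isIso₁ _ hT').1 hQ0
  have e : K' ≅ K := (shiftEquiv D (1 : ℤ)).unitIso.app K' ≪≫ (shiftFunctor D (-1 : ℤ)).mapIso (asIso a) ≪≫
    ((shiftEquiv D (1 : ℤ)).unitIso.app K).symm
  exact heart_of_iso e hK'

/-- The cone of a monomorphism of the heart is in the heart. -/
theorem MonoH.cone {A B C : D} {m : A ⟶ B} {g : B ⟶ C} {δ : C ⟶ A⟦(1 : ℤ)⟧}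
    (hT : Triangle.mk m g δ ∈ distTriang D) (hA : t.heart A) (hB : t.heart B) (h : MonoH t m) : t.heart C := by
  obtain ⟨K, Q, a, b, c, hK, hQ, hT'⟩ := cone_trunc t hT hA hB
  obtain ⟨κ, hκ, hκm⟩ := exists_ker a hT
  have hκ0 : κ = 0 := h K hK κ hκm
  have h1 : a ≫ δ = 0 := by rw [← hκ, hκ0, Functor.map_zero]
  obtain ⟨w, hw⟩ := Triangle.coyoneda_exact₃ _ hT a h1
  have ha : a = 0 := by
    rw [hw, heart_shift_hom hK hB w]
    exact zero_comp
  have := (isIso_of_zero hT' ha (fun r => heart_shift_hom₂ hK hQ r)).2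
  exact heart_of_iso (asIso b).symm hQ

/-- A nonzero map to a simple object is an epimorphism: its fibre is in the heart (T1/Simple `IsSMC.fibre`, with
`hX.eq_tstr`), then `g : X i ⟶ Z` with `p ≫ g = 0` factors through `K⟦1⟧ ⟶ Z`, zero. -/
theorem epiH_simple (hX : SMList t X) {A : D} (hA : t.heart A) {i : ι} (p : A ⟶ X i) (hp : p ≠ 0) :
    EpiH t p := by
  intro Z hZ g hg
  obtain ⟨K, κ, δ, hT⟩ := distinguished_cocone_triangle₁ p
  have hS := hX.isSMC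
  have hK : t.heart K := by
    have hA' := hA
    rw [hX.eq_tstr] at hA' ⊢
    exact hS.fibre i hA' p hp hT
  obtain ⟨w, hw⟩ := Triangle.yoneda_exact₃ _ hT g hg
  rw [hw, heart_shift_hom hK hZ w]
  exact comp_zero

/-- A nonzero map from a simple object is a monomorphism: `monoH_of`, and a map between simples is zero or an
isomorphism (`SimpleIn.schur`). -/
theorem monoH_simple (hX : SMList t X) {B : D} (hB : t.heart B) {i : ι} (q : X i ⟶ B) (hq : q ≠ 0) :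
    MonoH t q := by
  obtain ⟨C, c, δ, hT⟩ := distinguished_cocone_triangle q
  have hS := hX.isSMC
  refine monoH_of_cone hT ?_
  rw [hX.eq_tstr] at hB ⊢
  exact hS.cofibre i hB q hq hT

/-- Lifting along an epimorphism of the heart: the cone of `m` is `K⟦1⟧` with `K` in the heart. -/
theorem EpiH.lift {A B : D} {m : A ⟶ B} (hA : t.heart A) (hB : t.heart B) (h : EpiH t m) {P : D}
    (hP : ∀ Z : D, t.heart Z → ∀ f : P ⟶ Z⟦(1 : ℤ)⟧, f = 0) (v : P ⟶ B) : ∃ u : P ⟶ A, u ≫ m = v := by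
  obtain ⟨C, g, δ, hT⟩ := distinguished_cocone_triangle m
  obtain ⟨K, Q, a, b, c, hK, hQ, hT'⟩ := cone_trunc t hT hA hB
  have hQ0 := h.Q_zero hT hA hK hQ hT'
  have : IsIso a := (Triangle.isZero₃_iff_isIso₁ _ hT').1 hQ0
  have h1 : v ≫ g = 0 := by
    rw [← cancel_mono (inv a), hP K hK ((v ≫ g) ≫ inv a), zero_comp]
  obtain ⟨u, hu⟩ := Triangle.coyoneda_exact₂ _ hT v h1
  exact ⟨u, hu.symm⟩

/-- Extension along a monomorphism of the heart. -/
theorem MonoH.ext {A B : D} {m : A ⟶ B} (hA : t.heart A) (hB : t.heart B) (h : MonoH t m) {I : D}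
    (hI : ∀ Z : D, t.heart Z → ∀ f : Z ⟶ I⟦(1 : ℤ)⟧, f = 0) (v : A ⟶ I) : ∃ u : B ⟶ I, m ≫ u = v := by
  obtain ⟨C, g, δ, hT⟩ := distinguished_cocone_triangle m
  have hC := h.cone hT hA hB
  have hz : ∀ f : C⟦(-1 : ℤ)⟧ ⟶ I, f = 0 := by
    intro f
    let e0 : I⟦(0 : ℤ)⟧ ≅ I := (shiftFunctorZero D ℤ).app I
    rw [← cancel_mono e0.inv, shift_hom_zero (c := 1) (b := -1) (by ring) (hI C hC) (f ≫ e0.inv), zero_comp]
  obtain ⟨u, hu⟩ := Triangle.yoneda_exact₂ _ (inv_rot_of_distTriang _ hT) v (hz _)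
  exact ⟨u, hu.symm⟩

/-- the heart is closed under extensions -/
theorem heart_ext {A B C : D} {f : A ⟶ B} {g : B ⟶ C} {h : C ⟶ A⟦(1 : ℤ)⟧}
    (hT : Triangle.mk f g h ∈ distTriang D) (hA : t.heart A) (hC : t.heart C) : t.heart B :=
  ⟨le₂ t 0 hT hA.1 hC.1, ge₂ t 0 hT hA.2 hC.2⟩

end EGr
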