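import Pool.Agent.Lib_MP_a23b08_n.NDef
import Pool.Agent.Lib_MP_a23b08_t1.Extra

/-!
# Part N: the five theorems (statements)
-/

set_option linter.unusedSectionVars false
set_option linter.unusedVariables false

open CategoryTheory CategoryTheory.Limits CategoryTheory.Triangulated CategoryTheory.Pretriangulated

universe v u

namespace EGr

variable {k : Type} [Field k] {D : Type u} [Category.{v} D] [Preadditive D] [HasZeroObject D]
  [HasShift D ℤ] [∀ n : ℤ, (shiftFunctor D n).Additive] [Pretriangulated D] [IsTriangulated D] [Linear k D]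
  {t t' : TStructure D} {ι : Type} {X X' Y : ι → D}

/-- N1 (helper91) -/
theorem nonDeg_of_stmt [IsAlgClosed k] (hN : NHyp k D) (h3 : ∀ i j : ι, ∃ l : ι, l ≠ i ∧ l ≠ j) (hX : SMList t X)
    (hY : YD k X Y) (hP : PD k X Y) : NonDeg t := sorry

/-- N2, forward (helper79) -/
theorem exch_fwd_stmt [IsAlgClosed k] [Fintype ι] (hN : NHyp k D) (hX : SMList t X) (hX' : SMList t' X') (κ : ι)
    (hM : MutData X X' κ) (hT : IsFwdTilt t (X κ) t') (hnd : NonDeg t) (hY : YD k X Y) :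
    ∃ (V E : D) (a : Y κ ⟶ E) (b : E ⟶ V) (δ : V ⟶ (Y κ)⟦(1 : ℤ)⟧), Exch k Y κ (Y κ) V a b δ ∧
      YD k (newX X' κ) (newY Y κ V) := sorry

/-- N2, backward (helper79) -/
theorem exch_bwd_stmt [IsAlgClosed k] [Fintype ι] (hN : NHyp k D) (hX : SMList t X) (hX' : SMList t' X') (κ : ι)
    (hM : MutData X X' κ) (hT : IsFwdTilt t (X κ) t') (hnd : NonDeg t') (hY : YD k X' Y) :
    ∃ (U E : D) (a : U ⟶ E) (b : E ⟶ Y κ) (δ : Y κ ⟶ U⟦(1 : ℤ)⟧), Exch k Y κ U (Y κ) a b δ ∧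
      YD k (newX X κ) (newY Y κ U) := sorry

/-- N3, forward (helper15) -/
theorem pd_fwd_stmt [IsAlgClosed k] (hN : NHyp k D) (hX : SMList t X) (hX' : SMList t' X') (κ : ι)
    (hM : MutData X X' κ) (hT : IsFwdTilt t (X κ) t') (hnd : NonDeg t) (hY : YD k X Y) (hP : PD k X Y)
    {V E : D} {a : Y κ ⟶ E} {b : E ⟶ V} {δ : V ⟶ (Y κ)⟦(1 : ℤ)⟧} (hE : Exch k Y κ (Y κ) V a b δ)
    (hY' : YD k (newX X' κ) (newY Y κ V)) : PD k (newX X' κ) (newY Y κ V) := sorry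

/-- N3, backward (helper15) -/
theorem pd_bwd_stmt [IsAlgClosed k] (hN : NHyp k D) (hX : SMList t X) (hX' : SMList t' X') (κ : ι)
    (hM : MutData X X' κ) (hT : IsFwdTilt t (X κ) t') (hnd : NonDeg t') (hY : YD k X' Y) (hP : PD k X' Y)
    {U E : D} {a : U ⟶ E} {b : E ⟶ Y κ} {δ : Y κ ⟶ U⟦(1 : ℤ)⟧} (hE : Exch k Y κ U (Y κ) a b δ)
    (hY' : YD k (newX X κ) (newY Y κ U)) : PD k (newX X κ) (newY Y κ U) := sorry

end EGr
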