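import Pool.Agent.Lib_MP_a23b08_n.NTDefs

/-!
# MP_a23b08_al, part N, transport: t-structures matched by a triangulated equivalence
-/

open CategoryTheory CategoryTheory.Limits CategoryTheory.Triangulated
  CategoryTheory.Pretriangulated

universe v u v' u' v'' u''

namespace EGr

section
variable {D : Type u} [Category.{v} D] [Preadditive D] [HasZeroObject D] [HasShift D ℤ]
  [∀ n : ℤ, (shiftFunctor D n).Additive] [Pretriangulated D]
  {D' : Type u'} [Category.{v'} D'] [Preadditive D'] [HasZeroObject D'] [HasShift D' ℤ]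
  [∀ n : ℤ, (shiftFunctor D' n).Additive] [Pretriangulated D']
  {F : D ⥤ D'} [F.CommShift ℤ]

theorem IsTrEq.isZero_iff (hF : IsTrEq F) (X : D) : IsZero (F.obj X) ↔ IsZero X := by
  have := hF.tri
  have := hF.faithful
  refine ⟨fun h => ?_, fun h => F.map_isZero h⟩
  rw [IsZero.iff_id_eq_zero] at h ⊢
  apply F.map_injective
  rw [F.map_id, F.map_zero, h]

theorem IsTrEq.map_eq_zero_iff (hF : IsTrEq F) {X Y : D} (f : X ⟶ Y) : F.map f = 0 ↔ f = 0 := by
  have := hF.tri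
  have := hF.faithful
  exact F.map_eq_zero_iff

theorem IsTrEq.homs_zero_iff (hF : IsTrEq F) {X Y : D} :
    (∀ f : X ⟶ Y, f = 0) ↔ ∀ f : F.obj X ⟶ F.obj Y, f = 0 := by
  have := hF.tri
  have := hF.full
  refine ⟨fun h f => ?_, fun h f => (hF.map_eq_zero_iff f).1 (h _)⟩
  obtain ⟨g, rfl⟩ := F.map_surjective f
  rw [h g, F.map_zero]

omit [HasZeroObject D] [Pretriangulated D] [∀ n : ℤ, (shiftFunctor D n).Additive] in
theorem homs_zero_of_iso {X Y Z : D} (e : Y ≅ Z) :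
    (∀ f : X ⟶ Y, f = 0) ↔ ∀ f : X ⟶ Z, f = 0 := by
  constructor
  · intro h f
    have := h (f ≫ e.inv)
    rw [← cancel_mono e.inv, this, zero_comp]
  · intro h f
    have := h (f ≫ e.hom)
    rw [← cancel_mono e.hom, this, zero_comp]

omit [HasZeroObject D] [Pretriangulated D] [∀ n : ℤ, (shiftFunctor D n).Additive] in
theorem homs_zero_of_iso' {X Y Z : D} (e : Y ≅ Z) :
    (∀ f : Y ⟶ X, f = 0) ↔ ∀ f : Z ⟶ X, f = 0 := by
  constructor
  · intro h f
    have := h (e.hom ≫ f)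
    rw [← cancel_epi e.hom, this, comp_zero]
  · intro h f
    have := h (e.inv ≫ f)
    rw [← cancel_epi e.inv, this, comp_zero]

theorem IsTrEq.homs_zero_shift_iff (hF : IsTrEq F) {X Y : D} (a : ℤ) :
    (∀ f : X ⟶ Y⟦a⟧, f = 0) ↔ ∀ f : F.obj X ⟶ (F.obj Y)⟦a⟧, f = 0 := by
  rw [hF.homs_zero_iff]
  exact homs_zero_of_iso ((F.commShiftIso a).app Y)

/-- lifting of a distinguished triangle with given middle term -/
theorem IsTrEq.lift_triangle (hF : IsTrEq F) {A' B' : D'} {X : D} (f' : A' ⟶ F.obj X)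
    (g' : F.obj X ⟶ B') (h' : B' ⟶ A'⟦(1 : ℤ)⟧) (hT : Triangle.mk f' g' h' ∈ distTriang D') :
    ∃ (A B : D) (_ : F.obj A ≅ A') (_ : F.obj B ≅ B') (f : A ⟶ X) (g : X ⟶ B)
      (h : B ⟶ A⟦(1 : ℤ)⟧), Triangle.mk f g h ∈ distTriang D := by
  have := hF.tri
  have := hF.full
  have := hF.faithful
  have := hF.essSurj
  let eA := F.objObjPreimageIso A'
  let eB := F.objObjPreimageIso B'
  refine ⟨_, _, eA, eB, F.preimage (eA.hom ≫ f'), F.preimage (g' ≫ eB.inv),
    F.preimage (eB.hom ≫ h' ≫ eA.inv⟦(1 : ℤ)⟧' ≫ (F.commShiftIso (1 : ℤ)).inv.app _), ?_⟩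
  rw [← F.map_distinguished_iff]
  refine isomorphic_distinguished _ hT _
    (Triangle.isoMk _ (Triangle.mk f' g' h') eA (Iso.refl (F.obj X)) eB ?_ ?_ ?_)
  · change F.map (F.preimage (eA.hom ≫ f')) ≫ 𝟙 (F.obj X) = eA.hom ≫ f'
    rw [F.map_preimage, Category.comp_id]
  · change F.map (F.preimage (g' ≫ eB.inv)) ≫ eB.hom = 𝟙 (F.obj X) ≫ g'
    rw [F.map_preimage]
    simp
  · change (F.map (F.preimage (eB.hom ≫ h' ≫ eA.inv⟦(1 : ℤ)⟧' ≫
      (F.commShiftIso (1 : ℤ)).inv.app _)) ≫ (F.commShiftIso (1 : ℤ)).hom.app _) ≫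
        eA.hom⟦(1 : ℤ)⟧' = eB.hom ≫ h'
    rw [F.map_preimage]
    simp only [Category.assoc]
    rw [Iso.inv_hom_id_app_assoc]
    change eB.hom ≫ h' ≫ eA.inv⟦(1 : ℤ)⟧' ≫ eA.hom⟦(1 : ℤ)⟧' = eB.hom ≫ h'
    rw [← Functor.map_comp, Iso.inv_hom_id, CategoryTheory.Functor.map_id, Category.comp_id]

theorem IsTrEq.map_triangle (hF : IsTrEq F) {A X B : D} {f : A ⟶ X} {g : X ⟶ B}
    {h : B ⟶ A⟦(1 : ℤ)⟧} (hT : Triangle.mk f g h ∈ distTriang D) :
    Triangle.mk (F.map f) (F.map g) (F.map h ≫ (F.commShiftIso (1 : ℤ)).hom.app A) ∈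
      distTriang D' := by
  have := hF.tri
  exact F.map_distinguished _ hT

end

section
variable {D : Type u} [Category.{v} D] [Preadditive D] [HasZeroObject D] [HasShift D ℤ]
  [∀ n : ℤ, (shiftFunctor D n).Additive] [Pretriangulated D]

theorem le_iff_shift (t : TStructure D) (n : ℤ) (X : D) : t.le n X ↔ t.le 0 (X⟦n⟧) := by
  rw [t.le_iff_isLE, t.le_iff_isLE, t.isLE_shift_iff X n n 0 (by lia)]

theorem ge_iff_shift (t : TStructure D) (n : ℤ) (X : D) : t.ge n X ↔ t.ge 0 (X⟦n⟧) := by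
  rw [t.ge_iff_isGE, t.ge_iff_isGE, t.isGE_shift_iff X n n 0 (by lia)]

theorem ge_iff_orth (t : TStructure D) (n : ℤ) (X : D) :
    t.ge n X ↔ ∀ (Y : D), t.le (n - 1) Y → ∀ f : Y ⟶ X, f = 0 := by
  rw [t.ge_iff_isGE, t.isGE_iff_orthogonal (n - 1) n (by lia)]
  exact ⟨fun h Y hY f => h Y f ⟨hY⟩, fun h Y f hY => h Y hY.le f⟩

theorem le_iff_orth (t : TStructure D) (n : ℤ) (X : D) :
    t.le n X ↔ ∀ (Y : D), t.ge (n + 1) Y → ∀ f : X ⟶ Y, f = 0 := by
  rw [t.le_iff_isLE, t.isLE_iff_orthogonal n (n + 1) rfl]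
  exact ⟨fun h Y hY f => h Y f ⟨hY⟩, fun h Y f hY => h Y hY.ge f⟩

theorem simpleIn_of_iso (t : TStructure D) {X Y : D} (e : X ≅ Y) (h : SimpleIn t X) :
    SimpleIn t Y := by
  refine ⟨t.heart.prop_of_iso e h.1, fun hY => h.2.1 (hY.of_iso e), ?_⟩
  intro A B f g k hT hA hB
  refine h.2.2 A B (f ≫ e.inv) (e.hom ≫ g) k ?_ hA hB
  refine isomorphic_distinguished _ hT _
    (Triangle.isoMk (Triangle.mk (f ≫ e.inv) (e.hom ≫ g) k) (Triangle.mk f g k)
      (Iso.refl A) e (Iso.refl B) ?_ ?_ ?_)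
  · change (f ≫ e.inv) ≫ e.hom = 𝟙 A ≫ f
    simp
  · change (e.hom ≫ g) ≫ 𝟙 B = e.hom ≫ g
    rw [Category.comp_id]
  · change k ≫ (𝟙 A)⟦(1 : ℤ)⟧' = 𝟙 B ≫ k
    simp

end

section
variable {D : Type u} [Category.{v} D] [Preadditive D] [HasZeroObject D] [HasShift D ℤ]
  [∀ n : ℤ, (shiftFunctor D n).Additive] [Pretriangulated D]
  {D' : Type u'} [Category.{v'} D'] [Preadditive D'] [HasZeroObject D'] [HasShift D' ℤ]
  [∀ n : ℤ, (shiftFunctor D' n).Additive] [Pretriangulated D']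
  {F : D ⥤ D'} [F.CommShift ℤ] {t : TStructure D} {T : TStructure D'}

theorem Corr.le (h : Corr F t T) (n : ℤ) (X : D) : t.le n X ↔ T.le n (F.obj X) := by
  rw [le_iff_shift t, le_iff_shift T, h]
  exact (T.le 0).prop_iff_of_iso ((F.commShiftIso n).app X)

theorem Corr.ge (h : Corr F t T) (hF : IsTrEq F) (n : ℤ) (X : D) :
    t.ge n X ↔ T.ge n (F.obj X) := by
  have := hF.tri
  have := hF.full
  have := hF.essSurj
  rw [ge_iff_orth t, ge_iff_orth T]
  constructor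
  · intro H Y' hY' f'
    let e := F.objObjPreimageIso Y'
    have h1 : t.le (n - 1) (F.objPreimage Y') := by
      rw [h.le]
      exact (T.le (n - 1)).prop_of_iso e.symm hY'
    obtain ⟨g, hg⟩ := F.map_surjective (e.hom ≫ f')
    have h2 := H _ h1 g
    rw [h2, F.map_zero] at hg
    rw [← cancel_epi e.hom, ← hg, comp_zero]
  · intro H Y hY f
    rw [← hF.map_eq_zero_iff]
    exact H _ ((h.le _ _).1 hY) _

theorem Corr.heart (h : Corr F t T) (hF : IsTrEq F) (X : D) :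
    t.heart X ↔ T.heart (F.obj X) := by
  change t.le 0 X ∧ t.ge 0 X ↔ T.le 0 (F.obj X) ∧ T.ge 0 (F.obj X)
  rw [h.le, h.ge hF]

theorem Corr.simple (h : Corr F t T) (hF : IsTrEq F) (X : D) :
    SimpleIn t X ↔ SimpleIn T (F.obj X) := by
  constructor
  · rintro ⟨h1, h2, h3⟩
    refine ⟨(h.heart hF X).1 h1, fun h0 => h2 ((hF.isZero_iff X).1 h0), ?_⟩
    intro A' B' f' g' k' hT hA' hB'
    obtain ⟨A, B, eA, eB, f, g, k, hT'⟩ := hF.lift_triangle f' g' k' hT
    have hA : t.heart A := (h.heart hF A).2 (T.heart.prop_of_iso eA.symm hA')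
    have hB : t.heart B := (h.heart hF B).2 (T.heart.prop_of_iso eB.symm hB')
    rcases h3 A B f g k hT' hA hB with h0 | h0
    · exact Or.inl (((hF.isZero_iff A).2 h0).of_iso eA.symm)
    · exact Or.inr (((hF.isZero_iff B).2 h0).of_iso eB.symm)
  · rintro ⟨h1, h2, h3⟩
    refine ⟨(h.heart hF X).2 h1, fun h0 => h2 ((hF.isZero_iff X).2 h0), ?_⟩
    intro A B f g k hT hA hB
    rcases h3 _ _ _ _ _ (hF.map_triangle hT) ((h.heart hF A).1 hA) ((h.heart hF B).1 hB)
      with h0 | h0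
    · exact Or.inl ((hF.isZero_iff A).1 h0)
    · exact Or.inr ((hF.isZero_iff B).1 h0)

theorem Corr.nonDeg (h : Corr F t T) (hF : IsTrEq F) (hT : NonDeg T) : NonDeg t := by
  constructor
  · intro S hS
    exact (hF.homs_zero_shift_iff 1).2 (hT.1 _ ((h.simple hF S).1 hS))
  · intro S S' hS hS'
    rcases hT.2 _ _ ((h.simple hF S).1 hS) ((h.simple hF S').1 hS') with h0 | h0
    · exact Or.inl ((hF.homs_zero_shift_iff 1).2 h0)
    · exact Or.inr ((hF.homs_zero_shift_iff 1).2 h0)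

variable {D'' : Type u''} [Category.{v''} D''] [Preadditive D''] [HasZeroObject D'']
  [HasShift D'' ℤ] [∀ n : ℤ, (shiftFunctor D'' n).Additive] [Pretriangulated D'']
  {G : D' ⥤ D''} [G.CommShift ℤ] {U : TStructure D''}

theorem IsTrEq.comp (hF : IsTrEq F) (hG : IsTrEq G) : IsTrEq (F ⋙ G) := by
  have := hF.tri
  have := hF.full
  have := hF.faithful
  have := hF.essSurj
  have := hG.tri
  have := hG.full
  have := hG.faithful
  have := hG.essSurj
  exact ⟨inferInstance, inferInstance, inferInstance, inferInstance⟩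

theorem Corr.comp (h : Corr F t T) (h' : Corr G T U) : Corr (F ⋙ G) t U := fun X => by
  rw [h X, h' (F.obj X)]
  rfl

theorem IsTrEq.id : IsTrEq (𝟭 D) :=
  ⟨inferInstance, inferInstance, inferInstance, inferInstance⟩

theorem Corr.id (t : TStructure D) : Corr (𝟭 D) t t := fun _ => Iff.rfl

theorem exists_inv_of_equivalence (E : D ≌ D') [E.functor.CommShift ℤ]
    (hE : E.functor.IsTriangulated) : ∃ (G : D' ⥤ D) (_ : G.CommShift ℤ), IsTrEq G ∧
    (∀ X, Nonempty (G.obj (E.functor.obj X) ≅ X)) ∧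
      ∀ Y, Nonempty (E.functor.obj (G.obj Y) ≅ Y) := by
  letI := E.commShiftInverse ℤ
  have : E.CommShift ℤ := E.commShift_of_functor ℤ
  have : E.IsTriangulated := Equivalence.IsTriangulated.mk' E hE
  exact ⟨E.inverse, inferInstance, ⟨inferInstance, inferInstance, inferInstance,
    inferInstance⟩, fun X => ⟨(E.unitIso.app X).symm⟩, fun Y => ⟨E.counitIso.app Y⟩⟩

/-- a triangulated equivalence has a triangulated quasi-inverse -/
theorem IsTrEq.exists_inv (hF : IsTrEq F) : ∃ (G : D' ⥤ D) (_ : G.CommShift ℤ), IsTrEq G ∧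
    (∀ X, Nonempty (G.obj (F.obj X) ≅ X)) ∧ ∀ Y, Nonempty (F.obj (G.obj Y) ≅ Y) := by
  have := hF.full
  have := hF.faithful
  have := hF.essSurj
  have : F.IsEquivalence := {}
  have h := @exists_inv_of_equivalence D _ _ _ _ _ _ D' _ _ _ _ _ _ F.asEquivalence
    (show F.CommShift ℤ from inferInstance) hF.tri
  exact h

/-- the quasi-inverse matches as well -/
theorem Corr.inv (h : Corr F t T) {G : D' ⥤ D} (hG : ∀ Y, Nonempty (F.obj (G.obj Y) ≅ Y)) :
    Corr G T t := fun Y => by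
  obtain ⟨e⟩ := hG Y
  rw [h (G.obj Y)]
  exact (T.le 0).prop_iff_of_iso e.symm

/-- two t-structures with matched coaisles are matched -/
theorem corr_of_ge (hF : IsTrEq F) (h : ∀ X, t.ge 0 X ↔ T.ge 0 (F.obj X)) : Corr F t T := by
  have := hF.tri
  have := hF.full
  have := hF.essSurj
  have h1 : ∀ X, t.ge 1 X ↔ T.ge 1 (F.obj X) := fun X => by
    rw [ge_iff_shift t, ge_iff_shift T, h]
    exact (T.ge 0).prop_iff_of_iso ((F.commShiftIso (1 : ℤ)).app X)
  intro X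
  rw [le_iff_orth t, le_iff_orth T]
  constructor
  · intro H Y' hY' f'
    let e := F.objObjPreimageIso Y'
    have h2 : t.ge (0 + 1) (F.objPreimage Y') := by
      rw [zero_add, h1]
      exact (T.ge 1).prop_of_iso e.symm (by rwa [zero_add] at hY')
    obtain ⟨g, hg⟩ := F.map_surjective (f' ≫ e.inv)
    have h3 := H _ h2 g
    rw [h3, F.map_zero] at hg
    rw [← cancel_mono e.inv, ← hg, zero_comp]
  · intro H Y hY f
    rw [← hF.map_eq_zero_iff]
    refine H _ ?_ _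
    rw [zero_add] at hY ⊢
    exact (h1 Y).1 hY

end

end EGr
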