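import Pool.Agent.Lib_MP_a23b08_n.NT1

/-!
# MP_a23b08_al, part N, transport: full faithfulness by devissage
-/

open CategoryTheory CategoryTheory.Limits CategoryTheory.Triangulated
  CategoryTheory.Pretriangulated

universe v u v' u'

namespace EGr

section
variable {D : Type u} [Category.{v} D] [Preadditive D] [HasZeroObject D] [HasShift D ℤ]
  [∀ n : ℤ, (shiftFunctor D n).Additive] [Pretriangulated D]
  {D' : Type u'} [Category.{v'} D'] [Preadditive D'] [HasZeroObject D'] [HasShift D' ℤ]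
  [∀ n : ℤ, (shiftFunctor D' n).Additive] [Pretriangulated D']
  (R : D ⥤ D') [R.CommShift ℤ]

/-- `R` is bijective on the morphisms `X ⟶ Z` -/
def Bij (X Z : D) : Prop := Function.Bijective (fun f : X ⟶ Z => R.map f)

variable {R}

omit [Preadditive D] [HasZeroObject D] [HasShift D ℤ] [∀ n : ℤ, (shiftFunctor D n).Additive]
  [Pretriangulated D] [Preadditive D'] [HasZeroObject D'] [HasShift D' ℤ]
  [∀ n : ℤ, (shiftFunctor D' n).Additive] [Pretriangulated D'] [R.CommShift ℤ] in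
theorem Bij.of_iso {X X' Z Z' : D} (h : Bij R X Z) (e : X ≅ X') (e' : Z ≅ Z') : Bij R X' Z' := by
  constructor
  · intro f g hfg
    have h1 : R.map (e.hom ≫ f ≫ e'.inv) = R.map (e.hom ≫ g ≫ e'.inv) := by
      simp only [R.map_comp]
      rw [show R.map f = R.map g from hfg]
    have h2 := h.1 h1
    rwa [cancel_epi, cancel_mono] at h2
  · intro f
    obtain ⟨g, hg⟩ := h.2 (R.map e.hom ≫ f ≫ R.map e'.inv)
    refine ⟨e.inv ≫ g ≫ e'.hom, ?_⟩
    have hg' : R.map g = R.map e.hom ≫ f ≫ R.map e'.inv := hg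
    change R.map (e.inv ≫ g ≫ e'.hom) = f
    simp only [R.map_comp, hg', Category.assoc]
    rw [← R.map_comp_assoc, e.inv_hom_id, ← R.map_comp, e'.inv_hom_id]
    simp

theorem Bij.shift {X Z : D} (h : Bij R X Z) (a : ℤ) : Bij R (X⟦a⟧) (Z⟦a⟧) := by
  have key : ∀ f : X ⟶ Z, R.map (f⟦a⟧') = (R.commShiftIso a).hom.app X ≫ (R.map f)⟦a⟧' ≫
      (R.commShiftIso a).inv.app Z := by
    intro f
    have := (R.commShiftIso a).hom.naturality f
    change R.map (f⟦a⟧') ≫ (R.commShiftIso a).hom.app Z =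
      (R.commShiftIso a).hom.app X ≫ (R.map f)⟦a⟧' at this
    rw [← reassoc_of% this]
    rw [Iso.hom_inv_id_app]
    exact (Category.comp_id _).symm
  constructor
  · intro f g hfg
    obtain ⟨f, rfl⟩ := (shiftFunctor D a).map_surjective f
    obtain ⟨g, rfl⟩ := (shiftFunctor D a).map_surjective g
    have h1 : R.map (f⟦a⟧') = R.map (g⟦a⟧') := hfg
    rw [key, key, cancel_epi, cancel_mono] at h1
    have h2 := h.1 ((shiftFunctor D' a).map_injective h1)
    rw [h2]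
  · intro f
    obtain ⟨g, hg⟩ := (shiftFunctor D' a).map_surjective
      ((R.commShiftIso a).inv.app X ≫ f ≫ (R.commShiftIso a).hom.app Z)
    obtain ⟨k, hk⟩ := h.2 g
    refine ⟨k⟦a⟧', ?_⟩
    have hk' : R.map k = g := hk
    change R.map (k⟦a⟧') = f
    rw [key, hk', hg]
    simp only [Category.assoc]
    rw [Iso.hom_inv_id_app_assoc, Iso.hom_inv_id_app]
    exact Category.comp_id _

theorem bij_mid [hR : R.IsTriangulated] {A X B Z : D} {f : A ⟶ X} {g : X ⟶ B}
    {h : B ⟶ A⟦(1 : ℤ)⟧} (hT : Triangle.mk f g h ∈ distTriang D) (hA : Bij R A Z)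
    (hA1 : Bij R (A⟦(1 : ℤ)⟧) Z) (hB : Bij R B Z) (hB1 : Bij R (B⟦(-1 : ℤ)⟧) Z) :
    Bij R X Z := by
  have hT' := R.map_distinguished _ hT
  have hTr := rot_of_distTriang _ hT
  have hTr' := R.map_distinguished _ hTr
  obtain ⟨i, j, hTi⟩ : ∃ (i : B⟦(-1 : ℤ)⟧ ⟶ A) (j : X ⟶ B⟦(-1 : ℤ)⟧⟦(1 : ℤ)⟧),
      Triangle.mk i f j ∈ distTriang D := ⟨_, _, inv_rot_of_distTriang _ hT⟩
  have inj : ∀ u : X ⟶ Z, R.map u = 0 → u = 0 := by
    intro u hu
    have h1 : f ≫ u = 0 := hA.1 (by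
      change R.map (f ≫ u) = R.map 0
      rw [R.map_comp, hu, comp_zero, R.map_zero])
    obtain ⟨b, hb'⟩ : ∃ b : B ⟶ Z, u = g ≫ b := Triangle.yoneda_exact₂ _ hT u h1
    obtain ⟨k', hk'⟩ := Triangle.yoneda_exact₂ _ hTr' (R.map b) (by
      change R.map g ≫ R.map b = 0
      rw [← R.map_comp, ← hb', hu])
    obtain ⟨k, hk⟩ := hA1.2 k'
    have h2 : b = h ≫ k := hB.1 (by
      change R.map b = R.map (h ≫ k)
      rw [R.map_comp, show R.map k = k' from hk]
      exact hk')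
    rw [hb', h2, ← Category.assoc]
    have h3 : g ≫ h = 0 := comp_distTriang_mor_zero₂₃ _ hT
    rw [h3, zero_comp]
  constructor
  · intro u w huw
    rw [← sub_eq_zero]
    apply inj
    rw [R.map_sub, show R.map u = R.map w from huw, sub_self]
  · intro u'
    obtain ⟨a, ha⟩ := hA.2 (R.map f ≫ u')
    have ha' : R.map a = R.map f ≫ u' := ha
    have h1 : i ≫ a = 0 := hB1.1 (by
      change R.map (i ≫ a) = R.map 0
      rw [R.map_comp, ha', ← R.map_comp_assoc]
      have h3 : i ≫ f = 0 := comp_distTriang_mor_zero₁₂ _ hTi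
      rw [h3, R.map_zero, zero_comp, R.map_zero])
    obtain ⟨b, hb'⟩ : ∃ b : X ⟶ Z, a = f ≫ b := Triangle.yoneda_exact₂ _ hTi a h1
    obtain ⟨c', hc2⟩ : ∃ c' : R.obj B ⟶ R.obj Z, u' - R.map b = R.map g ≫ c' :=
      Triangle.yoneda_exact₂ _ hT' (u' - R.map b) (by
      change R.map f ≫ (u' - R.map b) = 0
      rw [Preadditive.comp_sub, ← ha', hb', R.map_comp, sub_self])
    obtain ⟨c, hc⟩ := hB.2 c'
    refine ⟨b + g ≫ c, ?_⟩
    change R.map (b + g ≫ c) = u'
    rw [R.map_add, R.map_comp, show R.map c = c' from hc, ← hc2, add_sub_cancel]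

theorem bij_mid' [hR : R.IsTriangulated] {A X B W : D} {f : A ⟶ X} {g : X ⟶ B}
    {h : B ⟶ A⟦(1 : ℤ)⟧} (hT : Triangle.mk f g h ∈ distTriang D) (hA : Bij R W A)
    (hA1 : Bij R W (A⟦(1 : ℤ)⟧)) (hB : Bij R W B) (hB1 : Bij R W (B⟦(-1 : ℤ)⟧)) :
    Bij R W X := by
  have hT' := R.map_distinguished _ hT
  obtain ⟨i, j, hTi⟩ : ∃ (i : B⟦(-1 : ℤ)⟧ ⟶ A) (j : X ⟶ B⟦(-1 : ℤ)⟧⟦(1 : ℤ)⟧),
      Triangle.mk i f j ∈ distTriang D := ⟨_, _, inv_rot_of_distTriang _ hT⟩
  have hTi' := R.map_distinguished _ hTi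
  have inj : ∀ u : W ⟶ X, R.map u = 0 → u = 0 := by
    intro u hu
    have h1 : u ≫ g = 0 := hB.1 (by
      change R.map (u ≫ g) = R.map 0
      rw [R.map_comp, hu, zero_comp, R.map_zero])
    obtain ⟨a, ha'⟩ : ∃ a : W ⟶ A, u = a ≫ f := Triangle.coyoneda_exact₂ _ hT u h1
    obtain ⟨k', hk'⟩ := Triangle.coyoneda_exact₂ _ hTi' (R.map a) (by
      change R.map a ≫ R.map f = 0
      rw [← R.map_comp, ← ha', hu])
    obtain ⟨k, hk⟩ := hB1.2 k'
    have h2 : a = k ≫ i := hA.1 (by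
      change R.map a = R.map (k ≫ i)
      rw [R.map_comp, show R.map k = k' from hk]
      exact hk')
    rw [ha', h2, Category.assoc]
    have h3 : i ≫ f = 0 := comp_distTriang_mor_zero₁₂ _ hTi
    rw [h3, comp_zero]
  constructor
  · intro u w huw
    rw [← sub_eq_zero]
    apply inj
    rw [R.map_sub, show R.map u = R.map w from huw, sub_self]
  · intro u'
    obtain ⟨b, hb⟩ := hB.2 (u' ≫ R.map g)
    have hb' : R.map b = u' ≫ R.map g := hb
    have h1 : b ≫ h = 0 := hA1.1 (by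
      change R.map (b ≫ h) = R.map 0
      have h3 : g ≫ h = 0 := comp_distTriang_mor_zero₂₃ _ hT
      rw [R.map_comp, hb', Category.assoc, ← R.map_comp, h3, R.map_zero, R.map_zero,
        comp_zero])
    obtain ⟨c, hc'⟩ : ∃ c : W ⟶ X, b = c ≫ g := Triangle.coyoneda_exact₃ _ hT b h1
    obtain ⟨a', ha2⟩ : ∃ a' : R.obj W ⟶ R.obj A, u' - R.map c = a' ≫ R.map f :=
      Triangle.coyoneda_exact₂ _ hT' (u' - R.map c) (by
      change (u' - R.map c) ≫ R.map g = 0
      rw [Preadditive.sub_comp, ← hb', hc', R.map_comp, sub_self])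
    obtain ⟨a, ha⟩ := hA.2 a'
    refine ⟨c + a ≫ f, ?_⟩
    change R.map (c + a ≫ f) = u'
    rw [R.map_add, R.map_comp, show R.map a = a' from ha, ← ha2, add_sub_cancel]

/-- bijectivity for all shifts -/
def BB (R : D ⥤ D') (X Z : D) : Prop := ∀ a b : ℤ, Bij R (X⟦a⟧) (Z⟦b⟧)

theorem BB.of_all {X Z : D} (h : ∀ m : ℤ, Bij R X (Z⟦m⟧)) : BB R X Z := by
  intro a b
  refine ((h (b - a)).shift a).of_iso (Iso.refl _) ?_
  exact ((shiftFunctorAdd' D (b - a) a b (by lia)).app Z).symm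

omit [HasZeroObject D] [∀ n : ℤ, (shiftFunctor D n).Additive]
  [Pretriangulated D] [Preadditive D'] [HasZeroObject D'] [HasShift D' ℤ]
  [∀ n : ℤ, (shiftFunctor D' n).Additive] [Pretriangulated D'] [R.CommShift ℤ]
  [Preadditive D] in
theorem BB.of_iso {X X' Z Z' : D} (h : BB R X Z) (e : X ≅ X') (e' : Z ≅ Z') : BB R X' Z' :=
  fun a b => (h a b).of_iso ((shiftFunctor D a).mapIso e) ((shiftFunctor D b).mapIso e')

omit [HasZeroObject D] [∀ n : ℤ, (shiftFunctor D n).Additive]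
  [Pretriangulated D] [Preadditive D'] [HasZeroObject D'] [HasShift D' ℤ]
  [∀ n : ℤ, (shiftFunctor D' n).Additive] [Pretriangulated D'] [R.CommShift ℤ]
  [Preadditive D] in
theorem BB.shift_left {X Z : D} (h : BB R X Z) (m : ℤ) : BB R (X⟦m⟧) Z :=
  fun a b => (h (m + a) b).of_iso ((shiftFunctorAdd D m a).app X) (Iso.refl _)

omit [HasZeroObject D] [∀ n : ℤ, (shiftFunctor D n).Additive]
  [Pretriangulated D] [Preadditive D'] [HasZeroObject D'] [HasShift D' ℤ]
  [∀ n : ℤ, (shiftFunctor D' n).Additive] [Pretriangulated D'] [R.CommShift ℤ]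
  [Preadditive D] in
theorem BB.shift_right {X Z : D} (h : BB R X Z) (m : ℤ) : BB R X (Z⟦m⟧) :=
  fun a b => (h a (m + b)).of_iso (Iso.refl _) ((shiftFunctorAdd D m b).app Z)

omit [HasZeroObject D] [Pretriangulated D] [∀ n : ℤ, (shiftFunctor D n).Additive]
  [HasZeroObject D'] [Pretriangulated D'] [∀ n : ℤ, (shiftFunctor D' n).Additive]
  [R.CommShift ℤ] [HasShift D ℤ] [HasShift D' ℤ] in
theorem bij_zero_left [R.PreservesZeroMorphisms] {X Z : D} (hX : IsZero X) : Bij R X Z := by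
  constructor
  · intro f g _
    exact hX.eq_of_src _ _
  · intro f
    exact ⟨0, (R.map_isZero hX).eq_of_src _ _⟩

omit [HasZeroObject D] [Pretriangulated D] [∀ n : ℤ, (shiftFunctor D n).Additive]
  [HasZeroObject D'] [Pretriangulated D'] [∀ n : ℤ, (shiftFunctor D' n).Additive]
  [R.CommShift ℤ] [HasShift D ℤ] [HasShift D' ℤ] in
theorem bij_zero_right [R.PreservesZeroMorphisms] {X Z : D} (hZ : IsZero Z) : Bij R X Z := by
  constructor
  · intro f g _
    exact hZ.eq_of_tgt _ _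
  · intro f
    exact ⟨0, (R.map_isZero hZ).eq_of_tgt _ _⟩

/-- devissage in the first variable -/
theorem bb_filt_left [hR : R.IsTriangulated] {P : D → Prop} {Z : D} (hP : ∀ W, P W → BB R W Z)
    {X : D} (hX : Filt P X) : BB R X Z := by
  induction hX with
  | zero X h0 => exact fun a b => bij_zero_left ((shiftFunctor D a).map_isZero h0)
  | ext A X B f g h hT _ hB ih =>
    intro a b
    have hTa := Triangle.shift_distinguished _ hT a
    refine bij_mid (f := ((Triangle.shiftFunctor D a).obj (Triangle.mk f g h)).mor₁)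
      (g := ((Triangle.shiftFunctor D a).obj (Triangle.mk f g h)).mor₂)
      (h := ((Triangle.shiftFunctor D a).obj (Triangle.mk f g h)).mor₃) hTa (ih a b)
      ((ih (a + 1) b).of_iso ((shiftFunctorAdd D a 1).app A) (Iso.refl _)) (hP B hB a b)
      (((hP B hB) (a + (-1)) b).of_iso ((shiftFunctorAdd D a (-1)).app B) (Iso.refl _))

/-- devissage in the second variable -/
theorem bb_filt_right [hR : R.IsTriangulated] {P : D → Prop} {X : D} (hP : ∀ W, P W → BB R X W)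
    {Z : D} (hZ : Filt P Z) : BB R X Z := by
  induction hZ with
  | zero Z h0 => exact fun a b => bij_zero_right ((shiftFunctor D b).map_isZero h0)
  | ext A Z B f g h hT _ hB ih =>
    intro a b
    have hTb := Triangle.shift_distinguished _ hT b
    refine bij_mid' (f := ((Triangle.shiftFunctor D b).obj (Triangle.mk f g h)).mor₁)
      (g := ((Triangle.shiftFunctor D b).obj (Triangle.mk f g h)).mor₂)
      (h := ((Triangle.shiftFunctor D b).obj (Triangle.mk f g h)).mor₃) hTb (ih a b)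
      ((ih a (b + 1)).of_iso (Iso.refl _) ((shiftFunctorAdd D b 1).app A)) (hP B hB a b)
      (((hP B hB) a (b + (-1))).of_iso (Iso.refl _) ((shiftFunctorAdd D b (-1)).app B))

/-- A triangulated functor which is bijective on `Hom(Y l, (Y j)[m])` is fully faithful if all
objects are iterated extensions of shifts of the `Y j`. -/
theorem full_faithful_of_gen (hR : R.IsTriangulated) {n : ℕ} (Y : Fin n → D)
    (hgen : ∀ Z, Filt (fun W => ∃ (j : Fin n) (m : ℤ), Nonempty (W ≅ (Y j)⟦m⟧)) Z)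
    (hbij : ∀ l j (m : ℤ), Function.Bijective (fun f : Y l ⟶ (Y j)⟦m⟧ => R.map f)) :
    R.Full ∧ R.Faithful := by
  have h1 : ∀ l j, BB R (Y l) (Y j) := fun l j => BB.of_all (hbij l j)
  have h2 : ∀ X j, BB R X (Y j) := fun X j => bb_filt_left (fun W hW => by
    obtain ⟨l, m, ⟨e⟩⟩ := hW
    exact ((h1 l j).shift_left m).of_iso e.symm (Iso.refl _)) (hgen X)
  have h3 : ∀ X Z, BB R X Z := fun X Z => bb_filt_right (fun W hW => by
    obtain ⟨l, m, ⟨e⟩⟩ := hW
    exact ((h2 X l).shift_right m).of_iso (Iso.refl _) e.symm) (hgen Z)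
  have h4 : ∀ X Z : D, Bij R X Z := fun X Z =>
    (h3 X Z 0 0).of_iso ((shiftFunctorZero D ℤ).app X) ((shiftFunctorZero D ℤ).app Z)
  exact ⟨⟨fun f => (h4 _ _).2 f⟩, ⟨fun h => (h4 _ _).1 h⟩⟩

/-- A fully faithful triangulated functor is essentially surjective if its image contains
generators up to shift. -/
theorem essSurj_of_gen (hR : R.IsTriangulated) (hf : R.Full) (hff : R.Faithful) {P : D' → Prop}
    (hgen : ∀ Z, Filt P Z) (hP : ∀ W, P W → ∃ X, Nonempty (R.obj X ≅ W)) : R.EssSurj := by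
  refine ⟨fun Z => ?_⟩
  have h : ∃ X, Nonempty (R.obj X ≅ Z) := by
    have hZ := hgen Z
    induction hZ with
    | zero Z h0 =>
      obtain ⟨O, hO⟩ := HasZeroObject.zero (C := D)
      exact ⟨O, ⟨(R.map_isZero hO).iso h0⟩⟩
    | ext A Z B f g h hT _ hB ih =>
      obtain ⟨A₀, ⟨eA⟩⟩ := ih
      obtain ⟨B₀, ⟨eB⟩⟩ := hP B hB
      obtain ⟨X, u, w, hX⟩ := distinguished_cocone_triangle₂
        (R.preimage (eB.hom ≫ h ≫ eA.inv⟦(1 : ℤ)⟧' ≫ (R.commShiftIso (1 : ℤ)).inv.app A₀))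
      have hX' := R.map_distinguished _ hX
      refine ⟨X, ⟨?_⟩⟩
      have comm : (R.mapTriangle.obj (Triangle.mk u w (R.preimage (eB.hom ≫ h ≫
          eA.inv⟦(1 : ℤ)⟧' ≫ (R.commShiftIso (1 : ℤ)).inv.app A₀)))).mor₃ ≫ eA.hom⟦(1 : ℤ)⟧' =
          eB.hom ≫ (Triangle.mk f g h).mor₃ := by
        change (R.map (R.preimage (eB.hom ≫ h ≫ eA.inv⟦(1 : ℤ)⟧' ≫
          (R.commShiftIso (1 : ℤ)).inv.app A₀)) ≫ (R.commShiftIso (1 : ℤ)).hom.app A₀) ≫
            eA.hom⟦(1 : ℤ)⟧' = eB.hom ≫ h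
        rw [R.map_preimage]
        simp only [Category.assoc]
        rw [Iso.inv_hom_id_app_assoc]
        change eB.hom ≫ h ≫ eA.inv⟦(1 : ℤ)⟧' ≫ eA.hom⟦(1 : ℤ)⟧' = eB.hom ≫ h
        rw [← Functor.map_comp, Iso.inv_hom_id, CategoryTheory.Functor.map_id, Category.comp_id]
      exact Triangle.π₂.mapIso (isoTriangleOfIso₁₃ _ _ hX' hT eA eB comm)
  obtain ⟨X, ⟨e⟩⟩ := h
  exact ⟨X, ⟨e⟩⟩

end

end EGr
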