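import Pool.Agent.Lib_MP_a23b08_n.NT1

/-!
# MP_a23b08_al, part N, transport: bijectivity on the Hom spaces between shifts of simple objects
-/

open CategoryTheory CategoryTheory.Limits CategoryTheory.Triangulated
  CategoryTheory.Pretriangulated

universe v u v' u'

namespace EGr

section
variable (D : Type u) [Category.{v} D] [Preadditive D] [HasShift D ℤ]

/-- non-degeneracy on one side of the pairing `Hom(X, Z) × Hom(Z, X[3]) → Hom(X, X[3])` -/
def PairND : Prop :=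
  ∀ (X Z : D) (f : X ⟶ Z), f ≠ 0 → ∃ g : Z ⟶ X⟦(3 : ℤ)⟧, f ≫ g ≠ 0

end

section
variable (k : Type) [Field k] {D : Type u} [Category.{v} D] [Preadditive D] [HasShift D ℤ]
  [Linear k D]

/-- the Hom spaces in degrees `≤ 0` between the members of a list of simple objects -/
structure HomTab {n : ℕ} (Y : Fin n → D) : Prop where
  neg : ∀ l j (m : ℤ), m < 0 → ∀ f : Y l ⟶ (Y j)⟦m⟧, f = 0
  off : ∀ l j, l ≠ j → ∀ f : Y l ⟶ Y j, f = 0
  one : ∀ l, Module.finrank k (Y l ⟶ Y l) = 1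

variable {k}

omit [HasShift D ℤ] in
theorem finrank_hom_eq_zero {X Z : D} (h : ∀ f : X ⟶ Z, f = 0) :
    Module.finrank k (X ⟶ Z) = 0 := by
  have : Subsingleton (X ⟶ Z) := ⟨fun f g => by rw [h f, h g]⟩
  exact Module.finrank_zero_of_subsingleton

omit [HasShift D ℤ] in
theorem finrank_hom_congr {X Z X' Z' : D} (e : X ≅ X') (e' : Z ≅ Z') :
    Module.finrank k (X ⟶ Z) = Module.finrank k (X' ⟶ Z') :=
  (Linear.homCongr k e e').finrank_eq

theorem HomTab.zero {n : ℕ} {Y : Fin n → D} (h : HomTab k Y) (l j : Fin n) :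
    Module.finrank k (Y l ⟶ (Y j)⟦(0 : ℤ)⟧) = if l = j then 1 else 0 := by
  rw [finrank_hom_congr (Iso.refl (Y l)) ((shiftFunctorZero D ℤ).app (Y j))]
  change Module.finrank k (Y l ⟶ Y j) = _
  split_ifs with hlj
  · subst hlj
    exact h.one l
  · exact finrank_hom_eq_zero (h.off l j hlj)

end

section
variable {k : Type} [Field k] {D : Type u} [Category.{v} D] [Preadditive D] [HasZeroObject D]
  [HasShift D ℤ] [∀ n : ℤ, (shiftFunctor D n).Additive] [Pretriangulated D] [Linear k D]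
  {D' : Type u'} [Category.{v'} D'] [Preadditive D'] [HasZeroObject D'] [HasShift D' ℤ]
  [∀ n : ℤ, (shiftFunctor D' n).Additive] [Pretriangulated D'] [Linear k D']
  {R : D ⥤ D'} [R.CommShift ℤ]

/-- the dimensions of the Hom spaces between shifts are determined by those in degree one -/
theorem finrank_eq_of_tab (hCY : CY3 k D) (hCY' : CY3 k D') {n : ℕ} {Y : Fin n → D}
    {Y' : Fin n → D'} (hY : HomTab k Y) (hY' : HomTab k Y')
    (h1 : ∀ l j, Module.finrank k (Y l ⟶ (Y j)⟦(1 : ℤ)⟧) =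
      Module.finrank k (Y' l ⟶ (Y' j)⟦(1 : ℤ)⟧)) (l j : Fin n) (m : ℤ) :
    Module.finrank k (Y l ⟶ (Y j)⟦m⟧) = Module.finrank k (Y' l ⟶ (Y' j)⟦m⟧) := by
  rcases lt_or_ge m 0 with hm | hm
  · rw [finrank_hom_eq_zero (hY.neg l j m hm), finrank_hom_eq_zero (hY'.neg l j m hm)]
  rcases lt_or_ge 3 m with hm3 | hm3
  · rw [hCY.cy, hCY'.cy, finrank_hom_eq_zero (hY.neg j l _ (by lia)),
      finrank_hom_eq_zero (hY'.neg j l _ (by lia))]
  obtain rfl | rfl | rfl | rfl : m = 0 ∨ m = 1 ∨ m = 2 ∨ m = 3 := by lia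
  · rw [hY.zero, hY'.zero]
  · exact h1 l j
  · rw [hCY.cy, hCY'.cy]
    exact h1 j l
  · rw [hCY.cy, hCY'.cy]
    exact (hY.zero j l).trans (hY'.zero j l).symm

theorem map_injective_of_tab (hR : R.Additive) (hlin : R.Linear k) (hCY : CY3 k D)
    (hp : PairND D) {n : ℕ} {Y : Fin n → D} (hY : HomTab k Y)
    (h3 : ∀ j, ∃ f : Y j ⟶ (Y j)⟦(3 : ℤ)⟧, R.map f ≠ 0) (l : Fin n) (Z : D) :
    Function.Injective (fun f : Y l ⟶ Z => R.map f) := by
  have key : ∀ f : Y l ⟶ (Y l)⟦(3 : ℤ)⟧, R.map f = 0 → f = 0 := by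
    intro f hf
    obtain ⟨g, hg⟩ := h3 l
    have hg0 : g ≠ 0 := fun h => hg (by rw [h, R.map_zero])
    have hd : Module.finrank k (Y l ⟶ (Y l)⟦(3 : ℤ)⟧) = 1 := by
      rw [hCY.cy]
      exact (hY.zero l l).trans (if_pos rfl)
    obtain ⟨c, rfl⟩ := (finrank_eq_one_iff_of_nonzero' g hg0).1 hd f
    rw [R.map_smul] at hf
    rcases smul_eq_zero.1 hf with h | h
    · rw [h, zero_smul]
    · exact absurd h hg
  intro f f' hff
  by_contra hne
  have hne' : f - f' ≠ 0 := sub_ne_zero.2 hne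
  obtain ⟨g, hg⟩ := hp _ _ (f - f') hne'
  apply hg
  apply key
  rw [R.map_comp, R.map_sub, show R.map f = R.map f' from hff, sub_self, zero_comp]

/-- bijectivity on all `Hom(Y l, (Y j)[m])` -/
theorem bij_of_tab (hR : R.Additive) (hlin : R.Linear k) (hCY : CY3 k D) (hCY' : CY3 k D')
    (hp : PairND D) {n : ℕ} {Y : Fin n → D} {Y' : Fin n → D'} (hY : HomTab k Y)
    (hY' : HomTab k Y') (e : ∀ j, Nonempty (R.obj (Y j) ≅ Y' j))
    (h3 : ∀ j, ∃ f : Y j ⟶ (Y j)⟦(3 : ℤ)⟧, R.map f ≠ 0) (B : Fin n → Fin n → ℤ)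
    (hB : ∀ l j, (Module.finrank k (Y l ⟶ (Y j)⟦(1 : ℤ)⟧) : ℤ) -
      Module.finrank k (Y j ⟶ (Y l)⟦(1 : ℤ)⟧) = B l j)
    (hB' : ∀ l j, (Module.finrank k (Y' l ⟶ (Y' j)⟦(1 : ℤ)⟧) : ℤ) = max (B l j) 0)
    (l j : Fin n) (m : ℤ) : Function.Bijective (fun f : Y l ⟶ (Y j)⟦m⟧ => R.map f) := by
  have hfr : ∀ l j (m : ℤ), Module.finrank k (R.obj (Y l) ⟶ R.obj ((Y j)⟦m⟧)) =
      Module.finrank k (Y' l ⟶ (Y' j)⟦m⟧) := by
    intro l j m
    obtain ⟨el⟩ := e l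
    obtain ⟨ej⟩ := e j
    exact finrank_hom_congr el ((R.commShiftIso m).app (Y j) ≪≫
      (shiftFunctor D' m).mapIso ej)
  have hinj : ∀ l (Z : D), Function.Injective (fun f : Y l ⟶ Z => R.map f) :=
    map_injective_of_tab hR hlin hCY hp hY h3
  have hle : ∀ l j, Module.finrank k (Y l ⟶ (Y j)⟦(1 : ℤ)⟧) ≤
      Module.finrank k (Y' l ⟶ (Y' j)⟦(1 : ℤ)⟧) := by
    intro l j
    rw [← hfr]
    have := hCY'.fin (R.obj (Y l)) (R.obj ((Y j)⟦(1 : ℤ)⟧))
    exact LinearMap.finrank_le_finrank_of_injective (f := R.mapLinearMap k) (hinj l _)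
  have h1 : ∀ l j, Module.finrank k (Y l ⟶ (Y j)⟦(1 : ℤ)⟧) =
      Module.finrank k (Y' l ⟶ (Y' j)⟦(1 : ℤ)⟧) := by
    intro l j
    have a1 := hle l j
    have a2 := hle j l
    have a3 := hB l j
    have a4 := hB j l
    have a5 := hB' l j
    have a6 := hB' j l
    have a7 : B j l = - B l j := by rw [← a3, ← a4]; ring
    rw [a7] at a6
    rcases le_total 0 (B l j) with h | h
    · rw [max_eq_left h] at a5
      rw [max_eq_right (by lia)] at a6
      lia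
    · rw [max_eq_right h] at a5
      lia
  have hdim := finrank_eq_of_tab hCY hCY' hY hY' h1 l j m
  rw [← hfr] at hdim
  have f1 := hCY.fin (Y l) ((Y j)⟦m⟧)
  have f2 := hCY'.fin (R.obj (Y l)) (R.obj ((Y j)⟦m⟧))
  refine ⟨hinj l _, ?_⟩
  exact (LinearMap.injective_iff_surjective_of_finrank_eq_finrank
    (f := R.mapLinearMap k) hdim).1 (hinj l _)

end

end EGr
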