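import Pool.Agent.Lib_MP_a23b08_n.NT1

/-!
# MP_a23b08_al, part N, transport: matching t-structures through their simple objects
-/

open CategoryTheory CategoryTheory.Limits CategoryTheory.Triangulated
  CategoryTheory.Pretriangulated

universe v u v' u'

namespace EGr

section
variable {D : Type u} [Category.{v} D] [Preadditive D] [HasZeroObject D] [HasShift D ℤ]
  [∀ n : ℤ, (shiftFunctor D n).Additive] [Pretriangulated D]
  {D' : Type u'} [Category.{v'} D'] [Preadditive D'] [HasZeroObject D'] [HasShift D' ℤ]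
  [∀ n : ℤ, (shiftFunctor D' n).Additive] [Pretriangulated D']
  {R : D ⥤ D'} [R.CommShift ℤ]

theorem le_of_isZero (t : TStructure D) (n : ℤ) {X : D} (hX : IsZero X) : t.le n X := by
  rw [le_iff_orth]
  exact fun Y _ f => hX.eq_of_src _ _

theorem ge_of_isZero (t : TStructure D) (n : ℤ) {X : D} (hX : IsZero X) : t.ge n X := by
  rw [ge_iff_orth]
  exact fun Y _ f => hX.eq_of_tgt _ _

theorem le_mid (t : TStructure D) (n : ℤ) {A X B : D} {f : A ⟶ X} {g : X ⟶ B}
    {h : B ⟶ A⟦(1 : ℤ)⟧} (hT : Triangle.mk f g h ∈ distTriang D) (hA : t.le n A)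
    (hB : t.le n B) : t.le n X :=
  (t.isLE₂ _ hT n ⟨hA⟩ ⟨hB⟩).le

theorem ge_mid (t : TStructure D) (n : ℤ) {A X B : D} {f : A ⟶ X} {g : X ⟶ B}
    {h : B ⟶ A⟦(1 : ℤ)⟧} (hT : Triangle.mk f g h ∈ distTriang D) (hA : t.ge n A)
    (hB : t.ge n B) : t.ge n X :=
  (t.isGE₂ _ hT n ⟨hA⟩ ⟨hB⟩).ge

theorem le_map_of_filt [hR : R.IsTriangulated] (T : TStructure D') (n : ℤ) {P : D → Prop}
    (hP : ∀ W, P W → T.le n (R.obj W)) {Z : D} (hZ : Filt P Z) : T.le n (R.obj Z) := by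
  induction hZ with
  | zero Z h0 => exact le_of_isZero T n (R.map_isZero h0)
  | ext A Z B f g h hT _ hB ih => exact le_mid T n (R.map_distinguished _ hT) ih (hP B hB)

theorem ge_map_of_filt [hR : R.IsTriangulated] (T : TStructure D') (n : ℤ) {P : D → Prop}
    (hP : ∀ W, P W → T.ge n (R.obj W)) {Z : D} (hZ : Filt P Z) : T.ge n (R.obj Z) := by
  induction hZ with
  | zero Z h0 => exact ge_of_isZero T n (R.map_isZero h0)
  | ext A Z B f g h hT _ hB ih => exact ge_mid T n (R.map_distinguished _ hT) ih (hP B hB)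

/-- A faithful triangulated functor which sends the simple objects of the heart of `U` to objects
of the heart of `T` matches `U` and `T`. -/
theorem corr_of_gen (hR : R.IsTriangulated) (hff : R.Faithful) {U : TStructure D}
    {T : TStructure D'} {n : ℕ} (Y : Fin n → D)
    (hle : ∀ Z, U.le 0 Z →
      Filt (fun W => ∃ (j : Fin n) (m : ℤ), 0 ≤ m ∧ Nonempty (W ≅ (Y j)⟦m⟧)) Z)
    (hge : ∀ Z, U.ge 1 Z →
      Filt (fun W => ∃ (j : Fin n) (m : ℤ), m ≤ -1 ∧ Nonempty (W ≅ (Y j)⟦m⟧)) Z)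
    (hY : ∀ j, T.heart (R.obj (Y j))) : Corr R U T := by
  intro X
  constructor
  · intro hX
    refine le_map_of_filt T 0 ?_ (hle X hX)
    rintro W ⟨j, m, hm, ⟨e⟩⟩
    have h1 : T.le (-m) ((R.obj (Y j))⟦m⟧) := T.le_shift 0 m (-m) (by lia) _ (hY j).1
    have h2 : T.le 0 ((R.obj (Y j))⟦m⟧) := T.le_monotone (by lia : -m ≤ 0) _ h1
    exact (T.le 0).prop_of_iso (R.mapIso e ≪≫ (R.commShiftIso m).app (Y j)).symm h2
  · intro hX
    rw [le_iff_orth]
    intro W hW f
    rw [zero_add] at hW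
    have h1 : T.ge 1 (R.obj W) := by
      refine ge_map_of_filt T 1 ?_ (hge W hW)
      rintro V ⟨j, m, hm, ⟨e⟩⟩
      have h1 : T.ge (-m) ((R.obj (Y j))⟦m⟧) := T.ge_shift 0 m (-m) (by lia) _ (hY j).2
      have h2 : T.ge 1 ((R.obj (Y j))⟦m⟧) := T.ge_antitone (by lia : 1 ≤ -m) _ h1
      exact (T.ge 1).prop_of_iso (R.mapIso e ≪≫ (R.commShiftIso m).app (Y j)).symm h2
    have h2 := (le_iff_orth T 0 _).1 hX _ (by rwa [zero_add]) (R.map f)
    apply R.map_injective
    rw [h2, R.map_zero]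

end

end EGr
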