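import Pool.Agent.Lib_MP_a23b08_n.NT1

/-!
# MP_a23b08_al, part N, transport: the type of a heart along forward and backward edges
-/

open CategoryTheory CategoryTheory.Limits CategoryTheory.Triangulated
  CategoryTheory.Pretriangulated

universe v u v' u'

namespace EGr

section family
variable {σ : Type} (𝒟 : σ → Type u) [∀ s, Category.{v} (𝒟 s)] [∀ s, Preadditive (𝒟 s)]
  [∀ s, HasZeroObject (𝒟 s)] [∀ s, HasShift (𝒟 s) ℤ]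
  [∀ s, ∀ n : ℤ, (shiftFunctor (𝒟 s) n).Additive] [∀ s, Pretriangulated (𝒟 s)]
  (T : ∀ s, TStructure (𝒟 s)) {n : ℕ} (Sm : ∀ s, Fin n → 𝒟 s)
  {D : Type u'} [Category.{v'} D] [Preadditive D] [HasZeroObject D] [HasShift D ℤ]
  [∀ n : ℤ, (shiftFunctor D n).Additive] [Pretriangulated D]

/-- forward edges -/
theorem HasTy.forward (hleD : LeStmt D) (hle : ∀ s, LeStmt (𝒟 s))
    (hfin : ∀ s, IsFiniteHeart (T s)) (hSm : ∀ s, SList (T s) (Sm s))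
    (hF : ∀ s i, FwdOK 𝒟 T Sm s i) {t t' : TStructure D} {S : D} (h : HasTy 𝒟 T t)
    (ht : IsFiniteHeart t) (ht' : IsFiniteHeart t') (hS : IsFwdTilt t S t') : HasTy 𝒟 T t' := by
  obtain ⟨s, F, cF, eF, hc⟩ := h
  obtain ⟨i, ⟨e⟩⟩ := (hSm s).all _ ((hc.simple eF S).1 hS.1)
  obtain ⟨s', R, cR, U, eR, hU, hUf, hcR⟩ := hF s i
  refine ⟨s', F ⋙ R, inferInstance, eF.comp eR, fun X => ?_⟩
  rw [hleD t t' S ht ht' hS X, hc X, eF.homs_zero_iff, homs_zero_of_iso e,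
    ← hle s (T s) U (Sm s i) (hfin s) hUf hU (F.obj X), hcR (F.obj X)]
  rfl

/-- backward edges -/
theorem HasTy.backward (hge : GeStmt D) (hss : SimpShift D) (hge' : ∀ s, GeStmt (𝒟 s))
    (hfin : ∀ s, IsFiniteHeart (T s)) (hSm : ∀ s, SList (T s) (Sm s))
    (hB : ∀ s i, BackOK 𝒟 T Sm s i) {t t' : TStructure D} {S : D} (h : HasTy 𝒟 T t)
    (ht : IsFiniteHeart t) (ht' : IsFiniteHeart t') (hS : IsFwdTilt t' S t) : HasTy 𝒟 T t' := by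
  obtain ⟨s, F, cF, eF, hc⟩ := h
  have h1 : SimpleIn t (S⟦(1 : ℤ)⟧) := hss t' t S ht' ht hS
  obtain ⟨i, ⟨e⟩⟩ := (hSm s).all _ ((hc.simple eF _).1 h1)
  obtain ⟨s', i', R, cR, U, eR, hU, hUf, hcR, ⟨e'⟩⟩ := hB s i
  obtain ⟨G, cG, eG, hGR, hRG⟩ := eR.exists_inv
  have hcG : Corr G (T s) U := hcR.inv hRG
  refine ⟨s', F ⋙ G, inferInstance, eF.comp eG, corr_of_ge (eF.comp eG) fun X => ?_⟩
  obtain ⟨e2⟩ := hGR ((Sm s' i')⟦(1 : ℤ)⟧)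
  rw [hge t' t S ht' ht hS X, hc.ge eF 0 X, hcG.ge eG 0 (F.obj X),
    eF.homs_zero_iff, homs_zero_of_iso' e, eG.homs_zero_iff,
    homs_zero_of_iso' (G.mapIso e'.symm), homs_zero_of_iso' e2,
    ← hge' s' (T s') U (Sm s' i') (hfin s') hUf hU]
  rfl

theorem HasTy.edge (hleD : LeStmt D) (hle : ∀ s, LeStmt (𝒟 s)) (hge : GeStmt D)
    (hss : SimpShift D) (hge' : ∀ s, GeStmt (𝒟 s))
    (hfin : ∀ s, IsFiniteHeart (T s)) (hSm : ∀ s, SList (T s) (Sm s))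
    (hF : ∀ s i, FwdOK 𝒟 T Sm s i) (hB : ∀ s i, BackOK 𝒟 T Sm s i) {t t' : TStructure D}
    (h : Relation.EqvGen Edge t t') : HasTy 𝒟 T t ↔ HasTy 𝒟 T t' := by
  induction h with
  | rel a b hab =>
    obtain ⟨ha, hb, S, hS⟩ := hab
    exact ⟨fun h => h.forward 𝒟 T Sm hleD hle hfin hSm hF ha hb hS,
      fun h => h.backward 𝒟 T Sm hge hss hge' hfin hSm hB hb ha hS⟩
  | refl a => exact Iff.rfl
  | symm a b _ ih => exact ih.symm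
  | trans a b c _ _ ih1 ih2 => exact ih1.trans ih2

end family

section family
variable {σ : Type} (𝒟 : σ → Type u) [∀ s, Category.{v} (𝒟 s)] [∀ s, Preadditive (𝒟 s)]
  [∀ s, HasZeroObject (𝒟 s)] [∀ s, HasShift (𝒟 s) ℤ]
  [∀ s, ∀ n : ℤ, (shiftFunctor (𝒟 s) n).Additive] [∀ s, Pretriangulated (𝒟 s)]
  (T : ∀ s, TStructure (𝒟 s)) {n : ℕ} (Sm : ∀ s, Fin n → 𝒟 s)

/-- TRANSPORT THEOREM: all the hearts in the component of `T s₀` have no loops and no 2-cycles. -/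
theorem nonDeg_vertex (hle : ∀ s, LeStmt (𝒟 s)) (hge : ∀ s, GeStmt (𝒟 s))
    (hss : ∀ s, SimpShift (𝒟 s)) (hfin : ∀ s, IsFiniteHeart (T s))
    (hSm : ∀ s, SList (T s) (Sm s)) (hND : ∀ s, NonDeg (T s))
    (hF : ∀ s i, FwdOK 𝒟 T Sm s i) (hB : ∀ s i, BackOK 𝒟 T Sm s i) (s₀ : σ)
    (w : Vertex (T s₀)) : NonDeg w.t := by
  have h0 : HasTy 𝒟 T (T s₀) :=
    ⟨s₀, 𝟭 _, inferInstance, IsTrEq.id, Corr.id (T s₀)⟩
  obtain ⟨s, F, cF, eF, hc⟩ := (HasTy.edge 𝒟 T Sm (hle s₀) hle (hge s₀) (hss s₀) hge hfin hSm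
    hF hB w.conn).1 h0
  exact hc.nonDeg eF (hND s)

end family

end EGr
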