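import Pool.Agent.Lib_MP_a23b08_t.T2Int

/-!
# MP_a23b08_al, part N, transport of hearts along triangulated equivalences: definitions

* `IsTrEq F`: the triangulated functor `F` is an equivalence.
* `Corr F t T`: `F` matches the t-structures `t` and `T`.
* `GeStmt`, `SimpShift`, `GenStmt`: what is used from part T1.
* `FwdOK`, `BackOK`: the two facts about a family of triangulated categories with finite hearts.
* `HasTy`: a t-structure has one of the types of the family.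
-/

open CategoryTheory CategoryTheory.Limits CategoryTheory.Triangulated
  CategoryTheory.Pretriangulated

universe v u v' u'

namespace EGr

section
variable {D : Type u} [Category.{v} D] [Preadditive D] [HasZeroObject D] [HasShift D ℤ]
  [∀ n : ℤ, (shiftFunctor D n).Additive] [Pretriangulated D]
  {D' : Type u'} [Category.{v'} D'] [Preadditive D'] [HasZeroObject D'] [HasShift D' ℤ]
  [∀ n : ℤ, (shiftFunctor D' n).Additive] [Pretriangulated D']

/-- `F` is a triangulated equivalence. -/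
structure IsTrEq (F : D ⥤ D') [F.CommShift ℤ] : Prop where
  tri : F.IsTriangulated
  full : F.Full
  faithful : F.Faithful
  essSurj : F.EssSurj

/-- `F` matches the aisles of `t` and `T`. -/
def Corr (F : D ⥤ D') (t : TStructure D) (T : TStructure D') : Prop :=
  ∀ X, t.le 0 X ↔ T.le 0 (F.obj X)

end

section
variable (D : Type u) [Category.{v} D] [Preadditive D] [HasZeroObject D] [HasShift D ℤ]
  [∀ n : ℤ, (shiftFunctor D n).Additive] [Pretriangulated D]

/-- from T1: the coaisle of a heart in terms of a forward tilt. -/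
def GeStmt : Prop :=
  ∀ (t t' : TStructure D) (S : D), IsFiniteHeart t → IsFiniteHeart t' → IsFwdTilt t S t' →
    ∀ X : D, t.ge 0 X ↔ t'.ge 0 X ∧ ∀ f : S⟦(1 : ℤ)⟧ ⟶ X, f = 0

/-- from T1: the shift of `S` is simple in the forward tilt at `S`. -/
def SimpShift : Prop :=
  ∀ (t t' : TStructure D) (S : D), IsFiniteHeart t → IsFiniteHeart t' → IsFwdTilt t S t' →
    SimpleIn t' (S⟦(1 : ℤ)⟧)

/-- from T1: generation by the shifts of the simple objects. -/
def GenStmt : Prop :=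
  ∀ (t : TStructure D) (n : ℕ) (X : Fin n → D), IsFiniteHeart t → SList t X →
    (∀ Z, Filt (fun W => ∃ (j : Fin n) (m : ℤ), Nonempty (W ≅ (X j)⟦m⟧)) Z) ∧
    (∀ Z, t.le 0 Z → Filt (fun W => ∃ (j : Fin n) (m : ℤ), 0 ≤ m ∧ Nonempty (W ≅ (X j)⟦m⟧)) Z) ∧
    (∀ Z, t.ge 1 Z → Filt (fun W => ∃ (j : Fin n) (m : ℤ), m ≤ -1 ∧ Nonempty (W ≅ (X j)⟦m⟧)) Z)

/-- from T1: recognition of the simple objects of a forward tilt. -/
def TiltListStmt : Prop :=
  ∀ (t t' : TStructure D) (n : ℕ) (X Y : Fin n → D) (i : Fin n), IsFiniteHeart t →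
    IsFiniteHeart t' → SList t X → IsFwdTilt t (X i) t' → Nonempty (Y i ≅ (X i)⟦(1 : ℤ)⟧) →
    (∀ j, j ≠ i → ∃ (A : D) (f : A ⟶ Y j) (g : Y j ⟶ X j) (h : X j ⟶ A⟦(1 : ℤ)⟧),
      Triangle.mk f g h ∈ distTriang D ∧ Filt (fun W => Nonempty (W ≅ X i)) A ∧
      (∀ φ : Y j ⟶ X i, φ = 0) ∧ ∀ φ : Y j ⟶ (X i)⟦(1 : ℤ)⟧, φ = 0) →
    SList t' Y

end

section family
variable {σ : Type} (𝒟 : σ → Type u) [∀ s, Category.{v} (𝒟 s)] [∀ s, Preadditive (𝒟 s)]
  [∀ s, HasZeroObject (𝒟 s)] [∀ s, HasShift (𝒟 s) ℤ]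
  [∀ s, ∀ n : ℤ, (shiftFunctor (𝒟 s) n).Additive] [∀ s, Pretriangulated (𝒟 s)]
  (T : ∀ s, TStructure (𝒟 s)) {n : ℕ} (Sm : ∀ s, Fin n → 𝒟 s)

/-- The forward tilt of `T s` at `Sm s i` is matched with some `T s'` by an equivalence. -/
def FwdOK (s : σ) (i : Fin n) : Prop :=
  ∃ (s' : σ) (R : 𝒟 s ⥤ 𝒟 s') (_ : R.CommShift ℤ) (U : TStructure (𝒟 s)),
    IsTrEq R ∧ IsFwdTilt (T s) (Sm s i) U ∧ IsFiniteHeart U ∧ Corr R U (T s')

/-- `T s` is matched with the forward tilt of some `T s'` at some `Sm s' i'` by an equivalence,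
which matches `Sm s' i'[1]` with `Sm s i`. -/
def BackOK (s : σ) (i : Fin n) : Prop :=
  ∃ (s' : σ) (i' : Fin n) (R : 𝒟 s' ⥤ 𝒟 s) (_ : R.CommShift ℤ) (U : TStructure (𝒟 s')),
    IsTrEq R ∧ IsFwdTilt (T s') (Sm s' i') U ∧ IsFiniteHeart U ∧ Corr R U (T s) ∧
      Nonempty (R.obj ((Sm s' i')⟦(1 : ℤ)⟧) ≅ Sm s i)

variable {D : Type u'} [Category.{v'} D] [Preadditive D] [HasZeroObject D] [HasShift D ℤ]
  [∀ n : ℤ, (shiftFunctor D n).Additive] [Pretriangulated D]

/-- The t-structure `t` is matched with some `T s` by a triangulated equivalence. -/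
def HasTy (t : TStructure D) : Prop :=
  ∃ (s : σ) (F : D ⥤ 𝒟 s) (_ : F.CommShift ℤ), IsTrEq F ∧ Corr F t (T s)

end family

end EGr
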